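import Pool.Agent.ASD.DefsD

/-!
# Squad ASE: elementary abelian defect groups of order `ℓ ^ 2`, all inertial quotients: definitions

On top of squads ASO and ASD.  Text: `Pool/Agent/ASE/AWC_SOE.md`.
`R = RL ℓ E₀` is the set of the subgroups `W` of order `ℓ` of `V₀` whose pointwise stabiliser `St E₀ W` in
`E₀` is not trivial, `nS E₀ W` its order, `pr ℓ E₀ W` the projection of `V₀` on `W`.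
`Rs` is the interface of the local blocks (section 1 of the text).
-/

open scoped BigOperators

noncomputable section

namespace Pool.Agent.PP.SE

open Pool.Agent.Helper51_AWC Pool.Agent.Helper79_WRA Pool.Agent.PP Pool.Agent.PP.KF
open Pool.Agent.PP.K9 Pool.Agent.PP.K9.H97 Pool.Agent.PP.H75 Pool.Agent.PP.T3 Pool.Agent.PP.SO
open Pool.Agent.PP.SD

attribute [local instance] Ideal.Quotient.field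

section basic

variable {V₀ : Type} [CommGroup V₀]

/-- the order of the pointwise stabiliser of `W` -/
def nS (E₀ : Subgroup (MulAut V₀)) (W : Subgroup V₀) : ℕ := Nat.card (St E₀ W)

/-- the reflection lines: the set `R` -/
def RL (ℓ : ℕ) (E₀ : Subgroup (MulAut V₀)) : Set (Subgroup V₀) :=
  {W | Nat.card W = ℓ ∧ 1 < nS E₀ W}

/-- The average of `c` over the pointwise stabiliser of `W`; for `W ∈ R` this is the projection on `W`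
with the kernel `[V₀, St E₀ W]`. -/
def pr (ℓ : ℕ) (E₀ : Subgroup (MulAut V₀)) (W : Subgroup V₀) (c : V₀) : V₀ :=
  (∏ᶠ τ : St E₀ W, (τ : MulAut V₀) c) ^ ((nS E₀ W : ZMod ℓ)⁻¹).val

/-- the image of `W` -/
def mp (σ : MulAut V₀) (W : Subgroup V₀) : Subgroup V₀ := W.map (σ : V₀ ≃* V₀).toMonoidHom

variable {n : ℕ}

/-- The contribution of the characters which are fixed by `σ⁻¹ σ'`, for the `13`-sums. -/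
def M13 (ℓ : ℕ) (E₀ : Subgroup (MulAut V₀)) (fx : Subgroup V₀ → MulAut V₀ → ℚ) (c d : V₀)
    (L : Set (SO.SS n V₀)) : ℚ :=
  ∑ᶠ w ∈ {w : E₀ × E₀ × V₀ | Nat.card (pL L) = ℓ ∧ mp w.1 (pL L) = qL L ∧
    mp w.2.1 (pL L) = qL L ∧ w.2.2 ∈ pL L ∧
    w.1.1 w.2.2 = pr ℓ E₀ (qL L) d * w.2.1.1 (pr ℓ E₀ (pL L) c * w.2.2) ∧ ∀ s ∈ L,
      w.1.1 (s.2.2.1 * (w.2.2 ^ (s.2.1 : ℕ))⁻¹) = s.2.2.2 ∧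
      w.2.1.1 (s.2.2.1 * (pr ℓ E₀ (pL L) c * w.2.2) ^ (s.1 : ℕ)) = s.2.2.2},
    (fx (pL L) ((w.1 : MulAut V₀)⁻¹ * (w.2.1 : MulAut V₀)) - 1)

/-- The contribution of the characters which are fixed by `τ`, for the `12`-sums. -/
def M12 (ℓ : ℕ) (E₀ : Subgroup (MulAut V₀)) (fx : Subgroup V₀ → MulAut V₀ → ℚ) (κ : V₀)
    (L : Set (SO.SS n V₀)) : ℚ :=
  ∑ᶠ w ∈ {w : E₀ × V₀ | Nat.card (aL κ L) = ℓ ∧ mp w.1 (aL κ L) = aL κ L ∧ w.2 ∈ aL κ L ∧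
    w.1.1 w.2 = pr ℓ E₀ (aL κ L) κ * w.2 ∧ ∀ s ∈ L,
      w.1.1 (κ ^ (s.2.1 : ℕ) * s.2.2.1 * (w.2 ^ (s.1 : ℕ))⁻¹) = κ ^ (s.2.1 : ℕ) * s.2.2.1},
    (fx (aL κ L) (w.1 : MulAut V₀) - 1)

/-- the coefficient of the term of `σ` -/
def cS (U : Subgroup V₀ → ℚ) (c d : V₀) (σ : MulAut V₀) (W : Subgroup V₀) : ℚ :=
  ux U W c * ux U W (σ d) / ux U W (c * σ d)

/-- the value of the `13`-sums -/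
def P13 (ℓ : ℕ) (E₀ : Subgroup (MulAut V₀)) (U : Subgroup V₀ → ℚ)
    (fx : Subgroup V₀ → MulAut V₀ → ℚ) (c d : V₀) (L : Set (SO.SS n V₀)) : ℚ :=
  ux U (pL L) c * ux U (qL L) d * (N13 E₀ c d L + M13 ℓ E₀ fx c d L)

/-- the exact local part of the value of the `12`-sums -/
def P12 (ℓ : ℕ) (E₀ : Subgroup (MulAut V₀)) (U : Subgroup V₀ → ℚ)
    (fx : Subgroup V₀ → MulAut V₀ → ℚ) (c d : V₀) (L : Set (SO.SS n V₀)) : ℚ :=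
  ∑ᶠ σ ∈ {σ | σ ∈ EL E₀ L ∧ aL (c * σ d) L ≠ ⊥},
    cS U c d σ (pL L) * (ux U (aL (c * σ d) L) (c * σ d) *
      (N12 E₀ (c * σ d) L + M12 ℓ E₀ fx (c * σ d) L))

/-- the exact local part of the total sum -/
def PPE (ℓ : ℕ) (E₀ : Subgroup (MulAut V₀)) (U : Subgroup V₀ → ℚ)
    (fx : Subgroup V₀ → MulAut V₀ → ℚ) (c d : V₀) (F₁₃ F₁₂ : Set (SO.SS n V₀) → ℚ) : ℚ :=
  ∑ᶠ L ∈ {L : Set (SO.SS n V₀) | pL L ≠ ⊥ ∧ qL L ≠ ⊥},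
    (mob F₁₃ L * P13 ℓ E₀ U fx c d L + mob F₁₂ L * P12 ℓ E₀ U fx c d L)

end basic

/-- the data of the interface: the numbers `U`, the functions `D`, `R`, the elements `et`, the numbers of
fixed characters `fx` -/
structure Rd (V₀ G : Type) [CommGroup V₀] where
  /-- the numbers `U` -/
  U : Subgroup V₀ → ℚ
  /-- the functions `DD` -/
  D : Subgroup V₀ → (G → ℂ) → V₀ → ℂ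
  /-- the functions `RR` -/
  R : Subgroup V₀ → (G → ℂ) → (G → ℂ) → ℂ
  /-- the elements `et` -/
  et : Subgroup V₀ → G → ℂ
  /-- the numbers of the fixed characters -/
  fx : Subgroup V₀ → MulAut V₀ → ℚ

section blk

variable {V₀ G : Type} [CommGroup V₀] [Group G] {M : Ideal (integralClosure ℤ ℂ)} [M.IsMaximal]

/-- the central character of `χ` on `i(W)` -/
def nu (B : Bk (FF M) V₀ G) (χ : G → ℂ) (w : V₀) : ℂ := χ (B.i w) / χ 1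

open Classical in
/-- an element of the inertial group which induces `σ` -/
def tt (B : Bk (FF M) V₀ G) (σ : MulAut V₀) : G :=
  if h : ∃ t ∈ Tg B.i.range B.g, ∀ v, t * B.i v * t⁻¹ = B.i (σ v) then h.choose else 1

/-- the conjugate of `χ`; it maps `Ch B W` onto `Ch B (σ W)` -/
def ac (B : Bk (FF M) V₀ G) (σ : MulAut V₀) (χ : G → ℂ) : G → ℂ := fun x =>
  χ ((tt B σ)⁻¹ * x * tt B σ)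

/-- the product of `i(κ)` and `f` -/
def tk (B : Bk (FF M) V₀ G) (κ : V₀) (f : G → ℂ) : G → ℂ := fun g => f ((B.i κ)⁻¹ * g)

/-- `a` is in the centre of the group ring of `C W`, in the block `b W`. -/
structure Cz (B : Bk (FF M) V₀ G) (W : Subgroup V₀) (a : G → ℂ) : Prop where
  sup : ∀ g, g ∉ B.C W → a g = 0
  cls : ∀ z ∈ B.C W, ∀ g, a (z * g * z⁻¹) = a g
  blk : ∀ ψ : G → ℂ, (∀ g, g ∉ B.C W → ψ g = 0) → (fun t : B.C W => ψ t) ∈ Irr (B.C W) →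
    ψ ∉ Ch B W → cv a ψ = 0

open Classical in
/-- the corrected element `fm W c`; for `c ∈ W` it is `n c b^` -/
def fm (ℓ : ℕ) (E₀ : Subgroup (MulAut V₀)) (B : Bk (FF M) V₀ G) (D : Rd V₀ G)
    (W : Subgroup V₀) (c : V₀) : G → ℂ := fun g =>
  (if c ∈ W then (nS E₀ W : ℂ) else 1) * fc B W c g -
    (if c ∈ W then 0 else tk B (pr ℓ E₀ W c) (D.et W) g)

open Classical in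
/-- the label of `c ≠ 1` at `W` -/
def mnl (E₀ : Subgroup (MulAut V₀)) (B : Bk (FF M) V₀ G) (c : V₀) (W : Subgroup V₀) : G → ℂ :=
  fun g => (if W ≤ Subgroup.zpowers c then (kE E₀ c : ℂ) else 1) * fc B W c g

open Classical in
/-- the label `κ et` of the line `a ∋ κ` at `W` -/
def etl (B : Bk (FF M) V₀ G) (D : Rd V₀ G) (a : Subgroup V₀) (κ : V₀) (W : Subgroup V₀) :
    G → ℂ := fun g =>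
  if W = a then tk B κ (D.et a) g
  else if W = ⊥ then (Nat.card (B.C a) : ℂ)⁻¹ * ∑ᶠ z : G, tk B κ (D.et a) (z⁻¹ * g * z)
  else 0

open Classical in
/-- the weights of the terms of `κ et` -/
def wtE (ℓ : ℕ) (E₀ : Subgroup (MulAut V₀)) (B : Bk (FF M) V₀ G) (D : Rd V₀ G)
    (W : Subgroup V₀) (κ : V₀) (τ : MulAut V₀) (y : V₀) : ℂ :=
  ((ℓ : ℂ) ^ 2 * (nS E₀ W : ℂ) ^ 2)⁻¹ * ∑ᶠ χ ∈ Ch B W, nu B χ κ * cv (D.et W) χ *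
      (starRingEnd ℂ (D.D W χ y) * D.D W χ (τ y)) +
    if mp τ W = W ∧ y ∈ W then (nS E₀ W : ℂ)⁻¹ * ∑ᶠ χ ∈ Ch B W, nu B χ κ * cv (D.et W) χ *
      (nu B χ (τ y * y⁻¹) * D.R W χ (ac B τ⁻¹ χ)) else 0

open Classical in
/-- The interface of the local blocks. -/
structure Rs (ℓ : ℕ) [Fact ℓ.Prime] (E₀ : Subgroup (MulAut V₀)) (B : Bk (FF M) V₀ G)
    (D : Rd V₀ G) : Prop where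
  ut : D.U ⊤ = 1
  u1 : ∀ W, W ≠ ⊥ → ∃ q ∈ SOR.Rl ℓ, D.U W = 1 + ℓ * q
  ue : ∀ W, W ≠ ⊥ → ∀ σ ∈ E₀, D.U (mp σ W) = D.U W
  d1 : ∀ W, W ≠ ⊥ → ∀ χ ∈ Ch B W, ∀ x, x ∉ W ∨ W = ⊤ →
    (B.D ⊤ : ℂ) * D.D W χ x = ∑ᶠ s, bh B ⊤ s * χ (B.i x * s)
  d2 : ∀ W, W ≠ ⊥ → ∀ χ ∈ Ch B W, D.D W χ 1 ≠ 0 ∧
    (∀ x, starRingEnd ℂ (D.D W χ x) = D.D W χ x⁻¹) ∧
    ∀ w ∈ W, ∀ x, D.D W χ (w * x) = nu B χ w * D.D W χ x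
  d3 : ∀ W, W ≠ ⊥ → ∀ χ ∈ Ch B W, ∀ c x, cv (fm ℓ E₀ B D W c) χ * D.D W χ x =
    (ux D.U W c : ℚ) * ∑ᶠ τ : St E₀ W, D.D W χ (x * (τ : MulAut V₀) c)
  d4 : ∀ W, W ≠ ⊥ → ∀ x y, ∑ᶠ χ ∈ Ch B W, D.D W χ x * starRingEnd ℂ (D.D W χ y) =
    (ℓ : ℂ) ^ 2 * {τ : MulAut V₀ | τ ∈ St E₀ W ∧ τ x = y}.ncard
  d5 : ∀ W, W ≠ ⊥ → ∀ χ ∈ Ch B W, ∀ ψ ∈ Ch B W,
    (Nat.card (B.C W) : ℂ)⁻¹ * ∑ᶠ s ∈ {s : G | s ∈ B.C W ∧ Reg ℓ s},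
      χ s * starRingEnd ℂ (ψ s) =
    D.D W χ 1 * starRingEnd ℂ (D.D W ψ 1) / ((ℓ : ℂ) ^ 2 * nS E₀ W) + D.R W χ ψ
  d6 : ∀ W, W ≠ ⊥ → ∀ ψ ∈ Ch B W, (∀ x, ∑ᶠ χ ∈ Ch B W, D.D W χ x * D.R W χ ψ = 0) ∧
    ∀ χ ∈ Ch B W, D.R W χ ψ = D.R W ψ χ ∧ starRingEnd ℂ (D.R W χ ψ) = D.R W χ ψ
  d7 : ∀ W, W ≠ ⊥ → ∀ ψ ∈ Ch B W, ∀ ψ' ∈ Ch B W, ∀ z ∈ W, ∀ c,
    ∑ᶠ χ ∈ Ch B W, D.R W ψ χ * (nu B χ z * cv (fm ℓ E₀ B D W c) χ) * D.R W χ ψ' =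
      if pr ℓ E₀ W c * z = 1 then (nS E₀ W : ℂ) * (ux D.U W c : ℚ) * D.R W ψ ψ' else 0
  d8 : ∀ W, W ≠ ⊥ → ∀ g ∈ E₀, mp g W = W → ∀ z ∈ W, ∀ c,
    ∑ᶠ χ ∈ Ch B W, cv (fm ℓ E₀ B D W c) χ * nu B χ z * D.R W χ (ac B g⁻¹ χ) =
      if pr ℓ E₀ W c * z = 1 then (nS E₀ W : ℂ) * (ux D.U W c : ℚ) * ((D.fx W g : ℚ) - 1) else 0
  f1 : ∀ W, W ≠ ⊥ → nS E₀ W = 1 → D.et W = 0 ∧ ∀ g, D.fx W g = 1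
  fe : ∀ W, W ≠ ⊥ → ∀ σ ∈ E₀, ∀ g ∈ E₀, mp g W = W → D.fx (mp σ W) (σ * g * σ⁻¹) = D.fx W g
  e1 : ∀ W, W ≠ ⊥ → Cz B W (D.et W)
  e2 : ∀ W, W ≠ ⊥ → ∀ g, ¬ Reg ℓ g → D.et W g = 0
  e3 : ∀ W, W ≠ ⊥ → ∀ χ ∈ Ch B W, cv (D.et W) χ ≠ 0 → ∀ c, cv (fm ℓ E₀ B D W c) χ =
    (nS E₀ W : ℂ) * (ux D.U W c : ℚ) * nu B χ (pr ℓ E₀ W c)
  e4 : ∀ W, W ≠ ⊥ → ∀ χ ∈ Ch B W, cv (D.et W) χ / ℓ ∈ RM M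
  e5 : ∀ W, W ≠ ⊥ → ∀ s ∈ B.C W,
    (ℓ : ℂ) * D.et W s / Nat.card (B.C W ⊓ Cu s : Subgroup G) ∈ RM M
  e6 : ∀ W ∈ RL ℓ E₀, ∀ κ ∈ W, ∀ τ ∈ E₀, ∀ y, wtE ℓ E₀ B D W κ τ y / ℓ ∈ RM M
  e7 : ∀ W ∈ RL ℓ E₀, ∀ κ ∈ W, (∑ᶠ χ ∈ Ch B W, nu B χ κ * cv (D.et W) χ) / (ℓ : ℂ) ^ 2 ∈ RM M ∧
    (∑ᶠ χ ∈ Ch B W, nu B χ κ * cv (D.et W) χ ^ 2) / (ℓ : ℂ) ^ 2 ∈ RM M
  e8 : ∀ W, W ≠ ⊥ → ∀ σ ∈ E₀, ∀ t ∈ Tg B.i.range B.g, (∀ v, t * B.i v * t⁻¹ = B.i (σ v)) →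
    (∀ g, D.et (mp σ W) (t * g * t⁻¹) = D.et W g) ∧ ∀ χ ∈ Ch B W, ∀ ψ ∈ Ch B W,
      (∀ x, D.D (mp σ W) (fun g => χ (t⁻¹ * g * t)) (σ x) = D.D W χ x) ∧
      D.R (mp σ W) (fun g => χ (t⁻¹ * g * t)) (fun g => ψ (t⁻¹ * g * t)) = D.R W χ ψ
  e9 : ∀ W, W ≠ ⊥ → ∀ χ ∈ Ch B W, ∃ q : ℚ, cv (D.et W) χ = (q : ℂ)
  h1 : ∀ W, W ≠ ⊥ → ∀ χ ∈ Ch B W, (ℓ : ℂ) ^ 2 * χ 1 / Nat.card (B.C W) ∈ RM M ∧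
    (Nat.card (B.C W) : ℂ) / ((ℓ : ℂ) ^ 2 * χ 1) ∈ RM M

/-- the `13`-sum of two elements -/
def X13 {n : ℕ} (B : Bk (FF M) V₀ G) (m : ℕ) (a b : Subgroup V₀ → G → ℂ)
    (L : Set (SO.SS n V₀)) : ℂ :=
  ((Nat.card (B.C (pL L)) : ℂ) * Nat.card (B.C (qL L)))⁻¹ *
    ∑ᶠ w : G × G, a (pL L) w.1 * b (qL L) w.2 * {z : XX w.1 w.2 | ∀ s ∈ L,
      c13 m B.i w.1 z.1.1 z.1.2.1 z.1.2.2 s.1 s.2.1 s.2.2.1 s.2.2.2}.ncard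

/-- the `12`-sum of two elements -/
def X12 {n : ℕ} (B : Bk (FF M) V₀ G) (m : ℕ) (a b : Subgroup V₀ → G → ℂ)
    (L : Set (SO.SS n V₀)) : ℂ :=
  ((Nat.card (B.C (pL L)) : ℂ) * Nat.card (B.C (qL L)))⁻¹ *
    ∑ᶠ w : G × G, a (pL L) w.1 * b (qL L) w.2 * {z : XX w.1 w.2 | ∀ s ∈ L,
      c12 m B.i z.1.1 z.1.2.1 z.1.2.2 s.1 s.2.1 s.2.2.1 s.2.2.2}.ncard

/-- the weighted number of the pairs `(x, y)` with the conditions for `κ ^ k p`, `κ` the `ℓ`-part of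
`[x, y]` -/
def HX {n : ℕ} (B : Bk (FF M) V₀ G) (m : ℕ) (W : Subgroup V₀) (a : G → ℂ)
    (L : Set (SO.SS n V₀)) : ℂ :=
  (Nat.card (B.C W) : ℂ)⁻¹ * ∑ᶠ g : G, a g * {w : G × G | SO.kap w.1 w.2 = g ∧ ∀ s ∈ L,
    ((g ^ m) ^ (s.2.1 : ℕ) * B.i s.2.2.1) * w.1 = w.1 * ((g ^ m) ^ (s.2.1 : ℕ) * B.i s.2.2.1) ∧
    w.2⁻¹ * ((g ^ m) ^ (s.2.1 : ℕ) * B.i s.2.2.1) * w.2 =
      (g ^ m) ^ (s.2.1 : ℕ) * B.i s.2.2.1 * (w.1 ^ m) ^ (s.1 : ℕ)}.ncard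

/-- the sum of the products of the central characters over the block -/
def NN (B : Bk (FF M) V₀ G) (a b : G → ℂ) : ℂ := ∑ᶠ χ ∈ IrrE M B.e, cv a χ * cv b χ

/-- the sum of the central characters over the block -/
def LL (B : Bk (FF M) V₀ G) (a : G → ℂ) : ℂ := ∑ᶠ χ ∈ IrrE M B.e, cv a χ

end blk

section rel

variable {V₀ : Type} [CommGroup V₀]

open Classical in
/-- the function `F₁₂` of the labels `kc`, `kd` -/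
def F12 {n : ℕ} (ℓ : ℕ) (x₁ x₂ : V₀ → ℤ) (Ψ M₁ M₂ : Set (SO.SS n V₀) → ℚ)
    (K : Set (Fin n × V₀ × V₀) → ℚ) (kc kd : V₀) (τ : Set (SO.SS n V₀)) : ℚ :=
  if Fre τ then (x₁ kc⁻¹ : ℚ) / ℓ * ((x₂ kd⁻¹ : ℚ) / ℓ) -
    K {u | ∃ s ∈ τ, (s.1 : ℕ) = 0 ∧ s.2 = u} -
    12 * (Ψ τ + (x₁ kc⁻¹ : ℚ) / ℓ * M₂ τ + (x₂ kd⁻¹ : ℚ) / ℓ * M₁ τ) else 0

/-- The values of the universal functions on the types which occur. -/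
structure FE (ℓ : ℕ) [Fact ℓ.Prime] (n : ℕ) (ρ₁ ρ₂ : V₀ → ZMod ℓ) (x₁ x₂ : V₀ → ℤ)
    (F₁₃ Ψ M₁ M₂ : Set (SO.SS n V₀) → ℚ) (K : Set (Fin n × V₀ × V₀) → ℚ) : Prop where
  z13 : ∀ τ, (∀ s ∈ τ, ρ₁ s.2.2.1 = 0) ∨ (∀ s ∈ τ, ρ₂ s.2.2.2 = 0) → F₁₃ τ = 0
  K0 : ∀ U, (∀ u ∈ U, ρ₁ u.2.1 = 0) ∨ (∀ u ∈ U, ρ₂ u.2.2 = 0) → K U = 0
  K1 : ∀ (U : Set (Fin n × V₀ × V₀)) (κ₁ κ₂ : V₀), (∃ u ∈ U, (u.1 : ℕ) = 1) →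
    (∀ u ∈ U, (u.1 : ℕ) = 1 → u.2 = (κ₁, κ₂)) → K U = (x₁ κ₁ * x₂ κ₂ : ℤ) / (ℓ : ℚ) ^ 2
  e0 : ∀ τ, Fre τ → (∀ s ∈ τ, ρ₁ s.2.2.1 = 0 ∧ ρ₂ s.2.2.2 = 0) → Ψ τ = 0 ∧ M₁ τ = 0 ∧ M₂ τ = 0
  e1 : ∀ τ, Fre τ → (∀ s ∈ τ, ∃ s' ∈ τ, (s'.1 : ℕ) = 0 ∧ s'.2 = s.2) →
    (∀ s ∈ τ, (s.2.1 : ℕ) = 0 → ρ₁ s.2.2.1 = 0 ∧ ρ₂ s.2.2.2 = 0) →
    Ψ τ = 0 ∧ M₁ τ = 0 ∧ M₂ τ = 0
  e2 : ∀ p₁ q₁ p₂ q₂ : V₀, Ψ {s | s.2.2.1 = p₁ ^ (s.1 : ℕ) * p₂ ^ (s.2.1 : ℕ) ∧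
      s.2.2.2 = q₁ ^ (s.1 : ℕ) * q₂ ^ (s.2.1 : ℕ)} =
        - (x₁ p₂ * x₂ q₁ + x₁ p₁ * x₂ q₂ : ℤ) / (ℓ : ℚ) ^ 2 ∧
    M₁ {s | s.2.2.1 = p₁ ^ (s.1 : ℕ) * p₂ ^ (s.2.1 : ℕ) ∧
      s.2.2.2 = q₁ ^ (s.1 : ℕ) * q₂ ^ (s.2.1 : ℕ)} = (x₁ p₁ : ℚ) / ℓ ∧
    M₂ {s | s.2.2.1 = p₁ ^ (s.1 : ℕ) * p₂ ^ (s.2.1 : ℕ) ∧
      s.2.2.2 = q₁ ^ (s.1 : ℕ) * q₂ ^ (s.2.1 : ℕ)} = (x₂ q₁ : ℚ) / ℓ
  e2' : ∀ p₁ q₁ : V₀, Ψ {s | ℓ ∣ (s.2.1 : ℕ) ∧ s.2.2.1 = p₁ ^ (s.1 : ℕ) ∧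
      s.2.2.2 = q₁ ^ (s.1 : ℕ)} = 0 ∧
    M₁ {s | ℓ ∣ (s.2.1 : ℕ) ∧ s.2.2.1 = p₁ ^ (s.1 : ℕ) ∧ s.2.2.2 = q₁ ^ (s.1 : ℕ)} =
      (x₁ p₁ : ℚ) / ℓ ∧
    M₂ {s | ℓ ∣ (s.2.1 : ℕ) ∧ s.2.2.1 = p₁ ^ (s.1 : ℕ) ∧ s.2.2.2 = q₁ ^ (s.1 : ℕ)} =
      (x₂ q₁ : ℚ) / ℓ
  e3 : ∀ (p q : V₀) (i₀ : ℕ), ¬ ℓ ∣ i₀ → (ℓ : ℚ) ^ 2 * Ψ {s | s.2.2.1 = p ^ (s.2.1 : ℕ) ∧
      s.2.2.2 = q ^ (s.2.1 : ℕ) ∧ (s.1 : ℕ) ≡ i₀ * (s.2.1 : ℕ) [MOD ℓ]} ∈ SOR.Rl ℓ ∧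
    M₁ {s | s.2.2.1 = p ^ (s.2.1 : ℕ) ∧ s.2.2.2 = q ^ (s.2.1 : ℕ) ∧
      (s.1 : ℕ) ≡ i₀ * (s.2.1 : ℕ) [MOD ℓ]} = 0 ∧
    M₂ {s | s.2.2.1 = p ^ (s.2.1 : ℕ) ∧ s.2.2.2 = q ^ (s.2.1 : ℕ) ∧
      (s.1 : ℕ) ≡ i₀ * (s.2.1 : ℕ) [MOD ℓ]} = 0

end rel

end Pool.Agent.PP.SE
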