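import Pool.Agent.ASE.DefsE
import Pool.Agent.ASD.Stmts3
import Pool.Agent.ASD.Stmts4

/-!
# Squad ASE, statements 3: the sums `SL`, `X13`, `X12`, `HX` (section 3 of `AWC_SOE.md`)

Complete proofs in the docstrings.  `C₁ = C W₁`, `n₁ = nS E₀ W₁`, `n_Y = nS E₀ Y`, `V = i(V₀)`, `tt σ` an element of the
inertial group `T` inducing `σ ∈ E₀`.  Only `Sb` is used where there is no `Rs`.  `Sd` is not needed, except that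
`NSD` for `⊤` (`Rw E₀ ⊤`) is used through `Rs.d1`.
-/

open scoped BigOperators

noncomputable section

namespace Pool.Agent.PP.SE

open Pool.Agent.Helper51_AWC Pool.Agent.Helper79_WRA Pool.Agent.PP Pool.Agent.PP.KF
open Pool.Agent.PP.K9 Pool.Agent.PP.K9.H97 Pool.Agent.PP.H75 Pool.Agent.PP.T3 Pool.Agent.PP.SO
open Pool.Agent.PP.SD

attribute [local instance] Ideal.Quotient.field

/-! ## 0. Definitions -/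

section defs

variable {V₀ G : Type} [CommGroup V₀] [Group G] {M : Ideal (integralClosure ℤ ℂ)} [M.IsMaximal]

/-- the component in the block `b Y` of the function `s ↦ χ(i(y) s)` on `C Y` -/
def cx (B : Bk (FF M) V₀ G) (Y : Subgroup V₀) (y : V₀) (χ : G → ℂ) (s : G) : ℂ :=
  ∑ᶠ r : G, bh B Y r * χ (B.i y * s * r)

/-- the pairs `(σ, y)` with `σ (p y ^ k) = q` for the triples of `L` -/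
def QL (E₀ : Subgroup (MulAut V₀)) (L : Set (V₀ × V₀ × ℤ)) : Set (MulAut V₀ × V₀) :=
  {w | w.1 ∈ E₀ ∧ ∀ s ∈ L, w.1 (s.1 * w.2 ^ s.2.2) = s.2.1}

/-- the pairs `(α, i)`, `α = κ ^ k p` -/
def TL {n : ℕ} (κ : V₀) (L : Set (SO.SS n V₀)) : Set (V₀ × ℕ) :=
  {t | ∃ s ∈ L, t = (κ ^ (s.2.1 : ℕ) * s.2.2.1, (s.1 : ℕ))}

/-- the weighted number of the pairs `(x, y)` with `α x = x α`, `y⁻¹ α y = α (x^m)^i` for `(α, i) ∈ T` -/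
def HY (B : Bk (FF M) V₀ G) (m : ℕ) (A : Subgroup V₀) (a : G → ℂ) (T : Set (V₀ × ℕ)) : ℂ :=
  (Nat.card (B.C A) : ℂ)⁻¹ * ∑ᶠ g : G, a g * {w : G × G | SO.kap w.1 w.2 = g ∧ ∀ t ∈ T,
    B.i t.1 * w.1 = w.1 * B.i t.1 ∧ w.2⁻¹ * B.i t.1 * w.2 = B.i t.1 * (w.1 ^ m) ^ t.2}.ncard

/-- the triples `(α, α, i)` -/
def LT (T : Set (V₀ × ℕ)) : Set (V₀ × V₀ × ℤ) := {s | ∃ t ∈ T, s = (t.1, t.1, (t.2 : ℤ))}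

end defs

/-! ## 1. Basic facts -/

/-- PRB: the projections `pr`.

Proof.  `N = St E₀ W`, `n = |N|` is prime to `ℓ` (`cp`, Lagrange), `n⁻¹` is the inverse in `ZMod ℓ`, so `v ^ (n * n⁻¹) = v`
(`ex`).  (1) `∏ τ c = c ^ n` for `c ∈ W`.  (2) `V₀` is commutative.  (3) substitution `τ' ↦ τ' τ`, `τ τ'`.
(4) `St E₀ (mp σ W) = σ (St E₀ W) σ⁻¹`.  (5) `W ∈ RL`: the fixed points of `N` are a subgroup containing `W`, different from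
`V₀` (some `τ ≠ 1` in `N`), so equal to `W` (orders); `pr c` is fixed by `N`.  (6) `N = 1`: `c ^ 1`, `(1 : ZMod ℓ)⁻¹ = 1`,
`(1 : ZMod ℓ).val = 1`.  (7) `|V₀| = ℓ²`; an automorphism fixing all elements is `1`.  (8) clear.
(9) the fixed points of `τ` contain `W` and `x`.  (10) (1)-(3): `∏ τ v` is fixed by `N`...: `(pr v)^n = (∏ τ v)^(n⁻¹ n) = ∏ τ v`. -/
def PrbStmt : Prop := ∀ (ℓ : ℕ) [Fact ℓ.Prime] (V₀ : Type) [CommGroup V₀] [Finite V₀]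
  (E₀ : Subgroup (MulAut V₀)), Fq ℓ V₀ E₀ → ∀ W : Subgroup V₀,
  (∀ c ∈ W, pr ℓ E₀ W c = c) ∧
  (pr ℓ E₀ W 1 = 1 ∧ (∀ c d, pr ℓ E₀ W (c * d) = pr ℓ E₀ W c * pr ℓ E₀ W d) ∧
    ∀ c (k : ℤ), pr ℓ E₀ W (c ^ k) = pr ℓ E₀ W c ^ k) ∧
  (∀ τ ∈ St E₀ W, ∀ c, pr ℓ E₀ W (τ c) = pr ℓ E₀ W c ∧ τ (pr ℓ E₀ W c) = pr ℓ E₀ W c) ∧
  (∀ σ ∈ E₀, nS E₀ (mp σ W) = nS E₀ W ∧ ∀ c, pr ℓ E₀ (mp σ W) (σ c) = σ (pr ℓ E₀ W c)) ∧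
  (W ∈ RL ℓ E₀ → ∀ c, pr ℓ E₀ W c ∈ W) ∧
  (nS E₀ W = 1 → ∀ c, pr ℓ E₀ W c = c) ∧
  (W ≠ ⊥ → (nS E₀ W = 1 ∨ W ∈ RL ℓ E₀) ∧ (W = ⊤ ∨ Nat.card W = ℓ)) ∧
  (nS E₀ (⊤ : Subgroup V₀) = 1 ∧ 0 < nS E₀ W ∧ ¬ ℓ ∣ nS E₀ W) ∧
  (W ≠ ⊥ → ∀ x, x ∉ W → W ⊔ Subgroup.zpowers x = ⊤ ∧ ∀ τ ∈ St E₀ W, τ x = x → τ = 1) ∧
  (∀ v, ∏ᶠ τ : St E₀ W, (τ : MulAut V₀) v = pr ℓ E₀ W v ^ nS E₀ W)

/-- MPB: images of subgroups.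

Proof.  Clear. -/
def MpbStmt : Prop := ∀ (V₀ : Type) [CommGroup V₀] [Finite V₀] (σ τ : MulAut V₀)
  (W W' : Subgroup V₀), mp 1 W = W ∧ mp (σ * τ) W = mp σ (mp τ W) ∧ Nat.card (mp σ W) = Nat.card W ∧
  (∀ v, v ∈ mp σ W ↔ σ⁻¹ v ∈ W) ∧ (∀ v, σ v ∈ mp σ W ↔ v ∈ W) ∧
  (∀ v, mp σ (Subgroup.zpowers v) = Subgroup.zpowers (σ v)) ∧
  mp σ (W ⊔ W') = mp σ W ⊔ mp σ W' ∧ mp σ (⊤ : Subgroup V₀) = ⊤ ∧ mp σ (⊥ : Subgroup V₀) = ⊥ ∧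
  (mp σ W = W' ↔ mp σ⁻¹ W' = W) ∧ (W ≤ W' → mp σ W ≤ mp σ W')

/-- CZB: central elements.

Proof.  `H = C W`, the central characters of `H`: a class function `a` on `H` is `∑_ψ cv a ψ (ψ 1/|H|) ψ(g⁻¹)` (the sum over
`Irr H`), the central character of a product (`mulF`) of class functions is the product.  `Cz` for `fc B W c`: FCD.
(3) the product of `i(κ)` (`κ ∈ W`, `i(κ)` central in `H`): `∑_g a(i(κ)⁻¹ g) χ(g) = ∑_g a(g) χ(i(κ) g)`, `χ(i(κ) g) = nu χ κ χ(g)` by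
Schur's lemma; `nu` is a homomorphism `W → ℂˣ` (finite order). -/
def CzbStmt : Prop := ∀ (ℓ : ℕ) [Fact ℓ.Prime] (M : Ideal (integralClosure ℤ ℂ)) [M.IsMaximal],
  (ℓ : integralClosure ℤ ℂ) ∈ M → ℓ ≠ 2 → ∀ (V₀ G : Type) [CommGroup V₀] [Finite V₀] [Group G]
  [Finite G] (E₀ : Subgroup (MulAut V₀)), Fq ℓ V₀ E₀ → ∀ B : Bk (FF M) V₀ G, Sb ℓ M E₀ B →
  ∀ W : Subgroup V₀,
  (∀ c, Cz B W (fc B W c)) ∧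
  (∀ a, Cz B W a → ∀ g ∈ B.C W, a g = ∑ᶠ χ ∈ Ch B W, cv a χ * (χ 1 / Nat.card (B.C W)) * χ g⁻¹) ∧
  (∀ a, Cz B W a → ∀ κ ∈ W, Cz B W (tk B κ a) ∧
    ∀ χ ∈ Ch B W, cv (tk B κ a) χ = nu B χ κ * cv a χ) ∧
  (∀ a b, Cz B W a → Cz B W b → Cz B W (fun g => mulF a b g) ∧
    ∀ χ ∈ Ch B W, cv (fun g => mulF a b g) χ = cv a χ * cv b χ) ∧
  (∀ a b, Cz B W a → Cz B W b → ∀ z z' : ℂ, Cz B W (fun g => z * a g + z' * b g) ∧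
    ∀ χ, cv (fun g => z * a g + z' * b g) χ = z * cv a χ + z' * cv b χ) ∧
  (∀ a b, Cz B W a → Cz B W b → (∀ χ ∈ Ch B W, cv a χ = cv b χ) → a = b) ∧
  (∀ χ ∈ Ch B W, χ 1 ≠ 0 ∧ nu B χ 1 = 1 ∧
    (∀ w ∈ W, starRingEnd ℂ (nu B χ w) = nu B χ w⁻¹ ∧ (∀ g, χ (B.i w * g) = nu B χ w * χ g) ∧
      ∀ w' ∈ W, nu B χ (w * w') = nu B χ w * nu B χ w') ∧
    (∀ g, χ g⁻¹ = starRingEnd ℂ (χ g)) ∧ ∀ z ∈ B.C W, ∀ g, χ (z * g * z⁻¹) = χ g) ∧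
  (Ch B W).Finite

/-- ACB: conjugation with `tt σ`.

Proof.  `tt B σ ∈ T` acts by `σ` (`Sb.sur`, `choose_spec`).  If `t ∈ T` acts by `σ` then `t = tt σ · z` with `z ∈ C ⊤ ≤ C W` (or
`t = z (tt σ)`), and a class function of `C W` is invariant under `z`; CJD (`Stmts3` of ASD): `x ∈ C W ↔ t x t⁻¹ ∈ C (σ W)`,
`b (σ W) = cj t (b W)`, `bh`, `fc`.  `ac 1 a = a`, `ac (σ σ') a = ac σ (ac σ' a)` for the same reason. -/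
def AcbStmt : Prop := ∀ (ℓ : ℕ) [Fact ℓ.Prime] (M : Ideal (integralClosure ℤ ℂ)) [M.IsMaximal],
  (ℓ : integralClosure ℤ ℂ) ∈ M → ℓ ≠ 2 → ∀ (V₀ G : Type) [CommGroup V₀] [Finite V₀] [Group G]
  [Finite G] (E₀ : Subgroup (MulAut V₀)), Fq ℓ V₀ E₀ → ∀ B : Bk (FF M) V₀ G, Sb ℓ M E₀ B →
  (∀ σ ∈ E₀, tt B σ ∈ Tg B.i.range B.g ∧ ∀ v, tt B σ * B.i v * (tt B σ)⁻¹ = B.i (σ v)) ∧
  ∀ W : Subgroup V₀, ∀ σ ∈ E₀,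
  (∀ t ∈ Tg B.i.range B.g, (∀ v, t * B.i v * t⁻¹ = B.i (σ v)) → ∀ a : G → ℂ,
    (∀ g, g ∉ B.C W → a g = 0) → (∀ z ∈ B.C W, ∀ g, a (z * g * z⁻¹) = a g) →
    ∀ x, ac B σ a x = a (t⁻¹ * x * t)) ∧
  (∀ a, Cz B W a → Cz B (mp σ W) (ac B σ a) ∧ ac B 1 a = a ∧
    ∀ σ' ∈ E₀, ac B (σ' * σ) a = ac B σ' (ac B σ a)) ∧
  (∀ χ ∈ Ch B W, ac B σ χ ∈ Ch B (mp σ W) ∧ ac B 1 χ = χ ∧
    (∀ σ' ∈ E₀, ac B (σ' * σ) χ = ac B σ' (ac B σ χ)) ∧ (∀ w, nu B (ac B σ χ) (σ w) = nu B χ w) ∧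
    ∀ a, Cz B W a → cv (ac B σ a) (ac B σ χ) = cv a χ) ∧
  Set.BijOn (ac B σ) (Ch B W) (Ch B (mp σ W)) ∧
  (∀ c, ac B σ (fc B W c) = fc B (mp σ W) (σ c)) ∧ ac B σ (bh B W) = bh B (mp σ W) ∧
  Nat.card (B.C (mp σ W)) = Nat.card (B.C W) ∧
  (∀ κ a, Cz B W a → ac B σ (tk B κ a) = tk B (σ κ) (ac B σ a))

/-- FMB: the elements `fm`.

Proof.  `n = nS E₀ W`.  (1) CZB, `Rs.e1`; for `c ∉ W` and `n > 1`: `pr W c ∈ W` (PRB (5), `W ∈ RL`); if `n = 1` then `et W = 0` (`f1`).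
(2) d3 for `x = 1`, and again: `cv (fm c) cv (fm c') D(1) = cv (fm c) ux(c') ∑_τ D(τ c') = ux(c') ux(c) ∑_τ ∑_τ' D(τ c' τ' c)`
(`St` is closed under products: `τ c' τ' c = τ'(c τ'⁻¹ τ c')`); the right side times `D(1)`:
`∑_τ (ux c ux (τ c')/ux (c τ c')) ux(c τ c') ∑_τ' D(τ' (c τ c'))` is the same (`ux (τ c') = ux c'`: `τ` fixes `W`), `D(1) ≠ 0`; `ux ≠ 0` (`u1`: `1 + ℓ q`, `q ∈ Rl ℓ`, is not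
`0`).  CZB (6).  (3) e3, CZB (3), (4), (6).  (4) ACB, e8, PRB (4).  (5) conjugate d3 for `x = 1`, d2: `conj D(τ c) = D(τ c⁻¹)`, `D(1)` is real.
(6) d3, `pr`: for `c ∈ W` `fm c = n i(c) b^`, and d3 is d2.  In general `cv (fm 1) χ = n`: `fm 1 = n b^`.  (7) CZB, (`tk` is multiplicative). -/
def FmbStmt : Prop := ∀ (ℓ : ℕ) [Fact ℓ.Prime] (M : Ideal (integralClosure ℤ ℂ)) [M.IsMaximal],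
  (ℓ : integralClosure ℤ ℂ) ∈ M → ℓ ≠ 2 → ∀ (V₀ G : Type) [CommGroup V₀] [Finite V₀] [Group G]
  [Finite G] (E₀ : Subgroup (MulAut V₀)), Fq ℓ V₀ E₀ → ∀ B : Bk (FF M) V₀ G, Sb ℓ M E₀ B →
  ∀ D : Rd V₀ G, Rs ℓ E₀ B D → ∀ W : Subgroup V₀, W ≠ ⊥ →
  (∀ c, Cz B W (fm ℓ E₀ B D W c)) ∧
  (∀ c c' x, mulF (fm ℓ E₀ B D W c) (fm ℓ E₀ B D W c') x = ∑ᶠ τ : St E₀ W,
    ((ux D.U W c * ux D.U W ((τ : MulAut V₀) c') / ux D.U W (c * (τ : MulAut V₀) c') : ℚ) : ℂ) *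
      fm ℓ E₀ B D W (c * (τ : MulAut V₀) c') x) ∧
  (∀ κ ∈ W, Cz B W (tk B κ (D.et W)) ∧ ∀ c x,
    mulF (tk B κ (D.et W)) (fm ℓ E₀ B D W c) x =
      (nS E₀ W : ℂ) * (ux D.U W c : ℚ) * tk B (κ * pr ℓ E₀ W c) (D.et W) x) ∧
  (∀ σ ∈ E₀, (∀ c, ac B σ (fm ℓ E₀ B D W c) = fm ℓ E₀ B D (mp σ W) (σ c)) ∧
    ∀ κ ∈ W, ac B σ (tk B κ (D.et W)) = tk B (σ κ) (D.et (mp σ W))) ∧
  (∀ χ ∈ Ch B W, ∀ c, starRingEnd ℂ (cv (fm ℓ E₀ B D W c) χ) = cv (fm ℓ E₀ B D W c⁻¹) χ) ∧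
  (∀ χ ∈ Ch B W, cv (fm ℓ E₀ B D W 1) χ = nS E₀ W) ∧
  (∀ κ ∈ W, ∀ κ' ∈ W, ∀ x, mulF (tk B κ (D.et W)) (tk B κ' (D.et W)) x =
    tk B (κ * κ') (fun g => mulF (D.et W) (D.et W) g) x) ∧
  (∀ c, ux D.U W c ≠ 0) ∧ (∀ τ ∈ St E₀ W, ∀ c, ux D.U W (τ c) = ux D.U W c) ∧
  (∀ σ ∈ E₀, ∀ c, ux D.U (mp σ W) (σ c) = ux D.U W c)

/-! ## 2. The sums `SL` -/

/-- FBR: the sums `SL` as sums over the fibres.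

Proof.  `W₁ = p1 L`, `W₂ = p2 L`.  Group the pairs `(X, u)` of `SL` with `X ∈ C₁`, `u⁻¹ X u ∈ C₂` (otherwise the term is `0`) by
`u` and `z = X ^ m`, the `ℓ`-part (`PE`): `X = z x`, `x` regular, commuting with `z`; the condition `u i(q) u⁻¹ = i(p) z^k` depends
only on `(z, u)`.  It implies that `z` and `i(W₁)` generate the same group `R` as `z` and `u i(W₂) u⁻¹`; `x` runs over the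
regular elements of `C(R) = C₁ ∩ Cu z`.  The term is `S(z, u) = ∑_x f(x) f'(x)`, `f(x) = χ(z x)`, `f'(x) = χ'(u⁻¹ (z x)⁻¹ u)`.  Decompose the
class function `f` of `C(R)` into its components `f_β` in the blocks `β` of `C(R)` (`f_β(x) = ∑_r β^(r) f(x r)`), and `f'` too; for regular sums different
blocks are orthogonal (`K9.RotStmt`): `S = ∑_β ∑_x f_β(x) conj(f''_β(x))`, `f''(x) = conj f'(x) = χ'(u⁻¹ z x u)`.  `f_β` vanishes at the regular elements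
unless `β` is under `b W₁` (as in FIB), `f''_β` unless `β` is under `cj u (b W₂)`.
For such `(z, u, β)`: PSC for `W₁`: `z = g i(y) g⁻¹`, `β = cj g (b Y)`, `Y = W₁ ⊔ ⟨y⟩`, `g ∈ C₁`, and as in the proof of FIB `u = g (tt σ)⁻¹ g'` with
`g' ∈ C₂`, `σ ∈ E₀`, and the condition becomes `σ (p y^k) = q`, `(σ, y) ∈ QL`.  Conversely every `(g, σ, y, g') ∈ C₁ × QL × C₂` defines such a triple
`(z, u, β)` (if `β` is not under `cj u (b W₂)` the value is `0`; but it is: `cj g (b Y) = cj (g tt(σ)⁻¹) (b (σ Y))` and `W₂ ≤ σ Y`).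
*Fibres.*  Let `(g₀, σ₀, y₀, g₀')` be given, `h = g₀⁻¹ g ∈ C₁`.  `(g, y)` gives the same `(z, β)` iff `h i(y) h⁻¹ = i(y₀)`, `cj h (b Y) = b Y₀`; by FUD there is
`π ∈ E₀` with `π = 1` on `W₁`, `π y = y₀`, `h ∈ t C Y`, `t ∈ T` inducing `π`.  So the `h` are the elements of `(C Y₀) (tt π)`, `π ∈ St E₀ W₁`; two `π`
give the same set iff they are equal on `Y = π⁻¹ Y₀`, so there are `|C Y₀| n₁/n_(Y₀)` elements `h`, and `y` is determined by `h`.  Given `g`, `y`: `u = g (tt σ)⁻¹ g'` iff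
`g' = (tt σ) g⁻¹ u ∈ C₂`; with `g⁻¹ u = (tt π)⁻¹ c (tt σ₀)⁻¹ g₀'`, `c ∈ C Y₀`, and `W₂ ≤ σ₀ Y₀`, this is `(tt σ)(tt π)⁻¹ (tt σ₀)⁻¹` modulo `C₂`, so the condition is that
`σ` and `σ₀ π` are equal on `(σ₀ π)⁻¹ W₂`, i.e. `σ ∈ (St E₀ W₂) σ₀ π`: `n₂` elements `σ`, one `g'` each; `(σ, y) ∈ QL` is automatic.  So every fibre has
`|C Y| n₁ n₂/n_Y` elements (`|C Y| = |C Y₀|`, `n_Y = n_(Y₀)`).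
*Value.*  Conjugate with `g`: `x = g s g⁻¹`, `s ∈ C Y` regular: `f_β(x) = cx B Y y χ s` (`χ` is a class function of `C₁`, `β^ = bh Y` conjugated),
`u⁻¹ z x u = g'⁻¹ (tt σ) i(y) s (tt σ)⁻¹ g'`, so `f''(x) = χ'((tt σ) i(y) s (tt σ)⁻¹) = (ac B σ⁻¹ χ')(i(y) s)` (ACB), and `f''_β(x) = cx B Y y (ac B σ⁻¹ χ') s`. -/
def FbrStmt : Prop := ∀ (ℓ : ℕ) [Fact ℓ.Prime] (M : Ideal (integralClosure ℤ ℂ)) [M.IsMaximal],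
  (ℓ : integralClosure ℤ ℂ) ∈ M → ℓ ≠ 2 → ∀ (V₀ G : Type) [CommGroup V₀] [Finite V₀] [Group G]
  [Finite G] (E₀ : Subgroup (MulAut V₀)), Fq ℓ V₀ E₀ → ∀ B : Bk (FF M) V₀ G, Sb ℓ M E₀ B →
  ∀ n m : ℕ, PE ℓ n m G → ∀ L : Set (V₀ × V₀ × ℤ), p1 L ≠ ⊥ → p2 L ≠ ⊥ → ∀ χ ∈ Ch B (p1 L),
  ∀ χ' ∈ Ch B (p2 L), SL B m L χ χ' =
    (Nat.card (B.C (p1 L)) : ℂ) * Nat.card (B.C (p2 L)) * ∑ᶠ w ∈ QL E₀ L,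
      (nS E₀ (p1 L ⊔ Subgroup.zpowers w.2) : ℂ) / ((nS E₀ (p1 L) : ℂ) * nS E₀ (p2 L) *
        Nat.card (B.C (p1 L ⊔ Subgroup.zpowers w.2))) *
      ∑ᶠ s ∈ {s : G | s ∈ B.C (p1 L ⊔ Subgroup.zpowers w.2) ∧ Reg ℓ s},
        cx B (p1 L ⊔ Subgroup.zpowers w.2) w.2 χ s *
          starRingEnd ℂ (cx B (p1 L ⊔ Subgroup.zpowers w.2) w.2 (ac B w.1⁻¹ χ') s)

/-- CXV: the functions `cx`.

Proof.  (1) `C = C ⊤`.  The function `s ↦ χ(i(y) s)` on `C` is a combination of `Irr C` (restriction of `χ` to `C`, `i(y)` central);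
its component in `g` is a combination of the characters `κ_μ` of `g` (`μ ∈ lin V₀`), which are equal to `κ₁` at the regular elements (as in `NSV`, `CEN`; NSD (4)
for `W = ⊤`, `Rw E₀ ⊤`: `κ_μ(h) = (|C|/(ℓ² D)) bh ⊤ h⁻¹` for `h` regular, `D = D ⊤`).  So `cx ⊤ y χ s = a κ₁(s)` for regular `s`, with `a D = cx ⊤ y χ 1 = ∑_r bh ⊤ r χ(i(y) r) = D DD(χ, y)`
(`Rs.d1`: `y ∉ W` or `W = ⊤`).  The same for `ψ` at `W'`.  `∑_(s regular) |κ₁(s)|² = (|C|/(ℓ² D))² ∑_s |bh ⊤ s|² = (|C|/(ℓ² D))² bh ⊤ 1 = |C|/ℓ²`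
(idempotent, `bh s⁻¹ = conj`; NSD (7)).  (2) `Y = W`: `i(y)` is central in `C W`, `χ` is in `b W`: `∑_r bh W r χ(i(y) s r) = χ(i(y) s) = nu χ y χ(s)`. -/
def CxvStmt : Prop := ∀ (ℓ : ℕ) [Fact ℓ.Prime] (M : Ideal (integralClosure ℤ ℂ)) [M.IsMaximal],
  (ℓ : integralClosure ℤ ℂ) ∈ M → ℓ ≠ 2 → ∀ (V₀ G : Type) [CommGroup V₀] [Finite V₀] [Group G]
  [Finite G] (E₀ : Subgroup (MulAut V₀)), Fq ℓ V₀ E₀ → ∀ B : Bk (FF M) V₀ G, Sd ℓ M E₀ B →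
  ∀ D : Rd V₀ G, Rs ℓ E₀ B D → ∀ W : Subgroup V₀, W ≠ ⊥ → ∀ χ ∈ Ch B W, ∀ y : V₀,
  (y ∉ W ∨ W = ⊤ → ∀ W' : Subgroup V₀, W' ≠ ⊥ → (y ∉ W' ∨ W' = ⊤) → ∀ ψ ∈ Ch B W',
    ∑ᶠ s ∈ {s : G | s ∈ B.C ⊤ ∧ Reg ℓ s}, cx B ⊤ y χ s * starRingEnd ℂ (cx B ⊤ y ψ s) =
      (Nat.card (B.C ⊤) : ℂ) / ℓ ^ 2 * (D.D W χ y * starRingEnd ℂ (D.D W' ψ y))) ∧
  (y ∈ W → ∀ s ∈ B.C W, cx B W y χ s = nu B χ y * χ s)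

/-- SLE: the sums `SL` (formula (3.1)).

Proof.  FBR.  `(σ, y) ∈ QL`, `Y = W₁ ⊔ ⟨y⟩`, `χ'' = ac B σ⁻¹ χ' ∈ Ch B (σ⁻¹ W₂)` (ACB).  `p y^k = σ⁻¹ q`, so `σ⁻¹ W₂ ≤ Y` and
`Y = σ⁻¹ W₂ ⊔ ⟨y⟩`.
(a) `Y = ⊤`: `n_Y = 1`.  `y ∉ W₁` or `W₁ = ⊤`, and `y ∉ σ⁻¹ W₂` or `σ⁻¹ W₂ = ⊤`.  CXV (1): the value is
`(n₁ n₂ |C ⊤|)⁻¹ (|C ⊤|/ℓ²) DD(χ, y) conj DD(χ'', y)`, and `DD(χ'', y) = DD_(W₂)(χ', σ y)` (`Rs.e8` for `σ⁻¹`).  If in this case `y ∈ W₁` (so `W₁ = ⊤`)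
the second sum has no term (`|W₁| ≠ ℓ`).
(b) `Y ≠ ⊤`: then `Y = W₁` is of order `ℓ`, `y ∈ W₁`, `σ⁻¹ W₂ = W₁` (`≠ ⊥`), `n₂ = n₁`.  CXV (2) for `χ` and `χ''` (both in `Ch B W₁`):
`(n₁/(n₁ n₂ |C₁|)) nu χ y conj (nu χ'' y) |C₁| rip(χ, χ'')`, `nu χ'' y = nu χ' (σ y)`, and d5:
`rip = DD(χ, 1) conj DD(χ'', 1)/(ℓ² n₁) + RR(χ, χ'')`; `nu χ y DD(χ, 1) = DD(χ, y)` (d2), `conj (nu χ'' y DD(χ'', 1)) = conj DD(χ'', y) = conj DD_(W₂)(χ', σ y)`.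
The two conditions of the second sum (`mp σ W₁ = W₂`, `y ∈ W₁`, `|W₁| = ℓ`) are the case (b). -/
def SleStmt : Prop := ∀ (ℓ : ℕ) [Fact ℓ.Prime] (M : Ideal (integralClosure ℤ ℂ)) [M.IsMaximal],
  (ℓ : integralClosure ℤ ℂ) ∈ M → ℓ ≠ 2 → ∀ (V₀ G : Type) [CommGroup V₀] [Finite V₀] [Group G]
  [Finite G] (E₀ : Subgroup (MulAut V₀)), Fq ℓ V₀ E₀ → ∀ B : Bk (FF M) V₀ G, Sd ℓ M E₀ B →
  ∀ D : Rd V₀ G, Rs ℓ E₀ B D →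
  ∀ n m : ℕ, PE ℓ n m G → ∀ L : Set (V₀ × V₀ × ℤ), p1 L ≠ ⊥ → p2 L ≠ ⊥ → ∀ χ ∈ Ch B (p1 L),
  ∀ χ' ∈ Ch B (p2 L), SL B m L χ χ' =
    (Nat.card (B.C (p1 L)) : ℂ) * Nat.card (B.C (p2 L)) *
      (((ℓ : ℂ) ^ 2 * nS E₀ (p1 L) * nS E₀ (p2 L))⁻¹ * ∑ᶠ w ∈ QL E₀ L,
        D.D (p1 L) χ w.2 * starRingEnd ℂ (D.D (p2 L) χ' (w.1 w.2)) +
      (nS E₀ (p1 L) : ℂ)⁻¹ * ∑ᶠ w ∈ {w : MulAut V₀ × V₀ | w ∈ QL E₀ L ∧ Nat.card (p1 L) = ℓ ∧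
          mp w.1 (p1 L) = p2 L ∧ w.2 ∈ p1 L},
        nu B χ w.2 * starRingEnd ℂ (nu B χ' (w.1 w.2)) * D.R (p1 L) χ (ac B w.1⁻¹ χ'))

/-! ## 3. The sums `X13` -/

/-- X3C: `X13` in terms of characters.

Proof.  As `W3C` (the first part of the proof of `WTH`, `Helper79_ASO/WTH.lean`; `Helper*_ASD` for W3C) with `a`, `b` in place of `fc W₁ c`,
`fc W₂ d`: only `Cz` is used.  For `(x, y, u)` with `[x, y] = g (u h u⁻¹)`, `g ∈ C₁`, `h ∈ C₂` let `X = g⁻¹ x`, `w = y⁻¹ u`: `g = x X⁻¹`,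
`h = (u⁻¹ X u)(w⁻¹ x⁻¹ w)`; the conditions are `x, X ∈ C₁`, `u q u⁻¹ = p (X^m)^(-j)`, `w q w⁻¹ = p (x^m)^i`, so (`a`, `b` class functions) `X13` is
`(|C₁| |C₂|)⁻¹ ∑ a(x X⁻¹) b((u⁻¹ X u)(w⁻¹ x⁻¹ w))`; insert CZB (2) and take the means. -/
def X3cStmt : Prop := ∀ (ℓ : ℕ) [Fact ℓ.Prime] (M : Ideal (integralClosure ℤ ℂ)) [M.IsMaximal],
  (ℓ : integralClosure ℤ ℂ) ∈ M → ℓ ≠ 2 → ∀ (V₀ G : Type) [CommGroup V₀] [Finite V₀] [Group G]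
  [Finite G] (E₀ : Subgroup (MulAut V₀)), Fq ℓ V₀ E₀ → ∀ B : Bk (FF M) V₀ G,
  Sb ℓ M E₀ B → ∀ n m : ℕ, PE ℓ n m G → ∀ (L : Set (SO.SS n V₀)) (a b : Subgroup V₀ → G → ℂ),
  Cz B (pL L) (a (pL L)) → Cz B (qL L) (b (qL L)) →
  X13 B m a b L = ((Nat.card (B.C (pL L)) : ℂ) * Nat.card (B.C (qL L)))⁻¹ ^ 2 *
    ∑ᶠ χ ∈ Ch B (pL L), ∑ᶠ χ' ∈ Ch B (qL L), cv (a (pL L)) χ * cv (b (qL L)) χ' *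
      (SL B m (Lm L) χ χ' * starRingEnd ℂ (SL B m (Lq L) χ χ'))

/-- CN3: a count for `X13`.

Proof.  `N₁ = St E₀ (pL L)`, `N₂ = St E₀ (qL L)`.  The map `(σ, y, σ', y', π, π', ρ, ρ') ↦ (X, s, s')`, `X = π⁻¹ y`, `s = (ρ' ρ)⁻¹ σ π`,
`s' = ρ⁻¹ σ' π' π`: the conditions are `σ (p y^(-j)) = q`, `σ' (p y'^i) = q`, `y' = π'(y π(c))`, `σ y = ρ'(σ' y' ρ(d))`.  `π p = p`, `ρ q = q`.
`s X = ρ⁻¹ ρ'⁻¹ σ y = ρ⁻¹ (σ' y') d = d s'(c X)` (`σ' y' = σ' π' π (X c)`), `s (p X^(-j)) = (ρ' ρ)⁻¹ σ (p y^(-j)) = q`,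
`s' (p (c X)^i) = ρ⁻¹ σ' (p (π' (π X π c))^i) = ρ⁻¹ σ'(p y'^i) = q`: so `(s, s', X)` is in the set of `N13`.  Conversely for `(s, s', X)` and
`π, π' ∈ N₁`, `ρ, ρ' ∈ N₂` put `y = π X`, `σ = ρ' ρ s π⁻¹`, `σ' = ρ s' π⁻¹ π'⁻¹`, `y' = π'(y π(c))`: the same computations.  So the number is
`n₁² n₂² N13`. -/
def Cn3Stmt : Prop := ∀ (V₀ : Type) [CommGroup V₀] [Finite V₀] (E₀ : Subgroup (MulAut V₀)) (n : ℕ)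
  (c d : V₀) (L : Set (SO.SS n V₀)),
  {w : ((MulAut V₀ × V₀) × (MulAut V₀ × V₀)) × ((St E₀ (pL L) × St E₀ (pL L)) ×
      (St E₀ (qL L) × St E₀ (qL L))) | w.1.1 ∈ QL E₀ (Lm L) ∧ w.1.2 ∈ QL E₀ (Lq L) ∧
    w.1.2.2 = (w.2.1.2 : MulAut V₀) (w.1.1.2 * (w.2.1.1 : MulAut V₀) c) ∧
    w.1.1.1 w.1.1.2 = (w.2.2.2 : MulAut V₀) (w.1.2.1 w.1.2.2 * (w.2.2.1 : MulAut V₀) d)}.ncard =
  nS E₀ (pL L) ^ 2 * nS E₀ (qL L) ^ 2 * N13 E₀ c d L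

/-- X3S: the sums over the characters for `X13`.

Proof.  `W` a subgroup, `n = nS E₀ W`.  (1) d3, d4 (`conj (conj D y') ..`): `cv (fm c) χ D(χ, y) = ux c ∑_π D(χ, y π c)` and the orthogonality.
(2) d3 and d6; `conj (nu χ z) D(χ, x) = nu χ z⁻¹ D(χ, x) = D(χ, z⁻¹ x)` (d2, CZB (7)).  (3) the same with `conj D(χ, y) = D(χ, y⁻¹)`. -/
def X3sStmt : Prop := ∀ (ℓ : ℕ) [Fact ℓ.Prime] (M : Ideal (integralClosure ℤ ℂ)) [M.IsMaximal],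
  (ℓ : integralClosure ℤ ℂ) ∈ M → ℓ ≠ 2 → ∀ (V₀ G : Type) [CommGroup V₀] [Finite V₀] [Group G]
  [Finite G] (E₀ : Subgroup (MulAut V₀)), Fq ℓ V₀ E₀ → ∀ B : Bk (FF M) V₀ G, Sb ℓ M E₀ B →
  ∀ D : Rd V₀ G, Rs ℓ E₀ B D → ∀ W : Subgroup V₀, W ≠ ⊥ → ∀ c : V₀,
  (∀ y y' : V₀, ∑ᶠ χ ∈ Ch B W, cv (fm ℓ E₀ B D W c) χ * (D.D W χ y *
      starRingEnd ℂ (D.D W χ y')) = (ux D.U W c : ℚ) * (ℓ : ℂ) ^ 2 *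
    {w : St E₀ W × St E₀ W | y' = (w.2 : MulAut V₀) (y * (w.1 : MulAut V₀) c)}.ncard) ∧
  (∀ ψ ∈ Ch B W, ∀ z ∈ W, ∀ y : V₀, ∑ᶠ χ ∈ Ch B W, cv (fm ℓ E₀ B D W c) χ *
      (D.D W χ y * (starRingEnd ℂ (nu B χ z) * D.R W χ ψ)) = 0) ∧
  (∀ ψ ∈ Ch B W, ∀ z ∈ W, ∀ y : V₀, ∑ᶠ χ ∈ Ch B W, cv (fm ℓ E₀ B D W c) χ *
      (starRingEnd ℂ (D.D W χ y) * (nu B χ z * D.R W χ ψ)) = 0)

/-- X3R: the value of `X13` (formula (3.2)).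

Proof.  `W₁ = pL L = p1 (Lm L) = p1 (Lq L)`, `W₂ = qL L`.  X3C (FMB (1)) and SLE for `Lm L`, `Lq L`:
`SL₋/(|C₁| |C₂|) = (ℓ² n₁ n₂)⁻¹ ∑_(σ, y) DD(χ, y) conj DD(χ', σ y) + n₁⁻¹ ∑_(σ, y) nu χ y conj (nu χ' (σ y)) RR(χ, σ⁻¹ χ')` (`(σ, y) ∈ QL (Lm L)`), and the
conjugate of `SL₊` with `(σ', y') ∈ QL (Lq L)` (`RR` is real, d6).  Multiply out.
*DD DD*: X3S (1) for `χ` at `W₁` (`y, y'`) and for `χ'` at `W₂` (`DD(χ', σ' y') conj DD(χ', σ y)`: the number of the `(ρ, ρ')` with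
`σ y = ρ'(σ' y' ρ(d))`): `(ℓ² n₁ n₂)⁻² ℓ⁴ ux₁(c) ux₂(d)` times the number of CN3, which is `ux₁(c) ux₂(d) N13`.
*DD RR* and *RR DD*: for fixed `χ'` the sum over `χ` is `0` (X3S (2): `cv (fm c) χ DD(χ, y) conj (nu χ y') RR(χ, σ'⁻¹ χ')`; X3S (3)).
*RR RR*: `n₁⁻² ∑ nu χ y conj (nu χ y') conj (nu χ' (σ y)) nu χ' (σ' y') cv cv RR(χ, σ⁻¹ χ') RR(χ, σ'⁻¹ χ')` over `(σ, y)`, `(σ', y')` in the second sets (so `|W₁| = ℓ`,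
`mp σ W₁ = W₂ = mp σ' W₁`, `y, y' ∈ W₁`).  The sum over `χ`: d7 with `z = y y'⁻¹`, `ψ = σ⁻¹ χ'`, `ψ' = σ'⁻¹ χ'` (symmetric): `n₁ ux₁(c) [y' = pr c y] RR(σ⁻¹ χ', σ'⁻¹ χ')`.
`RR_(W₁)(σ⁻¹ χ', σ'⁻¹ χ') = RR_(W₂)(χ', g⁻¹ χ')`, `g = σ' σ⁻¹` (e8, ACB), and the sum over `χ'` is by d8 (`z = σ' y' (σ y)⁻¹`)
`n₂ ux₂(d) [pr_(W₂) d σ' y' = σ y] (fx_(W₂)(σ' σ⁻¹) - 1)`, `fx_(W₂)(σ' σ⁻¹) = fx_(W₁)(σ⁻¹ σ')` (fe with `σ`).  `n₂ = n₁`.  With `s = σ`, `s' = σ'`, `w.2.2 = y`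
these are the terms of `M13` times `ux₁(c) ux₂(d)`. -/
def X3rStmt : Prop := ∀ (ℓ : ℕ) [Fact ℓ.Prime] (M : Ideal (integralClosure ℤ ℂ)) [M.IsMaximal],
  (ℓ : integralClosure ℤ ℂ) ∈ M → ℓ ≠ 2 → ∀ (V₀ G : Type) [CommGroup V₀] [Finite V₀] [Group G]
  [Finite G] (E₀ : Subgroup (MulAut V₀)), Fq ℓ V₀ E₀ → ∀ B : Bk (FF M) V₀ G, Sd ℓ M E₀ B →
  ∀ D : Rd V₀ G, Rs ℓ E₀ B D → ∀ n m : ℕ, PE ℓ n m G → ∀ (c d : V₀) (L : Set (SO.SS n V₀)),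
  pL L ≠ ⊥ → qL L ≠ ⊥ →
  X13 B m (fun W => fm ℓ E₀ B D W c) (fun W => fm ℓ E₀ B D W d) L =
    ((P13 ℓ E₀ D.U D.fx c d L : ℚ) : ℂ)

/-! ## 4. The sums `X12` -/

/-- X2C: `X12` in terms of `HX`.

Proof.  As `W12A` / `W2A` / `W2X` (`Helper63_ASO/W12A.lean`, squad ASD), with `a`, `b` in place of `fc W₁ c`, `fc W₂ d`.  With `κ = [x, y] = g (u h u⁻¹)`,
`g ∈ C₁`, `h ∈ C₂` and `α = (κ^m)^k i(p)` the condition `c12` for `(i, k, p, q)` is: `u i(q) u⁻¹ = i(p)`, `α x = x α`, `y⁻¹ α y = α (x^m)^i` (`κ ∈ C₁`, so `p` commutes with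
`κ^m`).  (1) If exactly one of `W₁`, `W₂` is `⊥` there is no `u`.  (2) `W₁ ≠ ⊥`: `R(κ)` = the number of the `(x, y)` with `[x, y] = κ` and the conditions for
the `α`: a class function on `C₁`.  `X12 = (|C₁| |C₂|)⁻¹ ∑_u ∑_(g, h) a g b h R(g u h u⁻¹)`, and for given `u` (`u i(W₂) u⁻¹ = i(W₁)`) the inner sum is
`∑_κ (a * (u b u⁻¹))(κ) R(κ)`; `a` is a multiple of the lift of `b W₁`, `u b u⁻¹` of the lift of `cj u (b W₂)` (`Cz`), so it is `0` unless `cj u (b W₂) = b W₁`, and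
then by FUD `u ∈ t C₂`, `t ∈ T` inducing some `σ ∈ E₀` with `σ q = p` for all of `L`, and `u b u⁻¹ = ac σ b` (ACB).  Every `σ ∈ EL E₀ L` belongs to the `|C₂|`
elements of `(tt σ) C₂`, every such `u` to the `|St E₀ W₂| = n₂` elements `σ` of a coset (`W₂` is generated by the `q`), `n₂ = nS (pL L)`.  If
`EL = ∅` both sides are `0`. -/
def X2cStmt : Prop := ∀ (ℓ : ℕ) [Fact ℓ.Prime] (M : Ideal (integralClosure ℤ ℂ)) [M.IsMaximal],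
  (ℓ : integralClosure ℤ ℂ) ∈ M → ℓ ≠ 2 → ∀ (V₀ G : Type) [CommGroup V₀] [Finite V₀] [Group G]
  [Finite G] (E₀ : Subgroup (MulAut V₀)), Fq ℓ V₀ E₀ → ∀ B : Bk (FF M) V₀ G,
  Sb ℓ M E₀ B → ∀ n m : ℕ, PE ℓ n m G → ∀ (L : Set (SO.SS n V₀)) (a b : Subgroup V₀ → G → ℂ),
  (((pL L = ⊥ ∧ qL L ≠ ⊥) ∨ (pL L ≠ ⊥ ∧ qL L = ⊥)) → X12 B m a b L = 0) ∧
  (Cz B (pL L) (a (pL L)) → Cz B (qL L) (b (qL L)) → pL L ≠ ⊥ →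
    X12 B m a b L = (nS E₀ (pL L) : ℂ)⁻¹ * ∑ᶠ σ ∈ EL E₀ L,
    HX B m (pL L) (fun g => mulF (a (pL L)) (ac B σ (b (qL L))) g) L)

/-- X2R: the values of `X12`.

Proof.  X2C.  `σ ∈ EL E₀ L`: `mp σ (qL L) = pL L = W`, `n = nS E₀ W`.  FMB (4): `ac σ (fm (qL L) d) = fm W (σ d)`,
`ac σ (tk (pr d) et) = tk (σ (pr d)) (et W) = tk (pr W (σ d)) (et W)` (PRB (4)).  (1) FMB (2): `n⁻¹ ∑_σ ∑_τ (ux c ux (τ σ d)/ux (c τ σ d)) HX(fm (c τ σ d))`; for `τ ∈ St E₀ W` the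
map `σ ↦ τ σ` is a bijection of `EL E₀ L` (`τ p = p`), so this is the sum over `σ`.  (2), (3) FMB (3); `pr c pr (σ d) = pr (c σ d)`
(for (3) `mulF` is commutative on `Cz` elements: equal central characters, CZB (6)).  (4) FMB (7).  `HX` is linear in the element. -/
def X2rStmt : Prop := ∀ (ℓ : ℕ) [Fact ℓ.Prime] (M : Ideal (integralClosure ℤ ℂ)) [M.IsMaximal],
  (ℓ : integralClosure ℤ ℂ) ∈ M → ℓ ≠ 2 → ∀ (V₀ G : Type) [CommGroup V₀] [Finite V₀] [Group G]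
  [Finite G] (E₀ : Subgroup (MulAut V₀)), Fq ℓ V₀ E₀ → ∀ B : Bk (FF M) V₀ G, Sb ℓ M E₀ B →
  ∀ D : Rd V₀ G, Rs ℓ E₀ B D → ∀ n m : ℕ, PE ℓ n m G → ∀ (c d : V₀) (L : Set (SO.SS n V₀)),
  pL L ≠ ⊥ →
  X12 B m (fun W => fm ℓ E₀ B D W c) (fun W => fm ℓ E₀ B D W d) L = ∑ᶠ σ ∈ EL E₀ L,
    ((cS D.U c d σ (pL L) : ℚ) : ℂ) * HX B m (pL L) (fm ℓ E₀ B D (pL L) (c * σ d)) L ∧
  (pL L ∈ RL ℓ E₀ →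
    X12 B m (fun W => tk B (pr ℓ E₀ W c) (D.et W)) (fun W => fm ℓ E₀ B D W d) L =
      ∑ᶠ σ ∈ EL E₀ L, (ux D.U (pL L) (σ d) : ℚ) *
        HX B m (pL L) (tk B (pr ℓ E₀ (pL L) (c * σ d)) (D.et (pL L))) L ∧
    X12 B m (fun W => fm ℓ E₀ B D W c) (fun W => tk B (pr ℓ E₀ W d) (D.et W)) L =
      ∑ᶠ σ ∈ EL E₀ L, (ux D.U (pL L) c : ℚ) *
        HX B m (pL L) (tk B (pr ℓ E₀ (pL L) (c * σ d)) (D.et (pL L))) L ∧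
    X12 B m (fun W => tk B (pr ℓ E₀ W c) (D.et W)) (fun W => tk B (pr ℓ E₀ W d) (D.et W)) L =
      (nS E₀ (pL L) : ℂ)⁻¹ * ∑ᶠ σ ∈ EL E₀ L, HX B m (pL L)
        (tk B (pr ℓ E₀ (pL L) (c * σ d)) (fun g => mulF (D.et (pL L)) (D.et (pL L)) g)) L)

/-! ## 5. The sums `HX`, `HY` -/

/-- HXY: `HX` in terms of `HY`.

Proof.  (1) `HX B m (pL L) (fc B (pL L) κ) L = HK B m κ L`: `W = pL L`; the definition of `fc` and the invariance of the conditions under `C W` (the elements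
`α` are conjugated; `i(p)` commutes with `C W`): `|C W|⁻¹ ∑_g fc g R(g) = |C(W ⊔ ⟨κ⟩)|⁻¹ ∑_s bh (W ⊔ ⟨κ⟩) s R(i(κ) s)`, `(i(κ) s)^m = i(κ)` (`s` regular in
`C(W ⊔ ⟨κ⟩)`), and `aL κ L ⊔ ⟨κ⟩ = W ⊔ ⟨κ⟩`.
(2) `HK B m κ L = HY (aL κ L) (fc (aL κ L) κ) (TL κ L)`: in the same way, `A = aL κ L`, the elements `α = κ^k p ∈ A` commute with `C A`.
(3) `f` vanishes at the elements which are not regular, and outside of `C W`, `κ' ∈ W`: `g = i(κ') s`, `g^m = i(κ')`. -/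
def HxyStmt : Prop := ∀ (ℓ : ℕ) [Fact ℓ.Prime] (M : Ideal (integralClosure ℤ ℂ)) [M.IsMaximal],
  (ℓ : integralClosure ℤ ℂ) ∈ M → ∀ (V₀ G : Type) [CommGroup V₀] [Finite V₀] [Group G]
  [Finite G] (E₀ : Subgroup (MulAut V₀)), Fq ℓ V₀ E₀ → ∀ B : Bk (FF M) V₀ G, Sb ℓ M E₀ B →
  ∀ n m : ℕ, PE ℓ n m G → ∀ (L : Set (SO.SS n V₀)) (κ : V₀),
  HX B m (pL L) (fc B (pL L) κ) L = HK B m κ L ∧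
  HK B m κ L = HY B m (aL κ L) (fc B (aL κ L) κ) (TL κ L) ∧
  ∀ (W : Subgroup V₀) (f : G → ℂ), κ ∈ W → (∀ g, g ∉ B.C W → f g = 0) →
    (∀ g, ¬ Reg ℓ g → f g = 0) → HX B m W (tk B κ f) L = HY B m W (tk B κ f) (TL κ L)

/-- HYC: `HY` in terms of characters.

Proof.  As `HKC` (`Stmts4` of ASD) with `a` in place of `fc A κ`: `R(g)` is a class function on `C A`; CZB (2); replace `y` by `v y`, `v ∈ C A`, and take the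
mean: `HY = |C A|⁻² ∑_χ cv a χ ∑_(x, y) χ(y x y⁻¹) χ(x⁻¹)` over the `(x, y)` with `α x = x α` (i.e. `x ∈ C A`), `y⁻¹ α y = α (x^m)^i` for all of `T` (then
`y x y⁻¹ ∈ C A`); with `u = y⁻¹`, `X = x` this is the conjugate of `SL B m (LT T) χ χ` (`χ(x⁻¹) = conj χ(x)`; in `SL` the terms with `X ∉ C A` vanish). -/
def HycStmt : Prop := ∀ (ℓ : ℕ) [Fact ℓ.Prime] (M : Ideal (integralClosure ℤ ℂ)) [M.IsMaximal],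
  (ℓ : integralClosure ℤ ℂ) ∈ M → ℓ ≠ 2 → ∀ (V₀ G : Type) [CommGroup V₀] [Finite V₀] [Group G]
  [Finite G] (E₀ : Subgroup (MulAut V₀)), Fq ℓ V₀ E₀ → ∀ B : Bk (FF M) V₀ G, Sb ℓ M E₀ B →
  ∀ n m : ℕ, PE ℓ n m G → ∀ (A : Subgroup V₀) (a : G → ℂ) (T : Set (V₀ × ℕ)), Cz B A a →
  Subgroup.closure {α | ∃ t ∈ T, t.1 = α} = A →
  HY B m A a T = (Nat.card (B.C A) : ℂ)⁻¹ ^ 2 * ∑ᶠ χ ∈ Ch B A, cv a χ *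
    starRingEnd ℂ (SL B m (LT T) χ χ)

/-- HYE: `HY` at `κ et`.

Proof.  HYC, SLE for `LT T` (`p1 = p2 = A`, `n₁ = n₂ = n`), `cv (tk κ et) χ = nu χ κ cv et χ` (CZB (3)).  The conjugate of SLE:
`SL/|C A|² = (ℓ² n²)⁻¹ ∑_((τ, y) ∈ QL) conj DD(χ, y) DD(χ, τ y) + n⁻¹ ∑ conj (nu χ y) nu χ (τ y) RR(χ, τ⁻¹ χ)`, `nu χ (τ y) conj (nu χ y) = nu χ (τ y y⁻¹)`.  `A ∈ RL`: `|A| = ℓ`. -/
def HyeStmt : Prop := ∀ (ℓ : ℕ) [Fact ℓ.Prime] (M : Ideal (integralClosure ℤ ℂ)) [M.IsMaximal],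
  (ℓ : integralClosure ℤ ℂ) ∈ M → ℓ ≠ 2 → ∀ (V₀ G : Type) [CommGroup V₀] [Finite V₀] [Group G]
  [Finite G] (E₀ : Subgroup (MulAut V₀)), Fq ℓ V₀ E₀ → ∀ B : Bk (FF M) V₀ G, Sd ℓ M E₀ B →
  ∀ D : Rd V₀ G, Rs ℓ E₀ B D → ∀ n m : ℕ, PE ℓ n m G → ∀ A ∈ RL ℓ E₀, ∀ κ ∈ A,
  ∀ T : Set (V₀ × ℕ), Subgroup.closure {α | ∃ t ∈ T, t.1 = α} = A →
  HY B m A (tk B κ (D.et A)) T = ∑ᶠ w ∈ QL E₀ (LT T), wtE ℓ E₀ B D A κ w.1 w.2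

/-- CN2: a count for `HY`.

Proof.  `N = St E₀ A`, `A` generated by the `α` of `T`.  `(τ, y, π, π')` with `τ (α y^i) = α` (for all of `T`), `y = π'(τ y π(κ))`.  Put `X = π⁻¹ τ y`,
`s = (π' π)⁻¹ τ⁻¹ π`: `s X = (π' π)⁻¹ y = π⁻¹ (τ y π κ) = X κ`, `s (α X^(-i)) = (π' π)⁻¹ τ⁻¹ (α (τ y)^(-i)) = (π' π)⁻¹ (τ⁻¹ α y^(-i)) = α`.  Conversely for `(s, X)` and
`π, π'`: `τ = π s⁻¹ (π' π)⁻¹`, `y = τ⁻¹ π X`. -/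
def Cn2Stmt : Prop := ∀ (V₀ : Type) [CommGroup V₀] [Finite V₀] (E₀ : Subgroup (MulAut V₀)) (n : ℕ)
  (κ : V₀) (L : Set (SO.SS n V₀)),
  {w : (MulAut V₀ × V₀) × (St E₀ (aL κ L) × St E₀ (aL κ L)) | w.1 ∈ QL E₀ (LT (TL κ L)) ∧
    w.1.2 = (w.2.2 : MulAut V₀) (w.1.1 w.1.2 * (w.2.1 : MulAut V₀) κ)}.ncard =
  nS E₀ (aL κ L) ^ 2 * N12 E₀ κ L

/-- HYF: `HY` at `fm`.

Proof.  `A = aL κ L`, `n = nS E₀ A`, `T = TL κ L`.  HYC (FMB (1)), SLE for `LT T`, conjugated.  *DD*: `(ℓ² n²)⁻¹ ∑_(τ, y) ∑_χ cv (fm κ) χ DD(χ, τ y) conj DD(χ, y)` is by X3S (1)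
`(n²)⁻¹ ux(κ)` times the number of CN2, i.e. `ux(κ) N12`.  *RR* (`|A| = ℓ`): `n⁻¹ ∑_((τ, y), mp τ A = A, y ∈ A) ∑_χ cv (fm κ) χ nu χ (τ y y⁻¹) RR(χ, τ⁻¹ χ)`, by d8
`ux(κ) ∑ [pr κ τ y = y] (fx(τ) - 1)`; with `s = τ⁻¹`, `X = τ y`: `s X = y = pr κ X`, `s (α X^(-i)) = τ⁻¹ α y^(-i) = α`, and `fx (τ⁻¹) = fx τ`: d8 for `c = 1`, `z = 1`,
`cv (fm 1) χ = n` (FMB (6)): `∑_χ RR(χ, τ⁻¹ χ) = fx τ - 1`; `RR(χ, τ⁻¹ χ) = RR(τ⁻¹ χ, χ) = RR(χ'', τ χ'')` with `χ'' = τ⁻¹ χ` (d6; `ac τ⁻¹` is a bijection of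
`Ch B A`, ACB).  So the sum is `ux(κ) M12`. -/
def HyfStmt : Prop := ∀ (ℓ : ℕ) [Fact ℓ.Prime] (M : Ideal (integralClosure ℤ ℂ)) [M.IsMaximal],
  (ℓ : integralClosure ℤ ℂ) ∈ M → ℓ ≠ 2 → ∀ (V₀ G : Type) [CommGroup V₀] [Finite V₀] [Group G]
  [Finite G] (E₀ : Subgroup (MulAut V₀)), Fq ℓ V₀ E₀ → ∀ B : Bk (FF M) V₀ G, Sd ℓ M E₀ B →
  ∀ D : Rd V₀ G, Rs ℓ E₀ B D → ∀ n m : ℕ, PE ℓ n m G → ∀ (κ : V₀) (L : Set (SO.SS n V₀)),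
  aL κ L ≠ ⊥ →
  HY B m (aL κ L) (fm ℓ E₀ B D (aL κ L) κ) (TL κ L) =
    ((ux D.U (aL κ L) κ * (N12 E₀ κ L + M12 ℓ E₀ D.fx κ L) : ℚ) : ℂ)

open Classical in
/-- HKF: the value of `HK` for `aL ≠ ⊥`.

Proof.  HXY (2), HYF; `A = aL κ L`.  `κ ∈ A`: `fm A κ = n fc A κ`.  `κ ∉ A`: `fc A κ = fm A κ + tk (pr A κ) (et A)`; for `A ∉ RL` (`nS = 1`, PRB (7)) `et A = 0`;
otherwise HYE (`pr A κ ∈ A`, PRB (5)).  `HY` is linear in the element. -/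
def HkfStmt : Prop := ∀ (ℓ : ℕ) [Fact ℓ.Prime] (M : Ideal (integralClosure ℤ ℂ)) [M.IsMaximal],
  (ℓ : integralClosure ℤ ℂ) ∈ M → ℓ ≠ 2 → ∀ (V₀ G : Type) [CommGroup V₀] [Finite V₀] [Group G]
  [Finite G] (E₀ : Subgroup (MulAut V₀)), Fq ℓ V₀ E₀ → ∀ B : Bk (FF M) V₀ G, Sd ℓ M E₀ B →
  ∀ D : Rd V₀ G, Rs ℓ E₀ B D → ∀ n m : ℕ, PE ℓ n m G → ∀ (κ : V₀) (L : Set (SO.SS n V₀)),
  aL κ L ≠ ⊥ →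
  (if κ ∈ aL κ L then (nS E₀ (aL κ L) : ℂ) else 1) * HK B m κ L =
    ((ux D.U (aL κ L) κ * (N12 E₀ κ L + M12 ℓ E₀ D.fx κ L) : ℚ) : ℂ) +
    if κ ∉ aL κ L ∧ aL κ L ∈ RL ℓ E₀ then
      ∑ᶠ w ∈ QL E₀ (LT (TL κ L)), wtE ℓ E₀ B D (aL κ L) (pr ℓ E₀ (aL κ L) κ) w.1 w.2 else 0

end Pool.Agent.PP.SE
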