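import Pool.Agent.ASE.DefsE
import Pool.Agent.ASD.Stmts8

/-!
# Squad ASE: the interfaces of the blocks of statements

Text: `Pool/Agent/ASE/AWC_SOE.md`.  The statements of this file are the outputs of the blocks; they are
proved from the rows of `Stmts2`, `Stmts3`, `Stmts5`, `Stmts6`, `Stmts7`, `Stmts8`.
-/

open scoped BigOperators

noncomputable section

namespace Pool.Agent.PP.SE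

open Pool.Agent.Helper51_AWC Pool.Agent.Helper79_WRA Pool.Agent.PP Pool.Agent.PP.KF
open Pool.Agent.PP.K9 Pool.Agent.PP.K9.H97 Pool.Agent.PP.H75 Pool.Agent.PP.T3 Pool.Agent.PP.SO
open Pool.Agent.PP.SD

attribute [local instance] Ideal.Quotient.field

section defs

variable {V₀ G : Type} [CommGroup V₀] [Group G] {M : Ideal (integralClosure ℤ ℂ)} [M.IsMaximal]

/-- The main part of the relation (section 5.5 of the text). -/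
def MNE (ℓ : ℕ) (E₀ : Subgroup (MulAut V₀)) (B : Bk (FF M) V₀ G) (D : Rd V₀ G) (x₁ x₂ : V₀ → ℤ)
    (c d : V₀) : ℂ :=
  ((x₁ c⁻¹ * x₂ d⁻¹ : ℤ) : ℂ) / (ℓ : ℂ) ^ 2 * NN B (mnl E₀ B c ⊥) (mnl E₀ B d ⊥) -
  (∑ᶠ a ∈ {a : Subgroup V₀ | a ∈ RL ℓ E₀ ∧ c ∉ a},
    ((x₁ (pr ℓ E₀ a c)⁻¹ * x₂ d⁻¹ : ℤ) : ℂ) / (ℓ : ℂ) ^ 2 *
      NN B (etl B D a (pr ℓ E₀ a c) ⊥) (mnl E₀ B d ⊥)) -
  (∑ᶠ b ∈ {b : Subgroup V₀ | b ∈ RL ℓ E₀ ∧ d ∉ b},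
    ((x₁ c⁻¹ * x₂ (pr ℓ E₀ b d)⁻¹ : ℤ) : ℂ) / (ℓ : ℂ) ^ 2 *
      NN B (mnl E₀ B c ⊥) (etl B D b (pr ℓ E₀ b d) ⊥)) -
  ∑ᶠ σ ∈ {σ : MulAut V₀ | σ ∈ E₀ ∧ c * σ d ≠ 1},
    (((cS D.U c d σ (Subgroup.zpowers (c * σ d)) : ℚ) : ℂ) *
      (((x₁ (c * σ d)⁻¹ * x₂ (σ⁻¹ (c * σ d))⁻¹ : ℤ) : ℂ) / (ℓ : ℂ) ^ 2) *
        LL B (mnl E₀ B (c * σ d) ⊥) -
      ∑ᶠ a ∈ {a : Subgroup V₀ | a ∈ RL ℓ E₀ ∧ c * σ d ∉ a}, ((cS D.U c d σ a : ℚ) : ℂ) *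
        (((x₁ (pr ℓ E₀ a (c * σ d))⁻¹ * x₂ (σ⁻¹ (pr ℓ E₀ a (c * σ d)))⁻¹ : ℤ) : ℂ) /
          (ℓ : ℂ) ^ 2) * LL B (etl B D a (pr ℓ E₀ a (c * σ d)) ⊥))

/-- the value of `χ` at the section of `i(x)` and `g`, divided by the degree -/
def Vx (B : Bk (FF M) V₀ G) (χ : G → ℂ) (x : V₀) : ℂ :=
  (B.D ⊤ : ℂ)⁻¹ * ∑ᶠ s, bh B ⊤ s * χ (B.i x * s)

/-- An equivariant choice of characters with trivial central character on `i(W)`; only used for the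
`W ∈ R` with `|St E₀ W| = ℓ - 1`. -/
structure Xc (ℓ : ℕ) (E₀ : Subgroup (MulAut V₀)) (B : Bk (FF M) V₀ G)
    (xc : Subgroup V₀ → G → ℂ) : Prop where
  m : ∀ W ∈ RL ℓ E₀, nS E₀ W = ℓ - 1 → xc W ∈ Ch B W ∧ ∀ w ∈ W, nu B (xc W) w = 1
  e : ∀ W ∈ RL ℓ E₀, nS E₀ W = ℓ - 1 → ∀ σ ∈ E₀, ∀ t ∈ Tg B.i.range B.g,
    (∀ v, t * B.i v * t⁻¹ = B.i (σ v)) → xc (mp σ W) = fun g => xc W (t⁻¹ * g * t)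

/-- `χ ∈ Ch B W` is exceptional. -/
def Exc (ℓ : ℕ) (E₀ : Subgroup (MulAut V₀)) (B : Bk (FF M) V₀ G) (xc : Subgroup V₀ → G → ℂ)
    (W : Subgroup V₀) (χ : G → ℂ) : Prop :=
  χ ∈ Ch B W ∧ ((nS E₀ W = ℓ - 1 ∧ χ = xc W) ∨ ∃ x y, x ∉ W ∧ y ∉ W ∧ pr ℓ E₀ W x = 1 ∧
    pr ℓ E₀ W y = 1 ∧ Vx B χ x ≠ Vx B χ y)

/-- The number of the orbits of `St E₀ W` on the set of the nontrivial linear characters of `V₀` which are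
trivial on `W`, mapped to themselves by `g`. -/
def oW (E₀ : Subgroup (MulAut V₀)) (W : Subgroup V₀) (g : MulAut V₀) : ℕ :=
  {O : Set (V₀ → ℂ) | ∃ s ∈ lin V₀, (∃ x, s x ≠ 1) ∧ (∀ w ∈ W, s w = 1) ∧
    O = {s' | ∃ τ ∈ St E₀ W, s' = fun x => s (τ x)} ∧
    {s' | ∃ s ∈ O, s' = fun x => s (g x)} = O}.ncard

/-- the subgroup of the inertial group which belongs to `E₁` -/
def TE (B : Bk (FF M) V₀ G) (E₁ : Subgroup (MulAut V₀)) : Subgroup G where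
  carrier := {t | t ∈ Tg B.i.range B.g ∧ ∃ σ ∈ E₁, ∀ v, t * B.i v * t⁻¹ = B.i (σ v)}
  one_mem' := ⟨Subgroup.one_mem _, 1, E₁.one_mem, fun v => by simp⟩
  mul_mem' := by
    rintro a b ⟨ha, σ, hσ, h⟩ ⟨hb, τ, hτ, h'⟩
    refine ⟨Subgroup.mul_mem _ ha hb, σ * τ, E₁.mul_mem hσ hτ, fun v => ?_⟩
    rw [MulAut.mul_apply, ← h, ← h']
    group
  inv_mem' := by
    rintro a ⟨ha, σ, hσ, h⟩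
    refine ⟨Subgroup.inv_mem _ ha, σ⁻¹, E₁.inv_mem hσ, fun v => ?_⟩
    have h1 := h (σ⁻¹ v)
    rw [MulAut.apply_inv_self] at h1
    rw [← h1]
    group

/-- the number of the irreducible modular characters of the group `TE B E₁` in `g` -/
def Lam (B : Bk (FF M) V₀ G) (E₁ : Subgroup (MulAut V₀)) : ℕ := ln (fun t : TE B E₁ => B.g t)

end defs

/-! ## Block R (helper66, helper32): universal functions, sums over the block -/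

/-- RTE: the relation with universal functions for all labels (section 4).

Proof.  The functions of `Helper32_SOR/UNI.lean`: as RTY (`Helper66_SOR/StmtX.lean`), with the explicit
functions; `Psi'` is affine in `r₁ p₀`, `r₂ p₀`, and its branch does not depend on `p₀`. -/
def RteStmt : Prop := ∀ (ℓ : ℕ) [Fact ℓ.Prime] (V₀ : Type) [CommGroup V₀] [Finite V₀],
  (∀ v : V₀, v ^ ℓ = 1) → ∀ (n : ℕ) (ρ₁ ρ₂ : V₀ → ZMod ℓ), (∃ r, 0 < r ∧ n = ℓ ^ r) → Hm ρ₁ →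
  Hm ρ₂ → ∀ (x₁ x₂ : V₀ → ℤ), Lf ρ₁ x₁ → Lf ρ₂ x₂ →
  ∃ (F₁₃ Ψ M₁ M₂ : Set (SO.SS n V₀) → ℚ) (K : Set (Fin n × V₀ × V₀) → ℚ),
    FE ℓ n ρ₁ ρ₂ x₁ x₂ F₁₃ Ψ M₁ M₂ K ∧
    ∀ (kc kd : V₀) (G : Type) [Group G] [Finite G] (m : ℕ) (ι : V₀ →* G), Function.Injective ι →
      PE ℓ n m G → Rel ℓ n m ι kc kd F₁₃ (F12 ℓ x₁ x₂ Ψ M₁ M₂ K kc kd)

/-- HSE: the sums over the block (section 6), for every datum with `Rs` (no regular element needed).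

(1) (6.2) the values are in `RM M`, the sums of the values over the block are rational and in `Rl ℓ`,
invariant under `c ↦ c ^ j`, `ℓ ∤ j`; (2) (6.4), (6.5) the same for the labels `et`, their values are in
`ℓ RM M`; (3) (6.6) the two relations modulo `ℓ ^ 2`; (4) (6.5) the relations modulo `ℓ ^ 2` for `et`.
`D c = LL (mn c)`, `N c d = NN (mn c) (mn d)`, `Z a κ = LL (et a κ)`, `Y a κ d = NN (et a κ) (mn d)`. -/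
def HseStmt : Prop := ∀ (ℓ : ℕ) [Fact ℓ.Prime] (M : Ideal (integralClosure ℤ ℂ)) [M.IsMaximal],
  (ℓ : integralClosure ℤ ℂ) ∈ M → ℓ ≠ 2 → ∀ (V₀ G : Type) [CommGroup V₀] [Finite V₀] [Group G]
  [Finite G] (E₀ : Subgroup (MulAut V₀)), Fq ℓ V₀ E₀ → ∀ B : Bk (FF M) V₀ G, Sd ℓ M E₀ B →
  ∀ D : Rd V₀ G, Rs ℓ E₀ B D → ∃ (d₁ : V₀ → ℚ) (n₁ : V₀ → V₀ → ℚ) (z₁ : Subgroup V₀ → V₀ → ℚ)
    (y₁ : Subgroup V₀ → V₀ → V₀ → ℚ),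
    ((∀ c, c ≠ 1 → LL B (mnl E₀ B c ⊥) = (d₁ c : ℂ) ∧ d₁ c ∈ SOR.Rl ℓ) ∧
      (∀ c d, c ≠ 1 → d ≠ 1 → NN B (mnl E₀ B c ⊥) (mnl E₀ B d ⊥) = (n₁ c d : ℂ) ∧
        NN B (mnl E₀ B d ⊥) (mnl E₀ B c ⊥) = (n₁ c d : ℂ) ∧ n₁ c d ∈ SOR.Rl ℓ) ∧
      ∀ c, ∀ j : ℕ, ¬ ℓ ∣ j → d₁ (c ^ j) = d₁ c) ∧
    (∀ a ∈ RL ℓ E₀, ∀ κ ∈ a, LL B (etl B D a κ ⊥) = (z₁ a κ : ℂ) ∧
      (∃ q ∈ SOR.Rl ℓ, z₁ a κ = ℓ * q) ∧ (∃ q ∈ SOR.Rl ℓ, z₁ a κ - z₁ a 1 = ℓ ^ 2 * q) ∧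
      ∀ d, d ≠ 1 → NN B (etl B D a κ ⊥) (mnl E₀ B d ⊥) = (y₁ a κ d : ℂ) ∧
        NN B (mnl E₀ B d ⊥) (etl B D a κ ⊥) = (y₁ a κ d : ℂ) ∧
        ∃ q ∈ SOR.Rl ℓ, y₁ a κ d = ℓ * q) ∧
    (∀ a ∈ RL ℓ E₀, ∀ κ ∈ a, ∀ d, d ≠ 1 → ∃ q ∈ SOR.Rl ℓ,
      ∑ t ∈ Finset.Icc 1 (ℓ - 1), ∑ s ∈ Finset.Icc 1 (ℓ - 1), y₁ a (κ ^ t) (d ^ s) -
        Nat.card E₀ * z₁ a 1 = ℓ ^ 2 * q) ∧
    (∀ c d, c ≠ 1 → d ≠ 1 → ∃ q ∈ SOR.Rl ℓ,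
      ∑ t ∈ Finset.Icc 1 (ℓ - 1), ∑ s ∈ Finset.Icc 1 (ℓ - 1), n₁ (c ^ t) (d ^ s) +
        Nat.card E₀ * (ℓ - 1) * (d₁ c + d₁ d) +
        (Nat.card E₀ : ℚ) ^ 2 * (IrrE M B.e).ncard = ℓ ^ 2 * q) ∧
    ∃ q ∈ SOR.Rl ℓ, ∑ᶠ c ∈ {c : V₀ | c ≠ 1}, d₁ c + Nat.card E₀ * (IrrE M B.e).ncard = ℓ ^ 2 * q

/-! ## Block W (helper71): the relation -/

/-- FIE: the relation (5.5). -/
def FieStmt : Prop := ∀ (ℓ : ℕ) [Fact ℓ.Prime] (M : Ideal (integralClosure ℤ ℂ)) [M.IsMaximal],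
  (ℓ : integralClosure ℤ ℂ) ∈ M → ℓ ≠ 2 → ∀ (V₀ G : Type) [CommGroup V₀] [Finite V₀] [Group G]
  [Finite G] (E₀ : Subgroup (MulAut V₀)), Fq ℓ V₀ E₀ → ∀ B : Bk (FF M) V₀ G, Sd ℓ M E₀ B →
  ∀ D : Rd V₀ G, Rs ℓ E₀ B D → ∀ n m : ℕ, PE ℓ n m G →
  ∀ (ρ₁ ρ₂ : V₀ → ZMod ℓ) (x₁ x₂ : V₀ → ℤ), Hm ρ₁ → Hm ρ₂ → Lf ρ₁ x₁ → Lf ρ₂ x₂ →
  ∀ (F₁₃ Ψ M₁ M₂ : Set (SO.SS n V₀) → ℚ) (K : Set (Fin n × V₀ × V₀) → ℚ),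
  FE ℓ n ρ₁ ρ₂ x₁ x₂ F₁₃ Ψ M₁ M₂ K →
  (∀ kc kd, Rel ℓ n m B.i kc kd F₁₃ (F12 ℓ x₁ x₂ Ψ M₁ M₂ K kc kd)) → ∀ c d : V₀, c ≠ 1 → d ≠ 1 →
  MNE ℓ E₀ B D x₁ x₂ c d +
    ((PPE ℓ E₀ D.U D.fx c d F₁₃ (F12 ℓ x₁ x₂ Ψ M₁ M₂ K c d) : ℚ) : ℂ) ∈ RM M

/-- PPC: continuity of the exact local part. -/
def PpcStmt : Prop := ∀ (ℓ : ℕ) [Fact ℓ.Prime] (V₀ : Type) [CommGroup V₀] [Finite V₀]
  (E₀ : Subgroup (MulAut V₀)) (n : ℕ) (c d : V₀) (fx : Subgroup V₀ → MulAut V₀ → ℚ)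
  (F₁₃ F₁₂ : Set (SO.SS n V₀) → ℚ), ∃ K₀ : ℕ, ∀ K, K₀ ≤ K → ∀ U U' : Subgroup V₀ → ℚ,
  (∀ W, W ≠ ⊥ → ∃ q ∈ SOR.Rl ℓ, U W = 1 + ℓ * q) →
  (∀ W, W ≠ ⊥ → ∃ q ∈ SOR.Rl ℓ, U' W = 1 + ℓ * q) →
  (∀ W, W ≠ ⊥ → ∃ q ∈ SOR.Rl ℓ, U W - U' W = ℓ ^ K * q) →
  ∀ fx' : Subgroup V₀ → MulAut V₀ → ℚ,
  (∀ W, W ≠ ⊥ → ∀ g ∈ E₀, mp g W = W → fx' W g = fx W g) →
  PPE ℓ E₀ U fx c d F₁₃ F₁₂ - PPE ℓ E₀ U' fx' c d F₁₃ F₁₂ ∈ SOR.Rl ℓ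

/-! ## Block S (helper98): existence of `Rs` -/

/-- RSX: existence of the local data (section 2). -/
def RsxStmt : Prop := ∀ (ℓ : ℕ) [Fact ℓ.Prime] (M : Ideal (integralClosure ℤ ℂ)) [M.IsMaximal],
  (ℓ : integralClosure ℤ ℂ) ∈ M → ℓ ≠ 2 → ∀ (V₀ G : Type) [CommGroup V₀] [Finite V₀] [Group G]
  [Finite G] (E₀ : Subgroup (MulAut V₀)), Fq ℓ V₀ E₀ → ∀ B : Bk (FF M) V₀ G, Sd ℓ M E₀ B →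
  ∀ xc : Subgroup V₀ → G → ℂ, Xc ℓ E₀ B xc → ∃ D : Rd V₀ G, Rs ℓ E₀ B D ∧
    (∀ W, Rw E₀ W → D.U W = B.U W) ∧
    (∀ W ∈ RL ℓ E₀, ∀ χ, Exc ℓ E₀ B xc W χ →
      (D.U W : ℂ) = Nat.card (B.C W) * B.D ⊤ / (Nat.card (B.C ⊤) * χ 1) ∨
      (D.U W : ℂ) = -(Nat.card (B.C W) * B.D ⊤ / (Nat.card (B.C ⊤) * χ 1))) ∧
    (∀ W ∈ RL ℓ E₀, ∀ g ∈ St E₀ W, D.fx W g = nS E₀ W) ∧
    ∀ W ∈ RL ℓ E₀, ∀ g ∈ E₀, mp g W = W → g ∉ St E₀ W →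
      ({χ | χ ∈ Ch B W ∧ ac B g χ = χ}.ncard : ℚ) = D.fx W g + oW E₀ W g

/-! ## Block L (helper57): comparison of two data, linear algebra -/

/-- CME: comparison of two data (section 7). -/
def CmeStmt : Prop := ∀ (ℓ : ℕ) [Fact ℓ.Prime] (M : Ideal (integralClosure ℤ ℂ)) [M.IsMaximal],
  (ℓ : integralClosure ℤ ℂ) ∈ M → 5 ≤ ℓ → ∀ (V₀ G : Type) [CommGroup V₀] [Finite V₀] [Group G]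
  [Finite G] (E₀ : Subgroup (MulAut V₀)), Fq ℓ V₀ E₀ → ∀ B : Bk (FF M) V₀ G, Sd ℓ M E₀ B →
  ∀ D : Rd V₀ G, Rs ℓ E₀ B D → ∀ r : ℕ, 0 < r → (∃ m, PE ℓ (ℓ ^ r) m G) → ∃ K : ℕ,
  ∀ (G' : Type) [Group G'] [Finite G'] (B' : Bk (FF M) V₀ G') (D' : Rd V₀ G'), Sd ℓ M E₀ B' →
  Rs ℓ E₀ B' D' → (∃ m, PE ℓ (ℓ ^ r) m G') →
  (∀ W, W ≠ ⊥ → ∃ q ∈ SOR.Rl ℓ, D.U W - D'.U W = ℓ ^ K * q) →
  (∀ W, W ≠ ⊥ → ∀ g ∈ E₀, mp g W = W → D'.fx W g = D.fx W g) →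
  ((ℓ ^ 2 : ℕ) : ℤ) ∣ ((IrrE M B.e).ncard : ℤ) - (IrrE M B'.e).ncard

/-! ## Block C (helper43): fixed characters, comparison group, final deduction -/

/-- LME: the numbers of modular characters of the local blocks (8.1). -/
def LmeStmt : Prop := ∀ (ℓ : ℕ) [Fact ℓ.Prime] (M : Ideal (integralClosure ℤ ℂ)) [M.IsMaximal],
  (ℓ : integralClosure ℤ ℂ) ∈ M → ℓ ≠ 2 → ∀ (V₀ G : Type) [CommGroup V₀] [Finite V₀] [Group G]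
  [Finite G] (E₀ : Subgroup (MulAut V₀)), Fq ℓ V₀ E₀ → ∀ B : Bk (FF M) V₀ G, Sb ℓ M E₀ B →
  (∀ v, v ≠ 1 → ln (fun t : B.C (Subgroup.zpowers v) => B.b (Subgroup.zpowers v) t) =
    Lam B (Es E₀ v)) ∧ Lam B E₀ = lT B ∧
  ∀ E₁ ≤ E₀, IsCyclic E₁ → Lam B E₁ = Nat.card E₁

/-- FXE: equal numbers of modular characters imply equal numbers of fixed characters (8.3). -/
def FxeStmt : Prop := ∀ (ℓ : ℕ) [Fact ℓ.Prime] (M : Ideal (integralClosure ℤ ℂ)) [M.IsMaximal],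
  (ℓ : integralClosure ℤ ℂ) ∈ M → ℓ ≠ 2 → ∀ (V₀ G G' : Type) [CommGroup V₀] [Finite V₀] [Group G]
  [Finite G] [Group G'] [Finite G'] (E₀ : Subgroup (MulAut V₀)), Fq ℓ V₀ E₀ →
  ∀ (B : Bk (FF M) V₀ G) (B' : Bk (FF M) V₀ G'), Sb ℓ M E₀ B → Sb ℓ M E₀ B' →
  (∀ E₁ ≤ E₀, Lam B E₁ = Lam B' E₁) → ∀ W : Subgroup V₀, Nat.card W = ℓ → ∀ g ∈ E₀, mp g W = W →
  {χ | χ ∈ Ch B W ∧ ac B g χ = χ}.ncard = {χ | χ ∈ Ch B' W ∧ ac B' g χ = χ}.ncard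

/-- CGE: the comparison datum (8.4). -/
def CgeStmt : Prop := ∀ (ℓ : ℕ) [Fact ℓ.Prime] (M : Ideal (integralClosure ℤ ℂ)) [M.IsMaximal],
  (ℓ : integralClosure ℤ ℂ) ∈ M → ℓ ≠ 2 → ∀ (V₀ G : Type) [CommGroup V₀] [Finite V₀] [Group G]
  [Finite G] (E₀ : Subgroup (MulAut V₀)), Fq ℓ V₀ E₀ → ∀ B : Bk (FF M) V₀ G, Sd ℓ M E₀ B →
  ∀ (K : ℕ) (U : Subgroup V₀ → ℚ), U ⊤ = 1 →
  (∀ W, W ≠ ⊥ → ∃ q ∈ SOR.Rl ℓ, U W = 1 + ℓ * q) →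
  (∀ W, W ≠ ⊥ → ∀ σ ∈ E₀, U (mp σ W) = U W) →
  ∃ (G' : Type) (_ : Group G') (_ : Finite G') (B' : Bk (FF M) V₀ G') (xc : Subgroup V₀ → G' → ℂ)
    (κ : Subgroup V₀ → ℕ), Sd ℓ M E₀ B' ∧
    (∀ r, 0 < r → (∃ m, PE ℓ (ℓ ^ r) m G) → ∃ m, PE ℓ (ℓ ^ r) m G') ∧
    (∀ E₁ ≤ E₀, Lam B E₁ = Lam B' E₁) ∧ ln B'.e = lT B' ∧ Xc ℓ E₀ B' xc ∧
    (∀ W, Rw E₀ W → B'.U W = κ W) ∧
    (∀ W ∈ RL ℓ E₀, ∃ χ, Exc ℓ E₀ B' xc W χ ∧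
      Nat.card (B'.C W) * B'.D ⊤ / (Nat.card (B'.C ⊤) * χ 1) = (κ W : ℂ)) ∧
    ∀ W, W ≠ ⊥ → ∃ q ∈ SOR.Rl ℓ, U W - κ W = ℓ ^ K * q

/-- XCE: the choice of the characters (8.5), from CGE for `U = 1` and FXE. -/
def XceStmt : Prop := ∀ (ℓ : ℕ) [Fact ℓ.Prime] (M : Ideal (integralClosure ℤ ℂ)) [M.IsMaximal],
  (ℓ : integralClosure ℤ ℂ) ∈ M → ℓ ≠ 2 → ∀ (V₀ G : Type) [CommGroup V₀] [Finite V₀] [Group G]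
  [Finite G] (E₀ : Subgroup (MulAut V₀)), Fq ℓ V₀ E₀ → ∀ B : Bk (FF M) V₀ G, Sd ℓ M E₀ B →
  ∃ xc : Subgroup V₀ → G → ℂ, Xc ℓ E₀ B xc

/-- KAE: the number of modular characters modulo `ℓ ^ 2`, from RSX, CME, LME, FXE, CGE, XCE and KLD. -/
def KaeStmt : Prop := ∀ (ℓ : ℕ) [Fact ℓ.Prime] (M : Ideal (integralClosure ℤ ℂ)) [M.IsMaximal],
  (ℓ : integralClosure ℤ ℂ) ∈ M → 5 ≤ ℓ → ∀ (V₀ G : Type) [CommGroup V₀] [Finite V₀] [Group G]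
  [Finite G] (E₀ : Subgroup (MulAut V₀)), Fq ℓ V₀ E₀ → ∀ B : Bk (FF M) V₀ G, Sd ℓ M E₀ B →
  ((ℓ ^ 2 : ℕ) : ℤ) ∣ (ln B.e : ℤ) - lT B

/-- S2F: the theorem for block idempotents. -/
def S2fStmt : Prop := ∀ (ℓ : ℕ) [Fact ℓ.Prime] (M : Ideal (integralClosure ℤ ℂ)) [M.IsMaximal],
  (ℓ : integralClosure ℤ ℂ) ∈ M → 5 ≤ ℓ → ∀ (G : Type) [Group G] [Finite G] (e : G → FF M)
  (V : Subgroup G) (γ : G → FF M), Ld ℓ e V γ → (∀ v ∈ V, v ^ ℓ = 1) → Nat.card V = ℓ ^ 2 →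
  YY ℓ ⊤ e = 0

/-- FNA: the final theorem.  `D` need not be abelian (`D/O_ℓ(G)` is). -/
def FnaStmt : Prop := ∀ (ℓ : ℕ) [Fact ℓ.Prime] (M : Ideal (integralClosure ℤ ℂ)) [M.IsMaximal],
  (ℓ : integralClosure ℤ ℂ) ∈ M → 5 ≤ ℓ → ∀ (G : Type) [Group G] [Finite G],
  opCore ℓ G ≤ Subgroup.center G → ∀ χ ∈ Irr G, ∀ D : Subgroup G, ML.IsDef ℓ M χ D →
  Nat.card D = ℓ ^ 2 * Nat.card (opCore ℓ G) → altSum ℓ M χ = 0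

end Pool.Agent.PP.SE
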