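import Pool.Agent.ASE.Stmts3
import Pool.Agent.ASE.StmtsX

/-!
# Squad ASE, statements 5: labels, frames, types, deviations, the relation (section 5 of `AWC_SOE.md`)

Complete proofs in the docstrings.  `n = nS E₀ a`, `κ = c σ(d)`, `κ_a = pr a κ`, `F = F12 ℓ x₁ x₂ Ψ M₁ M₂ K kc kd`.
Notation in the docstrings: `R = RL ℓ E₀`; an identity or a number modulo `RM` means modulo `RM M`.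
-/

open scoped BigOperators

noncomputable section

namespace Pool.Agent.PP.SE

open Pool.Agent.Helper51_AWC Pool.Agent.Helper79_WRA Pool.Agent.PP Pool.Agent.PP.KF
open Pool.Agent.PP.K9 Pool.Agent.PP.K9.H97 Pool.Agent.PP.H75 Pool.Agent.PP.T3 Pool.Agent.PP.SO
open Pool.Agent.PP.SD

attribute [local instance] Ideal.Quotient.field

/-! ## 0. Definitions -/

section defs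

variable {V₀ G : Type} [CommGroup V₀] [Group G] {M : Ideal (integralClosure ℤ ℂ)} [M.IsMaximal]

/-- the sum over all `L` of the two kinds of weighted numbers, for two labels -/
def T2 {n : ℕ} (B : Bk (FF M) V₀ G) (m : ℕ) (α β : Subgroup V₀ → G → ℂ)
    (F₁₃ F₁₂ : Set (SO.SS n V₀) → ℚ) : ℂ :=
  ∑ᶠ L : Set (SO.SS n V₀), (((mob F₁₃ L : ℚ) : ℂ) * X13 B m α β L +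
    ((mob F₁₂ L : ℚ) : ℂ) * X12 B m α β L)

/-- the sum over the `L` with `pL ≠ ⊥`, `qL ≠ ⊥` -/
def X2N {n : ℕ} (B : Bk (FF M) V₀ G) (m : ℕ) (α β : Subgroup V₀ → G → ℂ)
    (F : Set (SO.SS n V₀) → ℚ) : ℂ :=
  ∑ᶠ L ∈ {L : Set (SO.SS n V₀) | pL L ≠ ⊥ ∧ qL L ≠ ⊥}, ((mob F L : ℚ) : ℂ) * X12 B m α β L

/-- a frame: `w` is a function on the regular elements of the centraliser of `P ∋ κ` -/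
structure Frm (ℓ : ℕ) (B : Bk (FF M) V₀ G) (P : Subgroup V₀) (κ : V₀) (w : G → ℂ) : Prop where
  mem : κ ∈ P
  sup : ∀ s, s ∉ B.C P → w s = 0
  reg : ∀ s, ¬ Reg ℓ s → w s = 0
  cls : ∀ z ∈ B.C P, ∀ s, w (z * s * z⁻¹) = w s
  int : ∀ s ∈ B.C P, (Nat.card P : ℂ) * (Nat.card (B.C P) * w s) /
    Nat.card (B.C P ⊓ Cu s : Subgroup G) ∈ RM M

/-- the total sum for two frames -/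
def SFr {n : ℕ} (B : Bk (FF M) V₀ G) (m : ℕ) (P : Subgroup V₀) (κ : V₀) (w : G → ℂ)
    (P' : Subgroup V₀) (κ' : V₀) (w' : G → ℂ) (F₁₃ F₁₂ : Set (SO.SS n V₀) → ℚ) : ℂ :=
  ∑ᶠ s : G × G, w s.1 * w' s.2 * ((∑ᶠ z : XX (B.i κ * s.1) (B.i κ' * s.2),
    (F₁₃ (t13 n m B.i P P' (B.i κ * s.1) z.1.1 z.1.2.1 z.1.2.2) +
      F₁₂ (t12 n m B.i P P' z.1.1 z.1.2.1 z.1.2.2)) : ℚ) : ℂ)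

open Classical in
/-- `α` is a label with the `ℓ`-part `κ`: a finite sum of frames. -/
def Lab (ℓ : ℕ) (B : Bk (FF M) V₀ G) (κ : V₀) (α : Subgroup V₀ → G → ℂ) : Prop :=
  ∃ (k : ℕ) (P : Fin k → Subgroup V₀) (w : Fin k → G → ℂ), (∀ j, Frm ℓ B (P j) κ (w j)) ∧
    ∀ (W : Subgroup V₀) (N : G → ℂ), (∀ z ∈ B.C W, ∀ g, N (z * g * z⁻¹) = N g) →
      ∑ j, (if W ≤ P j then ∑ᶠ s : G, w j s * N (B.i κ * s) else 0) =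
        (Nat.card (B.C W) : ℂ)⁻¹ * ∑ᶠ g : G, α W g * N g

/-- the sum over the `L` with `pL L = a` and `σ q = p` -/
def FWS {n : ℕ} (B : Bk (FF M) V₀ G) (m : ℕ) (σ : MulAut V₀) (a : Subgroup V₀)
    (F : Set (SO.SS n V₀) → ℚ) (z : G → ℂ) : ℂ :=
  ∑ᶠ L ∈ {L : Set (SO.SS n V₀) | pL L = a ∧ ∀ s ∈ L, σ s.2.2.2 = s.2.2.1},
    ((mob F L : ℚ) : ℂ) * HX B m a z L

/-- the term of `σ` for the elements `fm` -/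
def T0S {n : ℕ} (ℓ : ℕ) (E₀ : Subgroup (MulAut V₀)) (B : Bk (FF M) V₀ G) (D : Rd V₀ G) (m : ℕ)
    (c d : V₀) (σ : MulAut V₀) (F : Set (SO.SS n V₀) → ℚ) : ℂ :=
  ∑ᶠ L ∈ {L : Set (SO.SS n V₀) | pL L ≠ ⊥ ∧ ∀ s ∈ L, σ s.2.2.2 = s.2.2.1},
    ((cS D.U c d σ (pL L) * mob F L : ℚ) : ℂ) *
      HX B m (pL L) (fm ℓ E₀ B D (pL L) (c * σ d)) L

/-- the exact local part for `σ` -/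
def P12S {n : ℕ} (ℓ : ℕ) (E₀ : Subgroup (MulAut V₀)) (U : Subgroup V₀ → ℚ)
    (fx : Subgroup V₀ → MulAut V₀ → ℚ) (c d : V₀) (σ : MulAut V₀)
    (F : Set (SO.SS n V₀) → ℚ) : ℚ :=
  ∑ᶠ L ∈ {L : Set (SO.SS n V₀) | pL L ≠ ⊥ ∧ (∀ s ∈ L, σ s.2.2.2 = s.2.2.1) ∧
      aL (c * σ d) L ≠ ⊥},
    mob F L * (cS U c d σ (pL L) * (ux U (aL (c * σ d) L) (c * σ d) *
      (N12 E₀ (c * σ d) L + M12 ℓ E₀ fx (c * σ d) L)))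

/-- the deviation of `HK` at `a` -/
def DAS {n : ℕ} (ℓ : ℕ) (E₀ : Subgroup (MulAut V₀)) (B : Bk (FF M) V₀ G) (D : Rd V₀ G)
    (c d : V₀) (σ : MulAut V₀) (a : Subgroup V₀) (F : Set (SO.SS n V₀) → ℚ) : ℂ :=
  ∑ᶠ L ∈ {L : Set (SO.SS n V₀) | aL (c * σ d) L = a ∧ ∀ s ∈ L, σ s.2.2.2 = s.2.2.1},
    ((cS D.U c d σ (pL L) * mob F L : ℚ) : ℂ) * ∑ᶠ w ∈ QL E₀ (LT (TL (c * σ d) L)),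
      wtE ℓ E₀ B D a (pr ℓ E₀ a (c * σ d)) w.1 w.2

/-- `Λ_a(κ; ζ)` -/
def LW (ℓ : ℕ) (E₀ : Subgroup (MulAut V₀)) (B : Bk (FF M) V₀ G) (D : Rd V₀ G)
    (a : Subgroup V₀) (κ ζ : V₀) : ℂ :=
  ∑ᶠ τ ∈ {τ : MulAut V₀ | τ ∈ E₀ ∧ τ ∉ St E₀ a}, wtE ℓ E₀ B D a κ τ (τ⁻¹ ζ * ζ⁻¹)

/-- the sum of the weights of the pairs `(τ, y)` with `τ ∈ St E₀ a` -/
def SE1 (B : Bk (FF M) V₀ G) (D : Rd V₀ G) (a : Subgroup V₀) (κ : V₀) : ℂ :=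
  ∑ᶠ χ ∈ Ch B a, nu B χ κ * cv (D.et a) χ

end defs

section vals

variable {V₀ : Type} [CommGroup V₀] {n : ℕ}

/-- the value of the alternating sum of `F` for `(τ, τ⁻¹ ζ ζ⁻¹)` -/
def BrF (ℓ : ℕ) (x₁ x₂ : V₀ → ℤ) (kc kd κ : V₀) (σ : MulAut V₀) (ζ : V₀) : ℚ :=
  -(12 / (ℓ : ℚ) ^ 2) * (((x₁ kc⁻¹ - x₁ κ⁻¹) * x₂ (σ⁻¹ ζ) +
    (x₂ kd⁻¹ - x₂ (σ⁻¹ κ)⁻¹) * x₁ ζ : ℤ) : ℚ)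

/-- the type for `(τ, y)` at `a` and `κ ∈ a`, `p ∈ a` -/
def TA (σ : MulAut V₀) (a : Subgroup V₀) (κ : V₀) (τ : MulAut V₀) (y : V₀) :
    Set (SO.SS n V₀) :=
  {s | s.2.2.1 ∈ a ∧ σ s.2.2.2 = s.2.2.1 ∧
    τ (κ ^ (s.2.1 : ℕ) * s.2.2.1 * y ^ (s.1 : ℕ)) = κ ^ (s.2.1 : ℕ) * s.2.2.1}

/-- the type for `(τ, y)` at `a`, `κ ^ k p ∈ a` -/
def TD (σ : MulAut V₀) (a : Subgroup V₀) (κ : V₀) (τ : MulAut V₀) (y : V₀) :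
    Set (SO.SS n V₀) :=
  {s | κ ^ (s.2.1 : ℕ) * s.2.2.1 ∈ a ∧ σ s.2.2.2 = s.2.2.1 ∧
    τ (κ ^ (s.2.1 : ℕ) * s.2.2.1 * y ^ (s.1 : ℕ)) = κ ^ (s.2.1 : ℕ) * s.2.2.1}

/-- the part with `p = 1` -/
def P1 (T : Set (SO.SS n V₀)) : Set (SO.SS n V₀) := {s | s ∈ T ∧ s.2.2.1 = 1}

/-- the part with `κ ^ k p = 1` -/
def A1 (κ : V₀) (T : Set (SO.SS n V₀)) : Set (SO.SS n V₀) :=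
  {s | s ∈ T ∧ κ ^ (s.2.1 : ℕ) * s.2.2.1 = 1}

/-- the alternating sum -/
def Br (F : Set (SO.SS n V₀) → ℚ) (κ : V₀) (T : Set (SO.SS n V₀)) : ℚ :=
  F T - F (P1 T) - F (A1 κ T) + F (P1 (A1 κ T))

/-- the sum over the `L ⊆ T` with `aL = a`, with the coefficients `cS` -/
def GD (U : Subgroup V₀ → ℚ) (c d : V₀) (σ : MulAut V₀) (a : Subgroup V₀)
    (F : Set (SO.SS n V₀) → ℚ) (T : Set (SO.SS n V₀)) : ℚ :=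
  ∑ᶠ L ∈ {L : Set (SO.SS n V₀) | L ⊆ T ∧ aL (c * σ d) L = a}, cS U c d σ (pL L) * mob F L

end vals

/-! ## 1. Labels -/

/-- FRI: integrality for two frames.

Proof.  As `LAC` (`Helper10_ASO/LAC.lean`) / `LAD`.  For `s ∈ C P`, `t ∈ C P'` regular the inner sum is `|P| |P'| z(s, t)`, `z ∈ Rl ℓ` (`Rel`), and
`z(v s v⁻¹, v' t v'⁻¹) = z(s, t)` for `v ∈ C P`, `v' ∈ C P'` (the bijection `(x, y, u) ↦ (v x v⁻¹, v y v⁻¹, v u v'⁻¹)` of the sets `XX` does not change the types).  So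
`SFr = ∑_s ∑_t w(s) w'(t) |P| |P'| z(s, t)` is the sum over the classes of `C P`, `C P'` of
`(|P| |C P| w(s)/|C P ∩ Cu s|) (|P'| |C P'| w'(t)/|C P' ∩ Cu t|) z(s, t) ∈ RM M`. -/
def FriStmt : Prop := ∀ (ℓ : ℕ) [Fact ℓ.Prime] (M : Ideal (integralClosure ℤ ℂ)) [M.IsMaximal],
  (ℓ : integralClosure ℤ ℂ) ∈ M → ∀ (V₀ G : Type) [CommGroup V₀] [Finite V₀] [Group G]
  [Finite G] (B : Bk (FF M) V₀ G) (n m : ℕ) (P P' : Subgroup V₀) (κ κ' : V₀) (w w' : G → ℂ),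
  Frm ℓ B P κ w → Frm ℓ B P' κ' w' → ∀ F₁₃ F₁₂ : Set (SO.SS n V₀) → ℚ,
  Rel ℓ n m B.i κ κ' F₁₃ F₁₂ → SFr B m P κ w P' κ' w' F₁₃ F₁₂ ∈ RM M

open Classical in
/-- MBS: Möbius inversion for two frames.

Proof.  As in `LBS` (`Helper62_ASO/LBS.lean`): `F(τ) = ∑_(L ⊆ τ) mob F L` (MBI), and `L ⊆ t13 ..` iff `pL L ≤ P`, `qL L ≤ P'` and all the conditions `c13` hold;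
in the same way for `t12`. -/
def MbsStmt : Prop := ∀ (M : Ideal (integralClosure ℤ ℂ)) [M.IsMaximal]
  (V₀ G : Type) [CommGroup V₀] [Finite V₀] [Group G]
  [Finite G] (B : Bk (FF M) V₀ G) (n m : ℕ) (P P' : Subgroup V₀) (κ κ' : V₀) (w w' : G → ℂ)
  (F₁₃ F₁₂ : Set (SO.SS n V₀) → ℚ),
  SFr B m P κ w P' κ' w' F₁₃ F₁₂ = ∑ᶠ L : Set (SO.SS n V₀), if pL L ≤ P ∧ qL L ≤ P' then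
    (((mob F₁₃ L : ℚ) : ℂ) * ∑ᶠ s : G × G, w s.1 * w' s.2 *
        {z : XX (B.i κ * s.1) (B.i κ' * s.2) | ∀ t ∈ L, c13 m B.i (B.i κ * s.1) z.1.1 z.1.2.1
          z.1.2.2 t.1 t.2.1 t.2.2.1 t.2.2.2}.ncard +
      ((mob F₁₂ L : ℚ) : ℂ) * ∑ᶠ s : G × G, w s.1 * w' s.2 *
        {z : XX (B.i κ * s.1) (B.i κ' * s.2) | ∀ t ∈ L, c12 m B.i z.1.1 z.1.2.1
          z.1.2.2 t.1 t.2.1 t.2.2.1 t.2.2.2}.ncard) else 0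

/-- LT2: the total sum for two labels is integral.

Proof.  Let `(P_j, w_j)`, `(P'_j, w'_j)` be the frames.  By MBS the sum over `j`, `j'` of the `SFr` is the sum over `L` (`W = pL L`, `W' = qL L`) of `mob F₁₃ L` times
`∑_(j : W ≤ P_j) ∑_(j' : W' ≤ P'_j') ∑_(s, t) w_j s w'_j' t N(i(κ) s, i(κ') t)`, `N(g, h)` the number of the `z ∈ XX g h` with the conditions `c13`.  For fixed `h`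
`g ↦ N(g, h)` is not invariant, but `N(v g v⁻¹, v' h v'⁻¹) = N(g, h)` for `v ∈ C W`, `v' ∈ C W'` (`v` commutes with `i(p)`; `v = 1` or `v' = 1` is allowed:
`(x, y, u) ↦ (v x v⁻¹, v y v⁻¹, v u v'⁻¹)`), so `Lab` can be applied for `g` with `h` fixed, and then for `h`: the result is
`(|C W| |C W'|)⁻¹ ∑ α W g β W' h N(g, h) = X13 B m α β L`.  The same for `c12`.  FRI. -/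
def Lt2Stmt : Prop := ∀ (ℓ : ℕ) [Fact ℓ.Prime] (M : Ideal (integralClosure ℤ ℂ)) [M.IsMaximal],
  (ℓ : integralClosure ℤ ℂ) ∈ M → ∀ (V₀ G : Type) [CommGroup V₀] [Finite V₀] [Group G]
  [Finite G] (B : Bk (FF M) V₀ G) (n m : ℕ) (κ κ' : V₀) (α β : Subgroup V₀ → G → ℂ),
  Lab ℓ B κ α → Lab ℓ B κ' β → ∀ F₁₃ F₁₂ : Set (SO.SS n V₀) → ℚ,
  Rel ℓ n m B.i κ κ' F₁₃ F₁₂ → T2 B m α β F₁₃ F₁₂ ∈ RM M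

/-- LMN: the labels `mn`.

Proof.  Two frames: `(⊤, |C ⊤|⁻¹ bh ⊤)` and `(⟨c⟩, w)`, `w s = |C ⟨c⟩|⁻¹ (k bh ⟨c⟩ s - |C ⊤|⁻¹ ∑_(z ∈ C ⟨c⟩) bh ⊤ (z⁻¹ s z))`, `k = kE E₀ c`: these are `k` times the functions
`wtD`; `int` is `SD.CndStmt`.  The sum for `W`, `N` (as in `LBS`): if `W ≤ ⟨c⟩` both frames occur, `N` is invariant under `C ⟨c⟩ ≤ C W`, so the terms with `bh ⊤` cancel and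
`k |C ⟨c⟩|⁻¹ ∑_s bh ⟨c⟩ s N(i(c) s)` remains; if not, only the first one, `W ⊔ ⟨c⟩ = ⊤` (`W ≠ ⊥`).  In both cases it is `(k or 1) |C(W ⊔ ⟨c⟩)|⁻¹ ∑_s bh (W ⊔ ⟨c⟩) s N(i(c) s)`, and
this is `|C W|⁻¹ ∑_g mnl c W g N(g)` (definition of `fc`, invariance of `N`). -/
def LmnStmt : Prop := ∀ (ℓ : ℕ) [Fact ℓ.Prime] (M : Ideal (integralClosure ℤ ℂ)) [M.IsMaximal],
  (ℓ : integralClosure ℤ ℂ) ∈ M → ℓ ≠ 2 → ∀ (V₀ G : Type) [CommGroup V₀] [Finite V₀] [Group G]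
  [Finite G] (E₀ : Subgroup (MulAut V₀)), Fq ℓ V₀ E₀ → ∀ B : Bk (FF M) V₀ G, Sd ℓ M E₀ B →
  ∀ c : V₀, c ≠ 1 → Lab ℓ B c (mnl E₀ B c)

/-- LET: the labels `et`.

Proof.  One frame `(a, |C a|⁻¹ et a)`: `Rs.e1`, `e2`, `e5` (`|a| = ℓ`).  `W = a`: clear (`g = i(κ) s`).  `W = ⊥`: `N` is a class function of `G = C ⊥`:
`|G|⁻¹ ∑_g |C a|⁻¹ ∑_z tk κ et (z⁻¹ g z) N(g) = |C a|⁻¹ ∑_g tk κ et (g) N(g)`.  If `W` is not contained in `a` (`|a| = ℓ`: `W ≤ a` iff `W = ⊥` or `W = a`)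
both sides are `0`. -/
def LetStmt : Prop := ∀ (ℓ : ℕ) [Fact ℓ.Prime] (M : Ideal (integralClosure ℤ ℂ)) [M.IsMaximal],
  (ℓ : integralClosure ℤ ℂ) ∈ M → ℓ ≠ 2 → ∀ (V₀ G : Type) [CommGroup V₀] [Finite V₀] [Group G]
  [Finite G] (E₀ : Subgroup (MulAut V₀)), Fq ℓ V₀ E₀ → ∀ B : Bk (FF M) V₀ G, Sb ℓ M E₀ B →
  ∀ D : Rd V₀ G, Rs ℓ E₀ B D → ∀ a ∈ RL ℓ E₀, ∀ κ ∈ a, Lab ℓ B κ (etl B D a κ)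

/-- LFM: the labels at `W ≠ ⊥`.

Proof.  (1) `W ≠ ⊥`, `c ≠ 1`: `W ≤ ⟨c⟩` iff `W = ⟨c⟩` (order `ℓ`).  `c ∈ W`: `W = ⟨c⟩` (`kE E₀ c = nS E₀ ⟨c⟩`: an element of `E₀` fixes `c` iff it fixes `⟨c⟩` pointwise) or
`W = ⊤` (`nS = 1`).  `c ∉ W`: `fm W c = fc W c - tk (pr c) (et W)`, and `et W = 0` if `W ∉ R` (PRB (7), `f1`).  (2) the definition of `etl`. -/
def LfmStmt : Prop := ∀ (ℓ : ℕ) [Fact ℓ.Prime] (M : Ideal (integralClosure ℤ ℂ)) [M.IsMaximal],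
  (ℓ : integralClosure ℤ ℂ) ∈ M → ∀ (V₀ G : Type) [CommGroup V₀] [Finite V₀] [Group G]
  [Finite G] (E₀ : Subgroup (MulAut V₀)), Fq ℓ V₀ E₀ → ∀ B : Bk (FF M) V₀ G, Sb ℓ M E₀ B →
  ∀ D : Rd V₀ G, Rs ℓ E₀ B D → ∀ c : V₀, c ≠ 1 → ∀ W : Subgroup V₀, W ≠ ⊥ →
  (W ∈ RL ℓ E₀ ∧ c ∉ W → ∀ g, mnl E₀ B c W g =
    fm ℓ E₀ B D W c g + tk B (pr ℓ E₀ W c) (D.et W) g) ∧
  (¬ (W ∈ RL ℓ E₀ ∧ c ∉ W) → ∀ g, mnl E₀ B c W g = fm ℓ E₀ B D W c g) ∧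
  (∀ a κ g, (W = a → etl B D a κ W g = tk B κ (D.et a) g) ∧ (W ≠ a → etl B D a κ W g = 0))

/-! ## 2. Sums without conditions -/

/-- XEM: the sums without conditions.

Proof.  As WZE (`ASO/Stmts4`): Frobenius, the number of the `(x, y)` with `[x, y] = g` is `∑_(χ ∈ Irr G) (|G|/χ(1)) χ(g)`.  (1) `|G|⁻¹ ∑_g z(g) #{..} = ∑_χ cv z χ`.
(2) `pL ∅ = ⊥`, `C ⊥ = G`: `|G|⁻² ∑ α(g) β(h) #{(x, y, u) : [x, y] = g u h u⁻¹}`, substitute `h ↦ u⁻¹ h u`, the convolution of two class functions has the central character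
`cv α cv β`.  (3) `f` a function on `C a`: `|C a|⁻¹ ∑_g f(g) N(g) = |G|⁻¹ ∑_g (|C a|⁻¹ ∑_z f(z⁻¹ g z)) N(g)` for a class function `N`, and (1).
(4) `χ ∈ Irr G` not in the block: `cv (mnl c ⊥) χ = k cv (fc ⊥ c) χ = 0` (WZE (a)).  (5) `κ ≠ 1`: `∑_s et(s) χ(i(κ) s)`, `C a = Cu (i κ)`, `a = ⟨κ⟩`; `et` is in the ideal of `b a`
(`Cz`): `et(s) = ∑_r et(s r⁻¹) b^(r)`.., and `∑_r b^(r) χ(i(κ) s r) = 0` for regular `s` (`T3.SmgStmt`, as in `HLNK`, `WZE (a)`, for all regular `s`, not only `s = 1`: the class function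
`s ↦ χ(i(κ) s)` on the regular elements of `C a` is orthogonal to the block `b a`: `K9` second main theorem). -/
def XemStmt : Prop := ∀ (ℓ : ℕ) [Fact ℓ.Prime] (M : Ideal (integralClosure ℤ ℂ)) [M.IsMaximal],
  (ℓ : integralClosure ℤ ℂ) ∈ M → ℓ ≠ 2 → ∀ (V₀ G : Type) [CommGroup V₀] [Finite V₀] [Group G]
  [Finite G] (E₀ : Subgroup (MulAut V₀)), Fq ℓ V₀ E₀ → ∀ B : Bk (FF M) V₀ G, Sb ℓ M E₀ B →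
  ∀ D : Rd V₀ G, Rs ℓ E₀ B D →
  (∀ z : G → ℂ, (∀ x g, z (x * g * x⁻¹) = z g) →
    (Nat.card G : ℂ)⁻¹ * ∑ᶠ g, z g * {w : G × G | SO.kap w.1 w.2 = g}.ncard =
      ∑ᶠ χ ∈ Irr G, cv z χ) ∧
  (∀ (n m : ℕ) (α β : Subgroup V₀ → G → ℂ), (∀ x g, α ⊥ (x * g * x⁻¹) = α ⊥ g) →
    (∀ x g, β ⊥ (x * g * x⁻¹) = β ⊥ g) →
    X12 B m α β (∅ : Set (SO.SS n V₀)) = ∑ᶠ χ ∈ Irr G, cv (α ⊥) χ * cv (β ⊥) χ) ∧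
  (∀ a ∈ RL ℓ E₀, ∀ κ ∈ a, (∀ x g, etl B D a κ ⊥ (x * g * x⁻¹) = etl B D a κ ⊥ g) ∧
    (Nat.card (B.C a) : ℂ)⁻¹ * ∑ᶠ g, tk B κ (D.et a) g * {w : G × G | SO.kap w.1 w.2 = g}.ncard =
      ∑ᶠ χ ∈ Irr G, cv (etl B D a κ ⊥) χ) ∧
  (∀ c : V₀, c ≠ 1 → (∀ x g, mnl E₀ B c ⊥ (x * g * x⁻¹) = mnl E₀ B c ⊥ g) ∧
    ∀ χ ∈ Irr G, χ ∉ IrrE M B.e → cv (mnl E₀ B c ⊥) χ = 0) ∧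
  ∀ a ∈ RL ℓ E₀, ∀ κ ∈ a, κ ≠ 1 → ∀ χ ∈ Irr G, χ ∉ IrrE M B.e → cv (etl B D a κ ⊥) χ = 0

/-- ETV: the values of `et` at `⊥` (formula (6.4)).

Proof.  `cv (etl a κ ⊥) χ = (|G|/(|C a| χ(1))) ∑_g tk κ et (g) χ(g)`, and with CZB (2) and the multiplicities `m_ψ` of the `ψ ∈ Ch B a` in `χ` restricted to `C a`:
`∑_g tk κ et (g) χ(g) = ∑_ψ m_ψ nu ψ κ cv et ψ ψ(1)`.  `|G|/(ℓ² χ(1)) ∈ RM M` (heights, section 6.1, block R), `ℓ² ψ(1)/|C a| ∈ RM M` (`h1`), `cv et ψ/ℓ ∈ RM M` (`e4`),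
`nu ψ κ` is an algebraic integer. -/
def EtvStmt : Prop := ∀ (ℓ : ℕ) [Fact ℓ.Prime] (M : Ideal (integralClosure ℤ ℂ)) [M.IsMaximal],
  (ℓ : integralClosure ℤ ℂ) ∈ M → ℓ ≠ 2 → ∀ (V₀ G : Type) [CommGroup V₀] [Finite V₀] [Group G]
  [Finite G] (E₀ : Subgroup (MulAut V₀)), Fq ℓ V₀ E₀ → ∀ B : Bk (FF M) V₀ G, Sb ℓ M E₀ B →
  ∀ D : Rd V₀ G, Rs ℓ E₀ B D → ∀ a ∈ RL ℓ E₀, ∀ κ ∈ a, ∀ χ ∈ IrrE M B.e,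
  cv (etl B D a κ ⊥) χ / ℓ ∈ RM M

/-! ## 3. The values of `F12` -/

/-- FVA: the values of `F12`.

Proof.  The definition of `F12`, `FE`; `x₁ 1 = x₂ 1 = 0` (`Lf`, `ρ 1 = 0`), `n > 1`, `v ^ ℓ = 1`.  (1) is clear.  (2) e0, K0.  (3) e1; the set of the `(k, p, q)` with
`(0, k, p, q)` in the type is `{(k, κ₁^k, κ₂^k)}` (K1; there is an element with `k = 1`, as `n > 1`).  (4) e2, the set is `{(k, p₂^k, q₂^k)}` (K1).  (5) e2', K0 (`ℓ ∣ k`, `i = 0`: `p = 1`).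
(6) e3: for `i = 0` one has `ℓ ∣ i₀ k`, `ℓ ∣ k`, `p^k = 1` (K0); `ℓ²` times `v`, `12 Ψ` is in `Rl ℓ`.  All these types are free (`i = k = 0` gives `p = q = 1`). -/
def FvaStmt : Prop := ∀ (ℓ : ℕ) [Fact ℓ.Prime] (V₀ : Type) [CommGroup V₀] [Finite V₀],
  (∀ v : V₀, v ^ ℓ = 1) → ∀ (n : ℕ) (ρ₁ ρ₂ : V₀ → ZMod ℓ), (∃ r, 0 < r ∧ n = ℓ ^ r) → Hm ρ₁ →
  Hm ρ₂ → ∀ (x₁ x₂ : V₀ → ℤ), Lf ρ₁ x₁ → Lf ρ₂ x₂ →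
  ∀ (F₁₃ Ψ M₁ M₂ : Set (SO.SS n V₀) → ℚ) (K : Set (Fin n × V₀ × V₀) → ℚ),
  FE ℓ n ρ₁ ρ₂ x₁ x₂ F₁₃ Ψ M₁ M₂ K → ∀ kc kd : V₀,
  (∀ τ, ¬ Fre τ → F12 ℓ x₁ x₂ Ψ M₁ M₂ K kc kd τ = 0) ∧
  (∀ τ, Fre τ → (∀ s ∈ τ, ρ₁ s.2.2.1 = 0 ∧ ρ₂ s.2.2.2 = 0) →
    F12 ℓ x₁ x₂ Ψ M₁ M₂ K kc kd τ = (x₁ kc⁻¹ * x₂ kd⁻¹ : ℤ) / (ℓ : ℚ) ^ 2) ∧
  (∀ (κ₁ κ₂ : V₀) (I : Set (Fin n)), (∃ i ∈ I, (i : ℕ) = 0) →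
    F12 ℓ x₁ x₂ Ψ M₁ M₂ K kc kd {s | s.1 ∈ I ∧ s.2.2.1 = κ₁ ^ (s.2.1 : ℕ) ∧
      s.2.2.2 = κ₂ ^ (s.2.1 : ℕ)} = (x₁ kc⁻¹ * x₂ kd⁻¹ - x₁ κ₁ * x₂ κ₂ : ℤ) / (ℓ : ℚ) ^ 2) ∧
  (∀ p₁ q₁ p₂ q₂ : V₀, F12 ℓ x₁ x₂ Ψ M₁ M₂ K kc kd {s | s.2.2.1 = p₁ ^ (s.1 : ℕ) *
      p₂ ^ (s.2.1 : ℕ) ∧ s.2.2.2 = q₁ ^ (s.1 : ℕ) * q₂ ^ (s.2.1 : ℕ)} =
    (x₁ kc⁻¹ * x₂ kd⁻¹ - x₁ p₂ * x₂ q₂ - 12 * ((x₁ kc⁻¹ - x₁ p₂) * x₂ q₁ +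
      (x₂ kd⁻¹ - x₂ q₂) * x₁ p₁) : ℤ) / (ℓ : ℚ) ^ 2) ∧
  (∀ p₁ q₁ : V₀, F12 ℓ x₁ x₂ Ψ M₁ M₂ K kc kd {s | ℓ ∣ (s.2.1 : ℕ) ∧ s.2.2.1 = p₁ ^ (s.1 : ℕ) ∧
      s.2.2.2 = q₁ ^ (s.1 : ℕ)} =
    (x₁ kc⁻¹ * x₂ kd⁻¹ - 12 * (x₁ kc⁻¹ * x₂ q₁ + x₂ kd⁻¹ * x₁ p₁) : ℤ) / (ℓ : ℚ) ^ 2) ∧
  (∀ (p q : V₀) (i₀ : ℕ), ¬ ℓ ∣ i₀ → (ℓ : ℚ) ^ 2 * F12 ℓ x₁ x₂ Ψ M₁ M₂ K kc kd
    {s | s.2.2.1 = p ^ (s.2.1 : ℕ) ∧ s.2.2.2 = q ^ (s.2.1 : ℕ) ∧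
      (s.1 : ℕ) ≡ i₀ * (s.2.1 : ℕ) [MOD ℓ]} ∈ SOR.Rl ℓ)

/-- WTA: the sum of the weights with `τ ∈ St E₀ a`.

Proof.  HYE with `T = {(α, 0) : α ∈ a}`: `QL E₀ (LT T)` is the set of the `(τ, y)` with `τ ∈ St E₀ a`, and `HY B m a (tk κ et) T = |C a|⁻¹ ∑_g tk κ et (g) #{(x, y) : x, y ∈ C a, [x, y] = g}`
is `∑_(χ ∈ Ch B a) cv (tk κ et) χ` (Frobenius in `C a`, CZB).  (`PE ℓ n m G` for some `n`, `m`: `SO.PexStmt`.)  The last claim is `e6`, and the finite sum. -/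
def WtaStmt : Prop := ∀ (ℓ : ℕ) [Fact ℓ.Prime] (M : Ideal (integralClosure ℤ ℂ)) [M.IsMaximal],
  (ℓ : integralClosure ℤ ℂ) ∈ M → ℓ ≠ 2 → ∀ (V₀ G : Type) [CommGroup V₀] [Finite V₀] [Group G]
  [Finite G] (E₀ : Subgroup (MulAut V₀)), Fq ℓ V₀ E₀ → ∀ B : Bk (FF M) V₀ G, Sd ℓ M E₀ B →
  ∀ D : Rd V₀ G, Rs ℓ E₀ B D → ∀ a ∈ RL ℓ E₀, ∀ κ ∈ a,
  ∑ᶠ w ∈ {w : MulAut V₀ × V₀ | w.1 ∈ St E₀ a}, wtE ℓ E₀ B D a κ w.1 w.2 = SE1 B D a κ ∧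
  SE1 B D a κ / (ℓ : ℂ) ^ 2 ∈ RM M ∧ ∀ ζ, LW ℓ E₀ B D a κ ζ / ℓ ∈ RM M

/-- TYA: the types `TA`, `TD`.

Proof.  `a` of order `ℓ`, `τ ∈ E₀`; `τ (α y^i) = α` means `y^i = τ⁻¹ α α⁻¹`.
(1) `τ ∈ St E₀ a`, `α ∈ a`: the condition is `y^i = 1`.  `TA` and `TD` contain `(0, 0, p, σ⁻¹ p)` for `p ∈ a`.
(2) `τ ∉ St E₀ a`: `α ↦ τ⁻¹ α α⁻¹` is injective on `a`, a homomorphism to `V₀`.  If `ζ ∈ a`, `ζ ≠ 1`, `y = τ⁻¹ ζ ζ⁻¹` then the condition is `α = ζ^i`, i.e. `p = ζ^i κ^(-k)`, `q = σ⁻¹ p`.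
(3) if `y` is not of this form (`ζ ∈ a - 1`) then all `α = 1` in `TA`, `TD`: otherwise `y^i = τ⁻¹ α α⁻¹ ≠ 1`, so `ℓ ∤ i`, and `ζ = α^(i')`, `i i' ≡ 1` modulo `ℓ`, would have `y = τ⁻¹ ζ ζ⁻¹`. -/
def TyaStmt : Prop := ∀ (ℓ : ℕ) [Fact ℓ.Prime] (V₀ : Type) [CommGroup V₀] [Finite V₀]
  (E₀ : Subgroup (MulAut V₀)), Fq ℓ V₀ E₀ → ∀ (n : ℕ) (σ τ : MulAut V₀) (a : Subgroup V₀)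
  (κ y : V₀), Nat.card a = ℓ → σ ∈ E₀ → τ ∈ E₀ →
  (τ ∈ St E₀ a →
    (κ ∈ a → (TA σ a κ τ y : Set (SO.SS n V₀)) = {s | s.2.2.1 ∈ a ∧ s.2.2.2 = σ⁻¹ s.2.2.1 ∧
      y ^ (s.1 : ℕ) = 1}) ∧
    (TD σ a κ τ y : Set (SO.SS n V₀)) = {s | κ ^ (s.2.1 : ℕ) * s.2.2.1 ∈ a ∧
      s.2.2.2 = σ⁻¹ s.2.2.1 ∧ y ^ (s.1 : ℕ) = 1}) ∧
  (τ ∉ St E₀ a → ∀ ζ ∈ a, ζ ≠ 1 → y = τ⁻¹ ζ * ζ⁻¹ →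
    (κ ∈ a → (TA σ a κ τ y : Set (SO.SS n V₀)) = {s | s.2.2.1 = ζ ^ (s.1 : ℕ) *
      κ⁻¹ ^ (s.2.1 : ℕ) ∧ s.2.2.2 = (σ⁻¹ ζ) ^ (s.1 : ℕ) * (σ⁻¹ κ)⁻¹ ^ (s.2.1 : ℕ)}) ∧
    (TD σ a κ τ y : Set (SO.SS n V₀)) = {s | s.2.2.1 = ζ ^ (s.1 : ℕ) *
      κ⁻¹ ^ (s.2.1 : ℕ) ∧ s.2.2.2 = (σ⁻¹ ζ) ^ (s.1 : ℕ) * (σ⁻¹ κ)⁻¹ ^ (s.2.1 : ℕ)}) ∧
  (τ ∉ St E₀ a → (∀ ζ ∈ a, ζ ≠ 1 → y ≠ τ⁻¹ ζ * ζ⁻¹) →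
    (κ ∈ a → ∀ s ∈ (TA σ a κ τ y : Set (SO.SS n V₀)), κ ^ (s.2.1 : ℕ) * s.2.2.1 = 1) ∧
    ∀ s ∈ (TD σ a κ τ y : Set (SO.SS n V₀)), κ ^ (s.2.1 : ℕ) * s.2.2.1 = 1)

/-- BRV: the alternating sums `Br` at the types `TA`.

Proof.  `F = F12 .. kc kd`, `v = x₁(kc⁻¹) x₂(kd⁻¹)/ℓ²`, `h = v - x₁(κ⁻¹) x₂((σ⁻¹ κ)⁻¹)/ℓ²`, `T = TA σ a κ τ y`, `κ ∈ a`.  TYA, FVA.
(1) `τ ∈ St E₀ a`: `T = {p ∈ a, q = σ⁻¹ p, y^i = 1}` is not free (`i = k = 0`, `p ∈ a` arbitrary): `F T = 0`.  `P1 T` and `P1 (A1 T)` are free and all `p = q = 1`: `F = v`.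
`A1 T = {y^i = 1, p = κ^(-k), q = (σ⁻¹ κ)^(-k)}`: `F = h` (FVA (3)).  Sum `- h`.
(2) `y = τ⁻¹ ζ ζ⁻¹`: `F T` is FVA (4) with `p₁ = ζ`, `p₂ = κ⁻¹`: `h` plus `BrF`.  `P1 T`, `P1 (A1 T)`: `v`.  `A1 T = {ℓ ∣ i, p = κ^(-k), ..}` (`ζ^i = 1` iff `ℓ ∣ i`): `h`.  Sum: `BrF`.
(3) `A1 T = T`: `0`. -/
def BrvStmt : Prop := ∀ (ℓ : ℕ) [Fact ℓ.Prime] (V₀ : Type) [CommGroup V₀] [Finite V₀]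
  (E₀ : Subgroup (MulAut V₀)), Fq ℓ V₀ E₀ → ∀ (n : ℕ) (ρ₁ ρ₂ : V₀ → ZMod ℓ),
  (∃ r, 0 < r ∧ n = ℓ ^ r) → Hm ρ₁ → Hm ρ₂ → ∀ (x₁ x₂ : V₀ → ℤ), Lf ρ₁ x₁ → Lf ρ₂ x₂ →
  ∀ (F₁₃ Ψ M₁ M₂ : Set (SO.SS n V₀) → ℚ) (K : Set (Fin n × V₀ × V₀) → ℚ),
  FE ℓ n ρ₁ ρ₂ x₁ x₂ F₁₃ Ψ M₁ M₂ K → ∀ (kc kd : V₀) (σ τ : MulAut V₀) (a : Subgroup V₀)
  (κ y : V₀), Nat.card a = ℓ → σ ∈ E₀ → τ ∈ E₀ → κ ∈ a →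
  (τ ∈ St E₀ a → Br (F12 ℓ x₁ x₂ Ψ M₁ M₂ K kc kd) κ (TA σ a κ τ y) =
    -((x₁ kc⁻¹ * x₂ kd⁻¹ - x₁ κ⁻¹ * x₂ (σ⁻¹ κ)⁻¹ : ℤ) / (ℓ : ℚ) ^ 2)) ∧
  (τ ∉ St E₀ a → ∀ ζ ∈ a, ζ ≠ 1 → y = τ⁻¹ ζ * ζ⁻¹ →
    Br (F12 ℓ x₁ x₂ Ψ M₁ M₂ K kc kd) κ (TA σ a κ τ y) = BrF ℓ x₁ x₂ kc kd κ σ ζ) ∧
  (τ ∉ St E₀ a → (∀ ζ ∈ a, ζ ≠ 1 → y ≠ τ⁻¹ ζ * ζ⁻¹) →
    Br (F12 ℓ x₁ x₂ Ψ M₁ M₂ K kc kd) κ (TA σ a κ τ y) = 0)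

/-! ## 4. The sums `FWS` -/

/-- FWA: the sums `FWS` at `κ et`.

Proof.  Let `pL L = a`, `σ q = p`, `κ ∈ a`: `aL κ L ≤ a` is `a` or `⊥`.  `HX B m a (tk κ et) L = HY B m a (tk κ et) (TL κ L)` (HXY (3), `e1`, `e2`).  `aL κ L = a`: HYE, the sum over the
`(τ, y) ∈ QL E₀ (LT (TL κ L))` of `wtE`.  Exchange the sums: for `(τ, y)`, `τ ∈ E₀`, the `L` are the `L ⊆ T = TA σ a κ τ y` with `pL L ≠ ⊥`, `aL κ L ≠ ⊥` (then both are `a`), and by MBI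
the sum of `mob F L` over these is `F T - F (P1 T) - F (A1 T) + F (P1 (A1 T))` (`pL L = ⊥` iff `L ⊆ P1 T`, `aL κ L = ⊥` iff `L ⊆ A1 κ T`).  The `L` with `aL κ L = ⊥` remain. -/
def FwaStmt : Prop := ∀ (ℓ : ℕ) [Fact ℓ.Prime] (M : Ideal (integralClosure ℤ ℂ)) [M.IsMaximal],
  (ℓ : integralClosure ℤ ℂ) ∈ M → ℓ ≠ 2 → ∀ (V₀ G : Type) [CommGroup V₀] [Finite V₀] [Group G]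
  [Finite G] (E₀ : Subgroup (MulAut V₀)), Fq ℓ V₀ E₀ → ∀ B : Bk (FF M) V₀ G, Sd ℓ M E₀ B →
  ∀ D : Rd V₀ G, Rs ℓ E₀ B D → ∀ n m : ℕ, PE ℓ n m G → ∀ a ∈ RL ℓ E₀, ∀ κ ∈ a, ∀ σ ∈ E₀,
  ∀ F : Set (SO.SS n V₀) → ℚ, FWS B m σ a F (tk B κ (D.et a)) =
    ∑ᶠ w ∈ {w : MulAut V₀ × V₀ | w.1 ∈ E₀}, wtE ℓ E₀ B D a κ w.1 w.2 *
      ((Br F κ (TA σ a κ w.1 w.2) : ℚ) : ℂ) +
    ∑ᶠ L ∈ {L : Set (SO.SS n V₀) | pL L = a ∧ (∀ s ∈ L, σ s.2.2.2 = s.2.2.1) ∧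
      ∀ s ∈ L, κ ^ (s.2.1 : ℕ) * s.2.2.1 = 1}, ((mob F L : ℚ) : ℂ) * HX B m a (tk B κ (D.et a)) L

/-- FWB: the part with `aL = ⊥`.

Proof.  As M12 (`ASO/Stmts4`).  `κ = 1`: all `p = 1`, so `pL L = ⊥ ≠ a`, there is no `L`.  `κ ≠ 1`: the conditions in `HX` are `(x^m)^i = 1` (`α = 1`: `g^m = i(κ)` for the `g` with `tk κ et g ≠ 0`), so the sum is
`|C a|⁻¹ ∑_g tk κ et (g) ∑_([x, y] = g) (F(τ(x)) - F(P1 τ(x)))`, `τ(x) = {(i, k, κ^(-k), (σ⁻¹ κ)^(-k)) : (x^m)^i = 1}` (MBI; `pL L = ⊥` or `a`); `P1 τ(x)`: `ℓ ∣ k`.  The bracket is `v' - v`, and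
`|C a|⁻¹ ∑_g tk κ et (g) #{[x, y] = g} = ∑_(χ ∈ Irr G) cv (etl a κ ⊥) χ = LL B (etl a κ ⊥)` (XEM (3), (5)). -/
def FwbStmt : Prop := ∀ (ℓ : ℕ) [Fact ℓ.Prime] (M : Ideal (integralClosure ℤ ℂ)) [M.IsMaximal],
  (ℓ : integralClosure ℤ ℂ) ∈ M → ℓ ≠ 2 → ∀ (V₀ G : Type) [CommGroup V₀] [Finite V₀] [Group G]
  [Finite G] (E₀ : Subgroup (MulAut V₀)), Fq ℓ V₀ E₀ → ∀ B : Bk (FF M) V₀ G, Sd ℓ M E₀ B →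
  ∀ D : Rd V₀ G, Rs ℓ E₀ B D → ∀ n m : ℕ, 0 < n → PE ℓ n m G → ∀ a ∈ RL ℓ E₀, ∀ κ ∈ a,
  ∀ σ ∈ E₀, ∀ (F : Set (SO.SS n V₀) → ℚ) (v v' : ℚ),
  (∀ τ, Fre τ → (∀ s ∈ τ, s.2.2.1 = 1 ∧ s.2.2.2 = 1) → F τ = v) →
  (∀ I : Set (Fin n), (∃ i ∈ I, (i : ℕ) = 0) → F {s | s.1 ∈ I ∧ s.2.2.1 = κ⁻¹ ^ (s.2.1 : ℕ) ∧
    s.2.2.2 = (σ⁻¹ κ)⁻¹ ^ (s.2.1 : ℕ)} = v') →
  (κ = 1 → ∑ᶠ L ∈ {L : Set (SO.SS n V₀) | pL L = a ∧ (∀ s ∈ L, σ s.2.2.2 = s.2.2.1) ∧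
      ∀ s ∈ L, κ ^ (s.2.1 : ℕ) * s.2.2.1 = 1},
      ((mob F L : ℚ) : ℂ) * HX B m a (tk B κ (D.et a)) L = 0) ∧
  (κ ≠ 1 → ∑ᶠ L ∈ {L : Set (SO.SS n V₀) | pL L = a ∧ (∀ s ∈ L, σ s.2.2.2 = s.2.2.1) ∧
      ∀ s ∈ L, κ ^ (s.2.1 : ℕ) * s.2.2.1 = 1},
      ((mob F L : ℚ) : ℂ) * HX B m a (tk B κ (D.et a)) L =
    ((v' - v : ℚ) : ℂ) * LL B (etl B D a κ ⊥))

/-- FWD: the values of `FWS`.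

Proof.  FWA; the bracket: BRV.  The pairs with `τ ∈ St E₀ a`: WTA, the value `- (x₁(kc⁻¹) x₂(kd⁻¹) - x₁(κ⁻¹) x₂((σ⁻¹ κ)⁻¹))/ℓ²` does not depend on `(τ, y)`.  The pairs with `τ ∉ St E₀ a`,
`y = τ⁻¹ ζ ζ⁻¹`, `ζ ∈ a - 1` (`ζ` is determined by `y`: TYA): the sum of `LW`.  FWB with `v = x₁(kc⁻¹) x₂(kd⁻¹)/ℓ²`, `v' = v - x₁(κ⁻¹) x₂((σ⁻¹ κ)⁻¹)/ℓ²` (FVA (2), (3)); for `κ = 1` `x₁ 1 = 0`. -/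
def FwdStmt : Prop := ∀ (ℓ : ℕ) [Fact ℓ.Prime] (M : Ideal (integralClosure ℤ ℂ)) [M.IsMaximal],
  (ℓ : integralClosure ℤ ℂ) ∈ M → ℓ ≠ 2 → ∀ (V₀ G : Type) [CommGroup V₀] [Finite V₀] [Group G]
  [Finite G] (E₀ : Subgroup (MulAut V₀)), Fq ℓ V₀ E₀ → ∀ B : Bk (FF M) V₀ G, Sd ℓ M E₀ B →
  ∀ D : Rd V₀ G, Rs ℓ E₀ B D → ∀ n m : ℕ, PE ℓ n m G →
  ∀ (ρ₁ ρ₂ : V₀ → ZMod ℓ) (x₁ x₂ : V₀ → ℤ), Hm ρ₁ → Hm ρ₂ → Lf ρ₁ x₁ → Lf ρ₂ x₂ →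
  ∀ (F₁₃ Ψ M₁ M₂ : Set (SO.SS n V₀) → ℚ) (K : Set (Fin n × V₀ × V₀) → ℚ),
  FE ℓ n ρ₁ ρ₂ x₁ x₂ F₁₃ Ψ M₁ M₂ K → ∀ (kc kd : V₀), ∀ a ∈ RL ℓ E₀, ∀ κ ∈ a, ∀ σ ∈ E₀,
  FWS B m σ a (F12 ℓ x₁ x₂ Ψ M₁ M₂ K kc kd) (tk B κ (D.et a)) =
    -(((x₁ κ⁻¹ * x₂ (σ⁻¹ κ)⁻¹ : ℤ) : ℂ) / (ℓ : ℂ) ^ 2) * LL B (etl B D a κ ⊥) +
    ∑ᶠ ζ ∈ {ζ : V₀ | ζ ∈ a ∧ ζ ≠ 1}, LW ℓ E₀ B D a κ ζ *
      ((BrF ℓ x₁ x₂ kc kd κ σ ζ : ℚ) : ℂ) -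
    ((x₁ kc⁻¹ * x₂ kd⁻¹ - x₁ κ⁻¹ * x₂ (σ⁻¹ κ)⁻¹ : ℤ) : ℂ) / (ℓ : ℂ) ^ 2 * SE1 B D a κ

open Classical in
/-- FT3: the sums `FWS` for a multiple of the indicator function of the free types.

Proof.  `|C a|⁻¹ ∑_g z(g) ∑_([x, y] = g) ∑_(L ⊆ τ, pL L = a) mob F L`, `τ = {(i, k, p, σ⁻¹ p) : p ∈ a, α = (g^m)^k i(p), α x = x α, y⁻¹ α y = α (x^m)^i}`; by MBI the inner sum is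
`F(τ) - F(P1 τ)`, `P1 τ` is free, and `τ` is not free iff some `i(p)`, `p ∈ a`, `p ≠ 1`, commutes with `x` and `y`, i.e. iff `x, y ∈ C a`.  So it is
`- δ |C a|⁻¹ ∑_g z(g) #{(x, y) : x, y ∈ C a, [x, y] = g} = - δ ∑_(χ ∈ Ch B a) cv z χ` (Frobenius in `C a`, `Cz`). -/
def Ft3Stmt : Prop := ∀ (ℓ : ℕ) [Fact ℓ.Prime] (M : Ideal (integralClosure ℤ ℂ)) [M.IsMaximal],
  (ℓ : integralClosure ℤ ℂ) ∈ M → ℓ ≠ 2 → ∀ (V₀ G : Type) [CommGroup V₀] [Finite V₀] [Group G]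
  [Finite G] (E₀ : Subgroup (MulAut V₀)), Fq ℓ V₀ E₀ → ∀ B : Bk (FF M) V₀ G, Sb ℓ M E₀ B →
  ∀ n m : ℕ, PE ℓ n m G → ∀ (a : Subgroup V₀), Nat.card a = ℓ → ∀ σ ∈ E₀, ∀ (δ : ℚ) (z : G → ℂ),
  Cz B a z → FWS B m σ a (fun τ : Set (SO.SS n V₀) => if Fre τ then δ else 0) z =
    -(δ : ℂ) * ∑ᶠ χ ∈ Ch B a, cv z χ

/-! ## 5. The deviation at `a = aL` -/

/-- GDH: the sums `GD`.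

Proof.  `κ = c σ d ∉ a`, `T ⊆ {κ^k p ∈ a}`.  For `W` a line or `⊤` the `L ⊆ T` with `pL L ≤ W`, `aL κ L = a` are the `L ⊆ T_W = {s ∈ T : p ∈ W}` which are not contained in `A1 κ T_W`
(`aL κ L ≤ a`, `|a| = ℓ`); MBI: the sum of `mob F L` is `H(W) = F(T_W) - F(A1 κ T_W)`.  If `pL L = ⊥` then `κ^k ∈ a`, so `κ^k = 1`, `aL κ L = ⊥`.  So the sum over `pL L = W` (a line) is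
`H(W)`, the sum over `pL L = ⊤` is `H(⊤) - ∑_(W line) H(W)`; `cS ⊤ = 1` (`ux U ⊤ c = 1`: `c ∈ ⊤`). -/
def GdhStmt : Prop := ∀ (ℓ : ℕ) [Fact ℓ.Prime] (V₀ : Type) [CommGroup V₀] [Finite V₀]
  (E₀ : Subgroup (MulAut V₀)), Fq ℓ V₀ E₀ → ∀ (n : ℕ) (U : Subgroup V₀ → ℚ) (c d : V₀)
  (σ : MulAut V₀) (a : Subgroup V₀), Nat.card a = ℓ → c * σ d ∉ a →
  ∀ (F : Set (SO.SS n V₀) → ℚ) (T : Set (SO.SS n V₀)),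
  (∀ s ∈ T, (c * σ d) ^ (s.2.1 : ℕ) * s.2.2.1 ∈ a) →
  GD U c d σ a F T = F T - F (A1 (c * σ d) T) +
    ∑ᶠ W ∈ {W : Subgroup V₀ | Nat.card W = ℓ}, (cS U c d σ W - 1) *
      (F {s | s ∈ T ∧ s.2.2.1 ∈ W} - F (A1 (c * σ d) {s | s ∈ T ∧ s.2.2.1 ∈ W}))

/-- GDV: the values of `GD`.

Proof.  `F = F12 .. c d`, `κ = c σ d ∉ a`, `T = TD σ a κ τ y`, `v`, `h` as in BRV.  `cS W - 1 ∈ ℓ Rl ℓ` (hypothesis on `U`; `ux = 1` or `U W`).  GDH, TYA (2)-(4) and FVA.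
(1) `τ ∈ St E₀ a`: `T = {κ^k p ∈ a, q = σ⁻¹ p, y^i = 1}` is not free (`i = k = 0`, `p ∈ a`), `A1 T`: `h`.  `H(⊤) = - h`.  For a line `W`: `W = a`: `T_W` is not free, `A1 T_W` has `p = 1`
(`κ^k ∈ a`): `H = - v`.  `κ ∈ W`: `κ^k p ∈ a ∩ W = 1`: `A1 T_W = T_W`, `H = 0`.  Otherwise `κ = α₀ w₀`, `α₀ ∈ a`, `w₀ ∈ W`, and `κ^k p ∈ a`, `p ∈ W` means `p = w₀^(-k)`: FVA (3), and `A1 T_W` has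
`α₀^k = 1`, `ℓ ∣ k`, `p = 1`: `v`.  So `ℓ² H(W) ∈ Rl ℓ` (integers).
(2) `y = τ⁻¹ ζ ζ⁻¹`: `T = {p = ζ^i κ^(-k), ..}`; `F T`: FVA (4); `A1 T = {ℓ ∣ i, p = κ^(-k)}`: `h`.  `H(⊤) = BrF`.  `W = a`: `κ^k ∈ a`, `ℓ ∣ k`, FVA (5); `A1`: `p = 1`: `v`.  `κ ∈ W`: `ζ^i ∈ W`, `ℓ ∣ i`: `H = 0`.
Otherwise there is `i₀`, `ℓ ∤ i₀`, with `ζ^(i₀) κ⁻¹ ∈ W` (the elements `ζ^j κ⁻¹` generate the lines different from `a`), and `ζ^i κ^(-k) ∈ W` iff `i ≡ i₀ k` modulo `ℓ` (`ζ^(i - i₀ k) ∈ W ∩ a = 1`), `p = (ζ^(i₀) κ⁻¹)^k`: FVA (6);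
`A1`: `ℓ ∣ i`, so `ℓ ∣ k`, `p = 1`: `v`.
(3) all `α = 1`: no `L` with `aL κ L = a`: `0`. -/
def GdvStmt : Prop := ∀ (ℓ : ℕ) [Fact ℓ.Prime] (V₀ : Type) [CommGroup V₀] [Finite V₀]
  (E₀ : Subgroup (MulAut V₀)), Fq ℓ V₀ E₀ → ∀ (n : ℕ) (ρ₁ ρ₂ : V₀ → ZMod ℓ),
  (∃ r, 0 < r ∧ n = ℓ ^ r) → Hm ρ₁ → Hm ρ₂ → ∀ (x₁ x₂ : V₀ → ℤ), Lf ρ₁ x₁ → Lf ρ₂ x₂ →
  ∀ (F₁₃ Ψ M₁ M₂ : Set (SO.SS n V₀) → ℚ) (K : Set (Fin n × V₀ × V₀) → ℚ),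
  FE ℓ n ρ₁ ρ₂ x₁ x₂ F₁₃ Ψ M₁ M₂ K → ∀ U : Subgroup V₀ → ℚ,
  (∀ W, W ≠ ⊥ → ∃ q ∈ SOR.Rl ℓ, U W = 1 + ℓ * q) → ∀ (c d : V₀) (σ τ : MulAut V₀)
  (a : Subgroup V₀) (y : V₀), Nat.card a = ℓ → σ ∈ E₀ → τ ∈ E₀ → c * σ d ∉ a →
  (τ ∈ St E₀ a → ∃ q ∈ SOR.Rl ℓ,
    GD U c d σ a (F12 ℓ x₁ x₂ Ψ M₁ M₂ K c d) (TD σ a (c * σ d) τ y) =
    -((x₁ c⁻¹ * x₂ d⁻¹ - x₁ (c * σ d)⁻¹ * x₂ (σ⁻¹ (c * σ d))⁻¹ : ℤ) / (ℓ : ℚ) ^ 2) + q / ℓ) ∧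
  (τ ∉ St E₀ a → ∀ ζ ∈ a, ζ ≠ 1 → y = τ⁻¹ ζ * ζ⁻¹ → ∃ q ∈ SOR.Rl ℓ,
    GD U c d σ a (F12 ℓ x₁ x₂ Ψ M₁ M₂ K c d) (TD σ a (c * σ d) τ y) =
      BrF ℓ x₁ x₂ c d (c * σ d) σ ζ + q / ℓ) ∧
  (τ ∉ St E₀ a → (∀ ζ ∈ a, ζ ≠ 1 → y ≠ τ⁻¹ ζ * ζ⁻¹) →
    GD U c d σ a (F12 ℓ x₁ x₂ Ψ M₁ M₂ K c d) (TD σ a (c * σ d) τ y) = 0)

/-- DAV: the deviation `DAS` modulo `RM`.

Proof.  `κ = c σ d ∉ a`.  Exchange the sums: `(τ, y) ∈ QL E₀ (LT (TL κ L))`, `aL κ L = a`, `σ q = p` for all of `L` iff `τ ∈ E₀`, `L ⊆ TD σ a κ τ y`, `aL κ L = a`.  So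
`DAS = ∑_((τ, y), τ ∈ E₀) wtE a κ_a τ y GD(TD σ a κ τ y)`.  GDV: the terms `q/ℓ` give elements of `RM M` (`e6`: `wtE/ℓ ∈ RM M`); the pairs with `τ ∈ St E₀ a` have the constant value
`- h`, and the sum of the weights is `SE1 ∈ ℓ² RM M` (WTA); the others give the sum of `LW`, as in FWD.  `κ_a ∈ a` (PRB (5)). -/
def DavStmt : Prop := ∀ (ℓ : ℕ) [Fact ℓ.Prime] (M : Ideal (integralClosure ℤ ℂ)) [M.IsMaximal],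
  (ℓ : integralClosure ℤ ℂ) ∈ M → ℓ ≠ 2 → ∀ (V₀ G : Type) [CommGroup V₀] [Finite V₀] [Group G]
  [Finite G] (E₀ : Subgroup (MulAut V₀)), Fq ℓ V₀ E₀ → ∀ B : Bk (FF M) V₀ G, Sd ℓ M E₀ B →
  ∀ D : Rd V₀ G, Rs ℓ E₀ B D → ∀ n m : ℕ, PE ℓ n m G →
  ∀ (ρ₁ ρ₂ : V₀ → ZMod ℓ) (x₁ x₂ : V₀ → ℤ), Hm ρ₁ → Hm ρ₂ → Lf ρ₁ x₁ → Lf ρ₂ x₂ →
  ∀ (F₁₃ Ψ M₁ M₂ : Set (SO.SS n V₀) → ℚ) (K : Set (Fin n × V₀ × V₀) → ℚ),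
  FE ℓ n ρ₁ ρ₂ x₁ x₂ F₁₃ Ψ M₁ M₂ K → ∀ (c d : V₀), ∀ a ∈ RL ℓ E₀, ∀ σ ∈ E₀, c * σ d ∉ a →
  DAS ℓ E₀ B D c d σ a (F12 ℓ x₁ x₂ Ψ M₁ M₂ K c d) -
    ∑ᶠ ζ ∈ {ζ : V₀ | ζ ∈ a ∧ ζ ≠ 1}, LW ℓ E₀ B D a (pr ℓ E₀ a (c * σ d)) ζ *
      ((BrF ℓ x₁ x₂ c d (c * σ d) σ ζ : ℚ) : ℂ) ∈ RM M

/-- DVS: the deviations cancel.

Proof.  `Λ = Λ a κ_a ζ ∈ ℓ RM M`, `ℓ² BrF ∈ ℤ`, the factors `cS`, `ux` are in `1 + ℓ Rl ℓ`, so they may be replaced by `1` modulo `RM M`, and the integers `ℓ² BrF/(-12)` by integers congruent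
modulo `ℓ`.  `κ = c σ d`, `κ_a = pr c pr (σ d)`, `Q v = v (pr v)⁻¹`; `x ≡ ρ` modulo `ℓ`.  For `a ∈ R`, `ζ ∈ a - 1`, the sum of the terms of `(σ, a, ζ)` is, modulo `RM M`,
`(12/ℓ²) Λ z`, with `z` congruent modulo `ℓ` to: (i) `κ ∉ a`:
`ρ₂(σ⁻¹ ζ) [- ρ₁(σ d) + (- ρ₁ c + ρ₁ κ_a) + ρ₁(Q c)] + ρ₁(ζ) [- ρ₂(σ⁻¹ c) + (- ρ₂ d + ρ₂(σ⁻¹ κ_a)) + ρ₂(σ⁻¹ Q(σ d))]`
(for `c ∈ a` the second sum has no term of `a`, and `ρ₁(Q c) = 0`; the same for `σ d ∈ a`; `σ⁻¹ (σ d (pr (σ d))⁻¹) = d (pr_b d)⁻¹`, `b = σ⁻¹ a`), which is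
`- (ρ₁(Q σ d) ρ₂(σ⁻¹ ζ) + ρ₂(σ⁻¹ Q c) ρ₁(ζ))`; (ii) `κ ∈ a`: `ρ₂(σ⁻¹ ζ) ρ₁(Q c) + ρ₁(ζ) ρ₂(σ⁻¹ Q(σ d))`, `Q c Q(σ d) = Q κ = 1`: the same number.  So the sum is
`- (12/ℓ²) ∑_a ∑_ζ ∑_σ Λ a (pr c pr (σ d)) ζ z'(σ)`, `z'(σ) ≡ ρ₁(Q σ d) ρ₂(σ⁻¹ ζ) + ρ₂(σ⁻¹ Q c) ρ₁(ζ)`.  For fixed `a`, `ζ` group the `σ` into the cosets `(St E₀ a) σ`: `pr (π σ d) = pr (σ d)`,
`(π σ)⁻¹ ζ = σ⁻¹ ζ` for `π ∈ St E₀ a`, `Q(π v) = π (Q v)`, and the products of the `π (Q v)` and of the `π⁻¹ (Q v)` over `π ∈ St E₀ a` are `1` (PRB (10), `pr (Q v) = 1`).  So the sum of the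
`z'` over a coset is divisible by `ℓ`, and the sum of the terms of the coset is in `ℓ⁻² ℓ ℓ RM M`. -/
def DvsStmt : Prop := ∀ (ℓ : ℕ) [Fact ℓ.Prime] (M : Ideal (integralClosure ℤ ℂ)) [M.IsMaximal],
  (ℓ : integralClosure ℤ ℂ) ∈ M → ∀ (V₀ : Type) [CommGroup V₀] [Finite V₀]
  (E₀ : Subgroup (MulAut V₀)), Fq ℓ V₀ E₀ → ∀ U : Subgroup V₀ → ℚ,
  (∀ W, W ≠ ⊥ → ∃ q ∈ SOR.Rl ℓ, U W = 1 + ℓ * q) →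
  ∀ (ρ₁ ρ₂ : V₀ → ZMod ℓ) (x₁ x₂ : V₀ → ℤ), Hm ρ₁ → Hm ρ₂ → Lf ρ₁ x₁ → Lf ρ₂ x₂ →
  ∀ Λ : Subgroup V₀ → V₀ → V₀ → ℂ, (∀ a ∈ RL ℓ E₀, ∀ κ ∈ a, ∀ ζ, Λ a κ ζ / ℓ ∈ RM M) →
  ∀ c d : V₀, ∑ᶠ σ ∈ {σ : MulAut V₀ | σ ∈ E₀},
    ((∑ᶠ a ∈ {a : Subgroup V₀ | a ∈ RL ℓ E₀ ∧ c * σ d ∉ a}, ∑ᶠ ζ ∈ {ζ : V₀ | ζ ∈ a ∧ ζ ≠ 1},
      Λ a (pr ℓ E₀ a (c * σ d)) ζ * ((BrF ℓ x₁ x₂ c d (c * σ d) σ ζ -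
        cS U c d σ a * BrF ℓ x₁ x₂ c d (pr ℓ E₀ a (c * σ d)) σ ζ : ℚ) : ℂ)) +
    (∑ᶠ a ∈ {a : Subgroup V₀ | a ∈ RL ℓ E₀ ∧ c ∉ a}, ∑ᶠ ζ ∈ {ζ : V₀ | ζ ∈ a ∧ ζ ≠ 1},
      Λ a (pr ℓ E₀ a (c * σ d)) ζ * ((ux U a (σ d) *
        (BrF ℓ x₁ x₂ c d (pr ℓ E₀ a (c * σ d)) σ ζ -
          BrF ℓ x₁ x₂ (pr ℓ E₀ a c) d (pr ℓ E₀ a (c * σ d)) σ ζ) : ℚ) : ℂ)) +
    ∑ᶠ a ∈ {a : Subgroup V₀ | a ∈ RL ℓ E₀ ∧ σ d ∉ a}, ∑ᶠ ζ ∈ {ζ : V₀ | ζ ∈ a ∧ ζ ≠ 1},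
      Λ a (pr ℓ E₀ a (c * σ d)) ζ * ((ux U a c *
        (BrF ℓ x₁ x₂ c d (pr ℓ E₀ a (c * σ d)) σ ζ -
          BrF ℓ x₁ x₂ c (σ⁻¹ (pr ℓ E₀ a (σ d))) (pr ℓ E₀ a (c * σ d)) σ ζ) : ℚ) : ℂ)) ∈ RM M

/-! ## 6. The sum over the labels -/

/-- TS1: the part of `F₁₃`.

Proof.  `mob F₁₃ L = 0` if `pL L = ⊥` or `qL L = ⊥` (MBI, `z13`, `ρ 1 = 0`).  Otherwise, with `W = pL L`, `W' = qL L`, `X13` is bilinear in the labels at `W`, `W'`, and by LFM the sum over the labels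
of `c` at `W` is `fm W c` (only `a = W` counts), the same for `d` at `W'`; X3R. -/
def Ts1Stmt : Prop := ∀ (ℓ : ℕ) [Fact ℓ.Prime] (M : Ideal (integralClosure ℤ ℂ)) [M.IsMaximal],
  (ℓ : integralClosure ℤ ℂ) ∈ M → ℓ ≠ 2 → ∀ (V₀ G : Type) [CommGroup V₀] [Finite V₀] [Group G]
  [Finite G] (E₀ : Subgroup (MulAut V₀)), Fq ℓ V₀ E₀ → ∀ B : Bk (FF M) V₀ G, Sd ℓ M E₀ B →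
  ∀ D : Rd V₀ G, Rs ℓ E₀ B D → ∀ n m : ℕ, PE ℓ n m G → ∀ (ρ₁ ρ₂ : V₀ → ZMod ℓ), Hm ρ₁ → Hm ρ₂ →
  ∀ (F₁₃ : Set (SO.SS n V₀) → ℚ),
  (∀ τ : Set (SO.SS n V₀), (∀ s ∈ τ, ρ₁ s.2.2.1 = 0) ∨ (∀ s ∈ τ, ρ₂ s.2.2.2 = 0) → F₁₃ τ = 0) →
  ∀ c d : V₀, c ≠ 1 → d ≠ 1 → ∑ᶠ L : Set (SO.SS n V₀), ((mob F₁₃ L : ℚ) : ℂ) *
    (X13 B m (mnl E₀ B c) (mnl E₀ B d) L -
      (∑ᶠ a ∈ {a : Subgroup V₀ | a ∈ RL ℓ E₀ ∧ c ∉ a},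
        X13 B m (etl B D a (pr ℓ E₀ a c)) (mnl E₀ B d) L) -
      (∑ᶠ b ∈ {b : Subgroup V₀ | b ∈ RL ℓ E₀ ∧ d ∉ b},
        X13 B m (mnl E₀ B c) (etl B D b (pr ℓ E₀ b d)) L) +
      ∑ᶠ a ∈ {a : Subgroup V₀ | a ∈ RL ℓ E₀ ∧ c ∉ a},
        ∑ᶠ b ∈ {b : Subgroup V₀ | b ∈ RL ℓ E₀ ∧ d ∉ b},
          X13 B m (etl B D a (pr ℓ E₀ a c)) (etl B D b (pr ℓ E₀ b d)) L) =
  ((∑ᶠ L ∈ {L : Set (SO.SS n V₀) | pL L ≠ ⊥ ∧ qL L ≠ ⊥},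
    mob F₁₃ L * P13 ℓ E₀ D.U D.fx c d L : ℚ) : ℂ)

/-- TS2: the part of `F₁₂` with `pL = ⊥` or `qL = ⊥`.

Proof.  `F = F12 .. kc kd`.  Exactly one of `pL L`, `qL L` is `⊥`: `X12 = 0` (X2C (1)).  Both are `⊥`, `L ≠ ∅`: all `p = q = 1` in `L`, so `F` has the value `v` on all subsets of `L`
(FVA (2); a type with all `p = q = 1` is free), `mob F L = 0` (MBI).  `L = ∅`: `mob F ∅ = F ∅ = v`, and XEM (2): `X12 = ∑_(χ ∈ Irr G) cv (α ⊥) χ cv (β ⊥) χ`. -/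
def Ts2Stmt : Prop := ∀ (ℓ : ℕ) [Fact ℓ.Prime] (M : Ideal (integralClosure ℤ ℂ)) [M.IsMaximal],
  (ℓ : integralClosure ℤ ℂ) ∈ M → ℓ ≠ 2 → ∀ (V₀ G : Type) [CommGroup V₀] [Finite V₀] [Group G]
  [Finite G] (E₀ : Subgroup (MulAut V₀)), Fq ℓ V₀ E₀ → ∀ B : Bk (FF M) V₀ G, Sb ℓ M E₀ B →
  ∀ D : Rd V₀ G, Rs ℓ E₀ B D → ∀ n m : ℕ, PE ℓ n m G →
  ∀ (ρ₁ ρ₂ : V₀ → ZMod ℓ) (x₁ x₂ : V₀ → ℤ), Hm ρ₁ → Hm ρ₂ → Lf ρ₁ x₁ → Lf ρ₂ x₂ →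
  ∀ (F₁₃ Ψ M₁ M₂ : Set (SO.SS n V₀) → ℚ) (K : Set (Fin n × V₀ × V₀) → ℚ),
  FE ℓ n ρ₁ ρ₂ x₁ x₂ F₁₃ Ψ M₁ M₂ K → ∀ (kc kd : V₀) (α β : Subgroup V₀ → G → ℂ),
  (∀ x g, α ⊥ (x * g * x⁻¹) = α ⊥ g) → (∀ x g, β ⊥ (x * g * x⁻¹) = β ⊥ g) →
  ∑ᶠ L : Set (SO.SS n V₀), ((mob (F12 ℓ x₁ x₂ Ψ M₁ M₂ K kc kd) L : ℚ) : ℂ) * X12 B m α β L =
    ((x₁ kc⁻¹ * x₂ kd⁻¹ : ℤ) : ℂ) / (ℓ : ℂ) ^ 2 * ∑ᶠ χ ∈ Irr G, cv (α ⊥) χ * cv (β ⊥) χ +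
      X2N B m α β (F12 ℓ x₁ x₂ Ψ M₁ M₂ K kc kd)

/-- TS3: the part of `F₁₂` with `pL ≠ ⊥`, `qL ≠ ⊥`.

Proof.  Let `pL L = W ≠ ⊥`, `qL L = W' ≠ ⊥`.  If `EL E₀ L = ∅` all `X12` are `0` (X2C (2); `Cz` for the labels: CZB, LFM, FMB).  Otherwise `W' = σ⁻¹ W` for `σ ∈ EL`, `W' ∈ R` iff `W ∈ R`.  LFM: with
`e = [W ∈ R, c ∉ W]`, `e' = [W' ∈ R, d ∉ W']` (`d ∉ W'` iff `σ d ∉ W`) the labels are `mn(c) = fm c + e et_c`, `et_c` (only `a = W`), `et_c = tk (pr c) (et W)`; so the sum of the terms of `L` is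
`mob F^{cd} X(fm, fm) + e (mob F^{cd} - mob F^{c_a d}) X(et_c, fm) + e' (mob F^{cd} - mob F^{c d_b}) X(fm, et_d) +
e e' (mob F^{cd} - mob F^{c_a d} - mob F^{c d_b} + mob F^{c_a d_b}) X(et_c, et_d)`.  X2R; exchange the sums over `L` and `σ` (`σ ∈ E₀`, `σ q = p` for all of `L`, `pL L = a`; `mob` is linear);
`b = σ⁻¹ a`, `pr b d = σ⁻¹ (pr a (σ d))` (PRB (4)), `et_c et_d` gives `tk κ_a (et * et)`, `κ_a = pr c pr(σ d)`. -/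
def Ts3Stmt : Prop := ∀ (ℓ : ℕ) [Fact ℓ.Prime] (M : Ideal (integralClosure ℤ ℂ)) [M.IsMaximal],
  (ℓ : integralClosure ℤ ℂ) ∈ M → ℓ ≠ 2 → ∀ (V₀ G : Type) [CommGroup V₀] [Finite V₀] [Group G]
  [Finite G] (E₀ : Subgroup (MulAut V₀)), Fq ℓ V₀ E₀ → ∀ B : Bk (FF M) V₀ G, Sb ℓ M E₀ B →
  ∀ D : Rd V₀ G, Rs ℓ E₀ B D → ∀ n m : ℕ, PE ℓ n m G →
  ∀ F : V₀ → V₀ → Set (SO.SS n V₀) → ℚ, ∀ c d : V₀, c ≠ 1 → d ≠ 1 →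
  X2N B m (mnl E₀ B c) (mnl E₀ B d) (F c d) -
    (∑ᶠ a ∈ {a : Subgroup V₀ | a ∈ RL ℓ E₀ ∧ c ∉ a},
      X2N B m (etl B D a (pr ℓ E₀ a c)) (mnl E₀ B d) (F (pr ℓ E₀ a c) d)) -
    (∑ᶠ b ∈ {b : Subgroup V₀ | b ∈ RL ℓ E₀ ∧ d ∉ b},
      X2N B m (mnl E₀ B c) (etl B D b (pr ℓ E₀ b d)) (F c (pr ℓ E₀ b d))) +
    (∑ᶠ a ∈ {a : Subgroup V₀ | a ∈ RL ℓ E₀ ∧ c ∉ a},
      ∑ᶠ b ∈ {b : Subgroup V₀ | b ∈ RL ℓ E₀ ∧ d ∉ b},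
        X2N B m (etl B D a (pr ℓ E₀ a c)) (etl B D b (pr ℓ E₀ b d))
          (F (pr ℓ E₀ a c) (pr ℓ E₀ b d))) =
  ∑ᶠ σ ∈ {σ : MulAut V₀ | σ ∈ E₀}, (T0S ℓ E₀ B D m c d σ (F c d) +
    (∑ᶠ a ∈ {a : Subgroup V₀ | a ∈ RL ℓ E₀ ∧ c ∉ a}, (ux D.U a (σ d) : ℚ) *
      FWS B m σ a (fun τ => F c d τ - F (pr ℓ E₀ a c) d τ)
        (tk B (pr ℓ E₀ a (c * σ d)) (D.et a))) +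
    (∑ᶠ a ∈ {a : Subgroup V₀ | a ∈ RL ℓ E₀ ∧ σ d ∉ a}, (ux D.U a c : ℚ) *
      FWS B m σ a (fun τ => F c d τ - F c (σ⁻¹ (pr ℓ E₀ a (σ d))) τ)
        (tk B (pr ℓ E₀ a (c * σ d)) (D.et a))) +
    ∑ᶠ a ∈ {a : Subgroup V₀ | a ∈ RL ℓ E₀ ∧ c ∉ a ∧ σ d ∉ a}, (nS E₀ a : ℂ)⁻¹ *
      FWS B m σ a (fun τ => F c d τ - F (pr ℓ E₀ a c) d τ - F c (σ⁻¹ (pr ℓ E₀ a (σ d))) τ +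
        F (pr ℓ E₀ a c) (σ⁻¹ (pr ℓ E₀ a (σ d))) τ)
        (tk B (pr ℓ E₀ a (c * σ d)) (fun g => mulF (D.et a) (D.et a) g)))

open Classical in
/-- TS4: the term of `σ` for the elements `fm`.

Proof.  `κ = c σ d`, `W = pL L ≠ ⊥`, `σ q = p` for all of `L`, `A = aL κ L`.  `κ ∈ W`: `HX (fm W κ) = nS W HX (fc W κ) = nS W HK κ L` (HXY (1)).  `κ ∉ W`: `HX (fm W κ) = HK κ L - HX (tk (pr W κ) (et W))`, the last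
term is `0` if `W ∉ R` (`et W = 0`); the sum of these terms over `L` with `pL L = a` is `- cS a FWS σ a F (tk κ_a et_a)`.
`A ≠ ⊥`: `(if κ ∈ W then nS W else 1) = (if κ ∈ A then nS A else 1)`: if `κ ∈ W` and `W` is of order `ℓ` then `A ≤ W`, `A = W`; if `W = ⊤` then `nS W = 1`, and if `A` is of order `ℓ` then `κ ∉ A` (otherwise all
`p ∈ A`, `W ≤ A`), if `A = ⊤` then `nS A = 1`; if `κ ∉ W` and `κ ∈ A ≠ ⊤` then `A = ⟨κ⟩` (`κ ≠ 1`), all `p ∈ ⟨κ⟩ ∩ W = 1`, `W = ⊥`, a contradiction.  HKF gives `P12S`, and for `A = a ∈ R`, `κ ∉ a`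
the sum of the weights: `DAS` (if `aL κ L = a` and `κ ∉ a` then `pL L ≠ ⊥`: otherwise `κ^k ∈ a`, so `κ^k = 1`).
`A = ⊥`: all `p = κ^(-k)`, so `κ ≠ 1`, `W = ⟨κ⟩ ∋ κ`, the coefficient is `cS ⟨κ⟩ kE E₀ κ` (`kE E₀ κ = nS E₀ ⟨κ⟩`); M12 for `F` (`κ₂ = σ⁻¹ κ`): the sum over all `L ⊆ τ₀` of `mob F L HK` is `v' L1 B κ`; the `L ⊆ τ₀` with
`pL L = ⊥` have all `p = q = 1`: `mob F L = 0` for `L ≠ ∅`, `mob F ∅ = v`, `HK κ ∅ = L1 B κ` (WZE (b)).  So the part is `(v' - v) cS ⟨κ⟩ kE κ L1 B κ`, and `LL B (mnl E₀ B κ ⊥) = kE κ L1 B κ`. -/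
def Ts4Stmt : Prop := ∀ (ℓ : ℕ) [Fact ℓ.Prime] (M : Ideal (integralClosure ℤ ℂ)) [M.IsMaximal],
  (ℓ : integralClosure ℤ ℂ) ∈ M → ℓ ≠ 2 → ∀ (V₀ G : Type) [CommGroup V₀] [Finite V₀] [Group G]
  [Finite G] (E₀ : Subgroup (MulAut V₀)), Fq ℓ V₀ E₀ → ∀ B : Bk (FF M) V₀ G, Sd ℓ M E₀ B →
  ∀ D : Rd V₀ G, Rs ℓ E₀ B D → ∀ n m : ℕ, 0 < n → PE ℓ n m G →
  ∀ (F : Set (SO.SS n V₀) → ℚ) (v : ℚ) (v' : V₀ → V₀ → ℚ),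
  (∀ τ, Fre τ → (∀ s ∈ τ, s.2.2.1 = 1 ∧ s.2.2.2 = 1) → F τ = v) →
  (∀ (κ₁ κ₂ : V₀) (I : Set (Fin n)), (∃ i ∈ I, (i : ℕ) = 0) → F {s | s.1 ∈ I ∧
    s.2.2.1 = κ₁ ^ (s.2.1 : ℕ) ∧ s.2.2.2 = κ₂ ^ (s.2.1 : ℕ)} = v - v' κ₁ κ₂) →
  ∀ c d : V₀, ∀ σ ∈ E₀, T0S ℓ E₀ B D m c d σ F =
    ((P12S ℓ E₀ D.U D.fx c d σ F : ℚ) : ℂ) +
    (∑ᶠ a ∈ {a : Subgroup V₀ | a ∈ RL ℓ E₀ ∧ c * σ d ∉ a}, DAS ℓ E₀ B D c d σ a F) -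
    (if c * σ d ≠ 1 then ((cS D.U c d σ (Subgroup.zpowers (c * σ d)) *
      v' (c * σ d)⁻¹ (σ⁻¹ (c * σ d))⁻¹ : ℚ) : ℂ) * LL B (mnl E₀ B (c * σ d) ⊥) else 0) -
    ∑ᶠ a ∈ {a : Subgroup V₀ | a ∈ RL ℓ E₀ ∧ c * σ d ∉ a}, (cS D.U c d σ a : ℚ) *
      FWS B m σ a F (tk B (pr ℓ E₀ a (c * σ d)) (D.et a))

/-- TS5: the relation, without the evaluation of the deviations.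

Proof.  `F kc kd = F12 .. kc kd`.  LT2 for the label pairs `(mn c, mn d)`, `(et_a, mn d)`, `(mn c, et_b)`, `(et_a, et_b)` (LMN, LET, `Rel` for the pairs `(c, d)`, `(pr a c, d)`, ..; `pr a c ∈ a`, PRB (5)) with the signs
`+ - - +`: the sum is in `RM M`.  The part of `F₁₃`: TS1.  The part of `F₁₂`: TS2 for every pair (XEM: the class functions; `χ ∉ e`: the product with `mn` is `0`, so the sums over `Irr G` are `NN`;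
for `(et_a, et_b)`: if `pr a c = 1` or `pr b d = 1` the coefficient `x₁(..) x₂(..)` is `0`, otherwise the sum over `Irr G` is the one over the block (XEM (5)), and every term is in `ℓ² RM M` (ETV): the
contribution is in `RM M`).  The rest: TS3, TS4 (FVA (2), (3): `v = x₁ c⁻¹ x₂ d⁻¹/ℓ²`, `v' κ₁ κ₂ = x₁ κ₁ x₂ κ₂/ℓ²`).  The last sum of TS3: the function is
`if Fre τ then δ else 0`, `δ = (x₁ c⁻¹ - x₁ (pr a c)⁻¹)(x₂ d⁻¹ - x₂ (pr b d)⁻¹)/ℓ²` (the terms with `K`, `Ψ`, `M₁`, `M₂` cancel), FT3: `- δ ∑_χ nu χ κ_a (cv et χ)²` is in `RM M` by `e7`.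
The sum over `σ` of `P12S` plus the part of `F₁₃` is `PPE` (`pL L ≠ ⊥` and `σ ∈ EL E₀ L` imply `qL L ≠ ⊥`). -/
def Ts5Stmt : Prop := ∀ (ℓ : ℕ) [Fact ℓ.Prime] (M : Ideal (integralClosure ℤ ℂ)) [M.IsMaximal],
  (ℓ : integralClosure ℤ ℂ) ∈ M → ℓ ≠ 2 → ∀ (V₀ G : Type) [CommGroup V₀] [Finite V₀] [Group G]
  [Finite G] (E₀ : Subgroup (MulAut V₀)), Fq ℓ V₀ E₀ → ∀ B : Bk (FF M) V₀ G, Sd ℓ M E₀ B →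
  ∀ D : Rd V₀ G, Rs ℓ E₀ B D → ∀ n m : ℕ, PE ℓ n m G →
  ∀ (ρ₁ ρ₂ : V₀ → ZMod ℓ) (x₁ x₂ : V₀ → ℤ), Hm ρ₁ → Hm ρ₂ → Lf ρ₁ x₁ → Lf ρ₂ x₂ →
  ∀ (F₁₃ Ψ M₁ M₂ : Set (SO.SS n V₀) → ℚ) (K : Set (Fin n × V₀ × V₀) → ℚ),
  FE ℓ n ρ₁ ρ₂ x₁ x₂ F₁₃ Ψ M₁ M₂ K →
  (∀ kc kd, Rel ℓ n m B.i kc kd F₁₃ (F12 ℓ x₁ x₂ Ψ M₁ M₂ K kc kd)) → ∀ c d : V₀, c ≠ 1 → d ≠ 1 →
  ((x₁ c⁻¹ * x₂ d⁻¹ : ℤ) : ℂ) / (ℓ : ℂ) ^ 2 * NN B (mnl E₀ B c ⊥) (mnl E₀ B d ⊥) -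
  (∑ᶠ a ∈ {a : Subgroup V₀ | a ∈ RL ℓ E₀ ∧ c ∉ a},
    ((x₁ (pr ℓ E₀ a c)⁻¹ * x₂ d⁻¹ : ℤ) : ℂ) / (ℓ : ℂ) ^ 2 *
      NN B (etl B D a (pr ℓ E₀ a c) ⊥) (mnl E₀ B d ⊥)) -
  (∑ᶠ b ∈ {b : Subgroup V₀ | b ∈ RL ℓ E₀ ∧ d ∉ b},
    ((x₁ c⁻¹ * x₂ (pr ℓ E₀ b d)⁻¹ : ℤ) : ℂ) / (ℓ : ℂ) ^ 2 *
      NN B (mnl E₀ B c ⊥) (etl B D b (pr ℓ E₀ b d) ⊥)) +
  ((PPE ℓ E₀ D.U D.fx c d F₁₃ (F12 ℓ x₁ x₂ Ψ M₁ M₂ K c d) : ℚ) : ℂ) -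
  (∑ᶠ σ ∈ {σ : MulAut V₀ | σ ∈ E₀ ∧ c * σ d ≠ 1},
    ((cS D.U c d σ (Subgroup.zpowers (c * σ d)) : ℚ) : ℂ) *
      (((x₁ (c * σ d)⁻¹ * x₂ (σ⁻¹ (c * σ d))⁻¹ : ℤ) : ℂ) / (ℓ : ℂ) ^ 2) *
        LL B (mnl E₀ B (c * σ d) ⊥)) +
  ∑ᶠ σ ∈ {σ : MulAut V₀ | σ ∈ E₀},
    ((∑ᶠ a ∈ {a : Subgroup V₀ | a ∈ RL ℓ E₀ ∧ c * σ d ∉ a},
      (DAS ℓ E₀ B D c d σ a (F12 ℓ x₁ x₂ Ψ M₁ M₂ K c d) - (cS D.U c d σ a : ℚ) *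
        FWS B m σ a (F12 ℓ x₁ x₂ Ψ M₁ M₂ K c d) (tk B (pr ℓ E₀ a (c * σ d)) (D.et a)))) +
    (∑ᶠ a ∈ {a : Subgroup V₀ | a ∈ RL ℓ E₀ ∧ c ∉ a}, (ux D.U a (σ d) : ℚ) *
      FWS B m σ a (fun τ => F12 ℓ x₁ x₂ Ψ M₁ M₂ K c d τ -
        F12 ℓ x₁ x₂ Ψ M₁ M₂ K (pr ℓ E₀ a c) d τ) (tk B (pr ℓ E₀ a (c * σ d)) (D.et a))) +
    ∑ᶠ a ∈ {a : Subgroup V₀ | a ∈ RL ℓ E₀ ∧ σ d ∉ a}, (ux D.U a c : ℚ) *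
      FWS B m σ a (fun τ => F12 ℓ x₁ x₂ Ψ M₁ M₂ K c d τ -
        F12 ℓ x₁ x₂ Ψ M₁ M₂ K c (σ⁻¹ (pr ℓ E₀ a (σ d))) τ)
        (tk B (pr ℓ E₀ a (c * σ d)) (D.et a))) ∈ RM M

/-! The output rows (statements in `StmtsX.lean`).

FIE.  Proof.  TS5.  FWD for all the sums `FWS` (linear in `F`, because `mob` is; `κ_a = pr a (c σ d) ∈ a`, PRB (5)).  The terms with `LL B (etl ..)`: for the differences `F^{cd} - F^{c_a d}` they cancel; for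
`- cS a FWS σ a F^{cd}` they give `+ cS a x₁(κ_a⁻¹) x₂((σ⁻¹ κ_a)⁻¹)/ℓ² LL B (etl a κ_a ⊥)`, the last sum of `MNE`, where only the `σ` with `c σ d ≠ 1` occur: if `c σ d = 1` then `c σ d ∈ a`, there
is no such `a`.  The terms with `SE1` are in `RM M` (WTA, the coefficients are in `ℓ⁻² Rl ℓ`).  The terms with `LW`, and DAV for `DAS`: the sum is the one of DVS for `Λ = LW`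
(WTA (3)), in `RM M`.  `n = ℓ ^ r`, `0 < r`, from `PE.pw`.

PPC.  Proof.  As `SO.PpcStmt` (`Helper79_ASO` or the file of row PPC in squad ASO): choose `K₀` with `ℓ^K₀ mob F₁₃ L`, `ℓ^K₀ mob F₁₂ L ∈ Rl ℓ` for all `L`; `ux U W x`, `cS` (for `W ≠ ⊥`) are in
`1 + ℓ Rl ℓ`, they and their inverses are congruent modulo `ℓ^K` for `U`, `U'`; `N13`, `N12` are integers; `M13`, `M12` for `fx`, `fx'` are EQUAL (only the values `fx W g` with `g ∈ E₀`, `mp g W = W`, `|W| = ℓ` occur: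
`M13`: `g = w.1⁻¹ w.2.1`, `mp g (pL L) = pL L`), but they need not be in `Rl ℓ`: choose `K₀` such that `ℓ^K₀ mob F L M12 κ L`, `ℓ^K₀ mob F L M13 L` are in `Rl ℓ`, too (finitely many rational numbers, `fx` is given
before `K₀`). -/

end Pool.Agent.PP.SE
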