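import Pool.Agent.ASE.StmtsX
import Pool.Agent.ASO.StmtsH2
import Pool.Agent.ATZ.Stmts1

/-!
# Squad ASE, block R, statements 6: heights, the sums over the block

Text: `Pool/Agent/ASE/AWC_SOE.md`, section 6.  Output: `HseStmt` (`StmtsX.lean`).  Complete proofs in the
docstrings.  The rows HLNK, HIXE, HOMR, HFCE, HTA, HRAT, HL12, HFRO, HFPR of squad ASO (`ASO/StmtsH.lean`)
are for all `Sb`; they are proved (`Helper66_ASO/AsmH.lean`: `SO.hlnk_`, `SO.hixe_`, ...), and so are the rows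
of AT5 and ATZ which are used (`Helper11_ZAS/AsmZ.lean`: `T5.deg_`, `T5.inq_`, `T5.pr5_`, `TB.nzf_`).
`Es E₀ c` is the stabiliser of `c`, `nE E₀ c = |E₀|/|Es E₀ c|`, `kE E₀ c = |Es E₀ c|`.
-/

open scoped BigOperators

noncomputable section

namespace Pool.Agent.PP.SE

open Pool.Agent.Helper51_AWC Pool.Agent.Helper79_WRA Pool.Agent.PP Pool.Agent.PP.KF
open Pool.Agent.PP.K9 Pool.Agent.PP.K9.H97 Pool.Agent.PP.H75 Pool.Agent.PP.T3 Pool.Agent.PP.SO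
open Pool.Agent.PP.SD

attribute [local instance] Ideal.Quotient.field

/-! ## 1. Heights -/

/-- HZA: there is a character of height zero.

Proof.  For `χ` in `e` let `a_χ = |V| χ(1)/|G|`, a positive rational number (`χ(1)` is a positive integer), in
`RM M` (`T5.DegStmt`), so in `Rl ℓ` (`SO.H45.rat_RM`).  Suppose that `1/a_χ` is not in `RM M`, for all `χ` in `e`.
Then `ℓ` divides the numerator of `a_χ` (otherwise `1/a_χ` is in `Rl ℓ`), so `a_χ/ℓ` is in `RM M`, for all `χ` in `e`.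
Let `f(h) = (|V|/ℓ) eh M e h`: a class function, zero at the elements which are not regular (`eh_sing`,
`K9.WboStmt`), and for `χ ∈ Irr G` let `κ(h) = χ(h⁻¹)`, the conjugate of `χ`, in `Irr G` again:
`|G|⁻¹ ∑_h f(h) χ(h⁻¹) = (|V|/(ℓ |G|)) ∑_h eh M e h κ(h)`, and the last sum is `κ(1)` if `κ` is in `e` and `0`
otherwise (`eh_chv`); so this is `a_κ/ℓ` or `0`, in `RM M`.  By `SO.PrjStmt` `f(s)/|C(s)| ∈ RM M` for all `s`.  Take for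
`s` the element `y` of `K9.FmgStmt`: `y ∈ C(V)`, `e y ≠ 0`, `ℓ` does not divide `|C(y) : V|`.  Then `V ≤ C(y)`,
`|C(y)| = |V| m`, `ℓ` does not divide `m`, so `eh M e y/ℓ = m f(y)/|C(y)| ∈ RM M`.  `eh M e y` is in `RM M` and has the
residue `e y ≠ 0` (`KF.IdmStmt`), so its inverse is in `RM M` and `1/ℓ ∈ RM M`, a contradiction (the residue of
`ℓ` is `0`).  (`NZM`, `Helper23_AT5/NZM.lean`, has tools of this kind.) -/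
def HzaStmt : Prop := ∀ (ℓ : ℕ) [Fact ℓ.Prime] (M : Ideal (integralClosure ℤ ℂ)) [M.IsMaximal],
  (ℓ : integralClosure ℤ ℂ) ∈ M → ∀ (G : Type) [Group G] [Finite G] (e : G → FF M), IsBlk e →
  ∀ V : Subgroup G, Tp ℓ e V → ∃ χ ∈ IrrE M e, (Nat.card G : ℂ) / (Nat.card V * χ 1) ∈ RM M

/-- RXE: the numbers `|G| rip(χ, ψ)/χ(1)` and the central character.

Proof.  `TB.H3.gen` (`Helper3_ATZ/XCH.lean`) for `C = ⊤` and `w(g) = conj ψ(g)` if `g` is regular, `w(g) = 0`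
otherwise (a class function with values in `RM M`: the values of `conj ψ(g) = ψ(g⁻¹)` are algebraic
integers): `chv w χ = ∑ w(g) χ(g) = |G| rip ℓ χ ψ`. -/
def RxeStmt : Prop := ∀ (ℓ : ℕ) [Fact ℓ.Prime] (M : Ideal (integralClosure ℤ ℂ)) [M.IsMaximal],
  (ℓ : integralClosure ℤ ℂ) ∈ M → ∀ (G : Type) [Group G] [Finite G] (e : G → FF M), IsBlk e →
  ∀ ψ ∈ Irr G, ∀ χ ∈ IrrE M e, (Nat.card G : ℂ) * T5.rip ℓ χ ψ / χ 1 ∈ RM M ∧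
    ∀ χ' ∈ IrrE M e, rr M ((Nat.card G : ℂ) * T5.rip ℓ χ ψ / χ 1) =
      rr M ((Nat.card G : ℂ) * T5.rip ℓ χ' ψ / χ' 1)

/-- HTE: the heights are zero.

Proof.  `V = i(V₀)`, `|V| = ℓ ^ 2`, `e = B.e`.  For `χ` in `e` let `a_χ = ℓ² χ(1)/|G|`, a positive rational number
in `RM M` (`T5.DegStmt`; `B.ld` gives `Tp`), and for `χ`, `ψ` in `e` let `r(χ, ψ) = |G| rip(χ, ψ)/χ(1)`, in `RM M`,
with a residue which does not depend on `χ` (RXE).  `ℓ² rip(χ, ψ)` is an integer (`T5.InqStmt`), and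
`rip(ψ, χ) = conj rip(χ, ψ)`, so `rip(ψ, χ) = rip(χ, ψ)` and `r(χ, ψ) χ(1) = r(ψ, χ) ψ(1)`.
(1) Let `χ₀` be as in HZA, so `1/a_χ₀ ∈ RM M`, and `ψ` in `e` as in `TB.NzfStmt` (`N` from `T5.Pr5Stmt`): the residue of
`r(χ, ψ)` is not `0` for all `χ` in `e`, so `r(χ, ψ)⁻¹` is in `RM M`.  `χ₀(1)/ψ(1) = r(ψ, χ₀) r(χ₀, ψ)⁻¹ ∈ RM M`, so
`1/a_ψ = (1/a_χ₀) χ₀(1)/ψ(1) ∈ RM M`.
(2) Let `χ` be in `e` and suppose that `1/a_χ` is not in `RM M`.  As in HZA `a_χ = ℓ u`, `u` rational in `RM M`.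
`r(ψ, χ) = r(χ, ψ) χ(1)/ψ(1) = r(χ, ψ) a_χ (1/a_ψ)` has residue `0`, so (RXE) `r(χ, χ)` has residue `0`.  The
integer `n = ℓ² rip(χ, χ) = a_χ r(χ, χ) = ℓ (u r(χ, χ))`: `n/ℓ` is in `RM M`, so `n = ℓ n'` with an integer `n'`
(`SO.H45.rat_RM`), and `n' = u r(χ, χ)` has residue `0`, so `ℓ` divides `n'` (`KF.dvd_of_rr`) and
`ℓ²` divides `n`, i.e. `rip(χ, χ) = n/ℓ²` is an integer.  But `|G| rip(χ, χ) = ∑ |χ(s)|²`, `s` over the regular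
elements, is `≥ χ(1)² > 0`, and smaller than `∑_g |χ(g)|² = |G|`, because `χ(g) ≠ 0` for some `g` which is not
regular: let `c ≠ 1` in `V₀`; the residue of `cv (fc B ⊥ c) χ` is `nE E₀ c ≠ 0` (`SO.HOmrStmt`, `SO.HIxeStmt`: `nE E₀ c`
divides `|E₀|`), so `gv M (Cu (i c)) (i c) (b ⟨c⟩) χ ≠ 0` (`SO.HLnkStmt`), a sum over the regular elements `t` of
`C(i c)` of numbers times `χ(i(c) t)`, and `i(c) t` is not regular.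
(3) So `1/a_χ ∈ RM M` for all `χ` in `e`; the rational number `1/a_χ = |G|/(ℓ² χ(1)) = x/y` in lowest terms has
`x`, `y` prime to `ℓ` (it and its inverse are in `Rl ℓ`). -/
def HteStmt : Prop := ∀ (ℓ : ℕ) [Fact ℓ.Prime] (M : Ideal (integralClosure ℤ ℂ)) [M.IsMaximal],
  (ℓ : integralClosure ℤ ℂ) ∈ M → ∀ (V₀ G : Type) [CommGroup V₀] [Finite V₀] [Group G] [Finite G]
  (E₀ : Subgroup (MulAut V₀)), (∀ v : V₀, v ^ ℓ = 1) → Nat.card V₀ = ℓ ^ 2 →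
  ∀ B : Bk (FF M) V₀ G, Sb ℓ M E₀ B → ∀ χ ∈ IrrE M B.e,
    (Nat.card G : ℂ) / ((ℓ : ℂ) ^ 2 * χ 1) ∈ RM M ∧
    ∃ x y : ℕ, ¬ ℓ ∣ x ∧ ¬ ℓ ∣ y ∧ (y : ℂ) * Nat.card G = ℓ ^ 2 * χ 1 * x

/-! ## 2. The labels `mn` -/

/-- HSG: the relations for `L1`, `L2`.

Proof.  This is HSM (`Helper45_ASO/HSM.lean`) without a regular element: HKB was only used for the finiteness
of the block (it is finite, `irrE_finite`) and for `k ≤ ℓ²`, HTZ is replaced by HTE.  The proof of HSM can be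
copied: (ii) HRAT for `c` and `d`: `W_c(χ) = ∑_t cv (f_(c^t)) χ`, `(W_c + n_c)(W_d + n_d) = ℓ² q q'`; add over the
block.  (iii) HFRO, HFPR, HTE: `∑_c cv (f_c) χ/n_c = (∑_u χ(u)/lpG) (lpG/χ(1))` and `lpG/χ(1)` is `ℓ²` times a unit of
`Rl ℓ`, so the sum is `ℓ²` times an element of `RM M`; it is rational (HRAT, HFCE).  Multiply with `|E₀|`
(`|E₀|/n_c = |Es E₀ c|`, HIXE) and add over `χ`. -/
def HsgStmt : Prop := ∀ (ℓ : ℕ) [Fact ℓ.Prime] (M : Ideal (integralClosure ℤ ℂ)) [M.IsMaximal],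
  (ℓ : integralClosure ℤ ℂ) ∈ M → ∀ (V₀ G : Type) [CommGroup V₀] [Finite V₀] [Group G] [Finite G]
  (E₀ : Subgroup (MulAut V₀)), (∀ v : V₀, v ^ ℓ = 1) → Nat.card V₀ = ℓ ^ 2 →
  ∀ B : Bk (FF M) V₀ G, Sb ℓ M E₀ B →
  (∀ c d : V₀, c ≠ 1 → d ≠ 1 → ∃ q ∈ SOR.Rl ℓ,
    ∑ t ∈ Finset.Icc 1 (ℓ - 1), ∑ s ∈ Finset.Icc 1 (ℓ - 1), L2 B (c ^ t) (d ^ s) +
      nE E₀ d * ∑ t ∈ Finset.Icc 1 (ℓ - 1), L1 B (c ^ t) +
      nE E₀ c * ∑ s ∈ Finset.Icc 1 (ℓ - 1), L1 B (d ^ s) +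
      nE E₀ c * nE E₀ d * (IrrE M B.e).ncard = ((ℓ ^ 2 * q : ℚ) : ℂ)) ∧
  ∃ q ∈ SOR.Rl ℓ, ∑ᶠ c : V₀, Nat.card (Es E₀ c) * L1 B c = ((ℓ ^ 2 * q : ℚ) : ℂ)

/-! ## 3. The labels `et` -/

/-- ETM: the central characters at the induced elements.

Proof.  `C = B.C a`, `z = tk B κ (D.et a)`.  For `κ ∈ a` the element `i(κ)` is central in `C` (it is in `C` because
`V₀` is commutative).  (1) `ψ ∈ Ch B a`: `ψ` restricted to `C` is irreducible, so `ψ(i(κ) g) = nu B ψ κ · ψ(g)` for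
`g ∈ C` (Schur; for `g ∉ C` both sides are `0`), and `∑_g z(g) ψ(g) = ∑_g et(g) ψ(i(κ) g)`.
(2) `z` is `0` outside of `C` (`Cz.sup`) and invariant under conjugation with `C` (`Cz.cls`, `i(κ)` central in
`C`).  `a ≠ ⊥`, so by definition `etl B D a κ ⊥ g = |C|⁻¹ ∑_h z(h⁻¹ g h)` and, `χ` a class function,
`cv (etl B D a κ ⊥) χ = (|G|/(|C| χ(1))) ∑_g z(g) χ(g)`.  The restriction of `χ` to `C` is `∑_ψ m_ψ ψ`, `ψ ∈ Irr C`, with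
natural numbers `m_ψ` (`K9.AdaStmt`, or the restriction is a character), so `∑_g z(g) χ(g) =
∑_ψ m_ψ ψ(1) cv z ψ` (`ψ` extended by zero).  For `ψ` not in `Ch B a`: `cv z ψ = ω cv (D.et a) ψ = 0` (the computation of
(1), `Cz.blk`).  For `ψ ∈ Ch B a`: (1).  `m` depends on `χ` only. -/
def EtmStmt : Prop := ∀ (ℓ : ℕ) [Fact ℓ.Prime] (M : Ideal (integralClosure ℤ ℂ)) [M.IsMaximal],
  (ℓ : integralClosure ℤ ℂ) ∈ M → ∀ (V₀ G : Type) [CommGroup V₀] [Finite V₀] [Group G] [Finite G]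
  (B : Bk (FF M) V₀ G) (D : Rd V₀ G) (a : Subgroup V₀), a ≠ ⊥ → Cz B a (D.et a) →
  (∀ ψ ∈ Ch B a, ∀ κ ∈ a, cv (tk B κ (D.et a)) ψ = nu B ψ κ * cv (D.et a) ψ) ∧
  ∀ χ ∈ Irr G, ∃ m : (G → ℂ) → ℕ, ∀ κ ∈ a, cv (etl B D a κ ⊥) χ =
    (Nat.card G : ℂ) / (Nat.card (B.C a) * χ 1) *
      ∑ᶠ ψ ∈ Ch B a, (m ψ : ℂ) * (ψ 1 * (nu B ψ κ * cv (D.et a) ψ))

/-- ETC: congruences for the central characters.

Proof.  `C = B.C a`.  By ETM `cv (etl B D a κ ⊥) χ` is the sum over `ψ ∈ Ch B a` (finite) of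
`[|G|/(ℓ² χ(1))] [ℓ² ψ(1)/|C|] m_ψ nu_ψ(κ) cv (D.et a) ψ`; the first factor is in `RM M` by HTE, the second by `Rs.h1`,
`nu_ψ(κ)` is a root of unity (`ψ` is irreducible and `i(κ)` is central in `C`, `κ ^ ℓ = 1`), in `RM M`, and
`cv (D.et a) ψ/ℓ` is in `RM M` (`Rs.e4`).  This is the first claim.  `κ ↦ nu_ψ(κ)` is a homomorphism on `a`, so if
`|a| = ℓ` the sum `∑_{κ ∈ a} nu_ψ(κ)` is `0` or `ℓ`, and the sum over `κ` has one more factor `ℓ`. -/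
def EtcStmt : Prop := ∀ (ℓ : ℕ) [Fact ℓ.Prime] (M : Ideal (integralClosure ℤ ℂ)) [M.IsMaximal],
  (ℓ : integralClosure ℤ ℂ) ∈ M → ∀ (V₀ G : Type) [CommGroup V₀] [Finite V₀] [Group G] [Finite G]
  (E₀ : Subgroup (MulAut V₀)), Fq ℓ V₀ E₀ → ∀ B : Bk (FF M) V₀ G, Sb ℓ M E₀ B →
  ∀ D : Rd V₀ G, Rs ℓ E₀ B D → ∀ a : Subgroup V₀, a ≠ ⊥ → ∀ χ ∈ IrrE M B.e,
  (∀ κ ∈ a, cv (etl B D a κ ⊥) χ / (ℓ : ℂ) ∈ RM M) ∧
  (Nat.card a = ℓ → (∑ᶠ κ ∈ a, cv (etl B D a κ ⊥) χ) / (ℓ : ℂ) ^ 2 ∈ RM M)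

/-- ETG: invariance under the powers prime to `ℓ`.

Proof.  As the invariance in HL12 (`Helper15_ASO/HL12.lean`, tools `sum_pm`, `pm_mem`, `reg_pow_fix`, `zp_eq`).  `N` as
in `T3.PrmStmt`: it acts trivially on the regular elements, and some power `N' = N ^ k` acts on the
`ℓ`-elements as `j`; `χ ↦ χ' = χ(· ^ N')` is a bijection of `IrrE M B.e` (`T3.RtcStmt`; injective because
`g ↦ g ^ N'` is a bijection of `G`, the set is finite), `χ'(1) = χ(1)`.  `etl B D a κ ⊥` is induced from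
`z = tk B κ (D.et a)`: `∑_g etl(g) χ(g) = (|G|/|C|) ∑_{s} et(s) χ(i(κ) s)`, `C = B.C a`, `s` over the regular elements of
`C` (`Rs.e2`, `Cz.sup`), and `(i(κ) s) ^ N' = i(κ ^ j) s` (`s` commutes with `i(κ)`), so
`cv (etl B D a (κ ^ j) ⊥) χ = cv (etl B D a κ ⊥) χ'`.  In the same way `cv (fc B ⊥ (d ^ j)) χ = cv (fc B ⊥ d) χ'` (this is
in HL12; `HLnkStmt`).  Add over the block. -/
def EtgStmt : Prop := ∀ (ℓ : ℕ) [Fact ℓ.Prime] (M : Ideal (integralClosure ℤ ℂ)) [M.IsMaximal],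
  (ℓ : integralClosure ℤ ℂ) ∈ M → ℓ ≠ 2 → ∀ (V₀ G : Type) [CommGroup V₀] [Finite V₀] [Group G]
  [Finite G] (E₀ : Subgroup (MulAut V₀)), Fq ℓ V₀ E₀ → ∀ B : Bk (FF M) V₀ G, Sb ℓ M E₀ B →
  ∀ D : Rd V₀ G, Rs ℓ E₀ B D → ∀ a : Subgroup V₀, a ≠ ⊥ → ∀ κ ∈ a, ∀ j : ℕ, ¬ ℓ ∣ j →
  LL B (etl B D a (κ ^ j) ⊥) = LL B (etl B D a κ ⊥) ∧ ∀ d : V₀,
    NN B (etl B D a (κ ^ j) ⊥) (fc B ⊥ (d ^ j)) = NN B (etl B D a κ ⊥) (fc B ⊥ d)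

/-- ETQ: the sums over the block are rational.

Proof.  Let `ζ` be a primitive `ℓ`-th root of unity.  For `ψ ∈ Ch B a` `nu_ψ(κ) = ζ ^ k(ψ)` (`i(κ)` is central in `B.C a`
and `κ ^ ℓ = 1`) and `nu_ψ(κ ^ j) = ζ ^ (k(ψ) j)`, so by ETM `cv (etl B D a (κ ^ j) ⊥) χ = ∑_{k<ℓ} a_k ζ ^ (k j)` for all
`j`, with rational `a_k` (`Rs.e9`; the degrees are natural numbers).  In the same way `cv (fc B ⊥ (d ^ j)) χ =
∑_{k<ℓ} b_k ζ ^ (k j)` for `ℓ ∤ j`, `b_k` rational (`SO.H15.gv_exp`, `HLnkStmt` for `d ^ j`: `⟨d ^ j⟩ = ⟨d⟩`; see HL12).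
So `LL (etl (κ ^ j))` and `NN (etl (κ ^ j)) (fc (d ^ j))` are of this form (add over the block), their sum over
`j = 1, …, ℓ - 1` is rational (`∑_j ζ ^ (k j)` is `ℓ - 1` or `- 1`), and all terms are equal (ETG). -/
def EtqStmt : Prop := ∀ (ℓ : ℕ) [Fact ℓ.Prime] (M : Ideal (integralClosure ℤ ℂ)) [M.IsMaximal],
  (ℓ : integralClosure ℤ ℂ) ∈ M → ℓ ≠ 2 → ∀ (V₀ G : Type) [CommGroup V₀] [Finite V₀] [Group G]
  [Finite G] (E₀ : Subgroup (MulAut V₀)), Fq ℓ V₀ E₀ → ∀ B : Bk (FF M) V₀ G, Sb ℓ M E₀ B →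
  ∀ D : Rd V₀ G, Rs ℓ E₀ B D → ∀ a : Subgroup V₀, a ≠ ⊥ → ∀ κ ∈ a,
  (∃ q : ℚ, LL B (etl B D a κ ⊥) = (q : ℂ)) ∧
    ∀ d : V₀, ∃ q : ℚ, NN B (etl B D a κ ⊥) (fc B ⊥ d) = (q : ℂ)

/-- ETS: the relations for the labels `et`.

Proof.  The block is finite; `cv (mnl E₀ B d ⊥) χ = kE E₀ d · cv (fc B ⊥ d) χ` (`⊥ ≤ ⟨d⟩`), in `RM M` (HOMR).
(1), (3): ETC.  (2): `|a| = ℓ` (`RL`).  If `κ = 1` clear.  Otherwise `a = {1, κ, …, κ ^ (ℓ - 1)}`, and by ETG and ETC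
(added over the block) `LL (etl 1) + (ℓ - 1) LL (etl κ) ∈ ℓ² RM M`, and `LL (etl κ) ∈ ℓ RM M`, so
`LL (etl 1) - LL (etl κ) ∈ ℓ² RM M`.  (4) For `χ` in the block `∑_s cv (mnl (d ^ s)) χ = - |E₀| + ℓ q_χ`, `q_χ ∈ Rl ℓ`
(HRAT times `kE E₀ d`; `kE E₀ (d ^ s) = kE E₀ d`, `kE E₀ d · nE E₀ d = |E₀|`, HIXE), so the double sum is
`∑_χ (∑_t cv (etl (κ ^ t)) χ) (- |E₀| + ℓ q_χ)`; the terms with `ℓ q_χ` are in `ℓ² RM M` (ETC), and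
`- |E₀| ∑_t LL (etl (κ ^ t)) = - |E₀| (ℓ - 1) LL (etl 1)` modulo `ℓ² RM M` by (2), `= |E₀| LL (etl 1)` modulo
`ℓ² RM M` by (1). -/
def EtsStmt : Prop := ∀ (ℓ : ℕ) [Fact ℓ.Prime] (M : Ideal (integralClosure ℤ ℂ)) [M.IsMaximal],
  (ℓ : integralClosure ℤ ℂ) ∈ M → ℓ ≠ 2 → ∀ (V₀ G : Type) [CommGroup V₀] [Finite V₀] [Group G]
  [Finite G] (E₀ : Subgroup (MulAut V₀)), Fq ℓ V₀ E₀ → ∀ B : Bk (FF M) V₀ G, Sb ℓ M E₀ B →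
  ∀ D : Rd V₀ G, Rs ℓ E₀ B D → ∀ a ∈ RL ℓ E₀, ∀ κ ∈ a,
  LL B (etl B D a κ ⊥) / (ℓ : ℂ) ∈ RM M ∧
  (LL B (etl B D a κ ⊥) - LL B (etl B D a 1 ⊥)) / (ℓ : ℂ) ^ 2 ∈ RM M ∧
  ∀ d : V₀, d ≠ 1 → NN B (etl B D a κ ⊥) (mnl E₀ B d ⊥) / (ℓ : ℂ) ∈ RM M ∧
    (∑ t ∈ Finset.Icc 1 (ℓ - 1), ∑ s ∈ Finset.Icc 1 (ℓ - 1),
      NN B (etl B D a (κ ^ t) ⊥) (mnl E₀ B (d ^ s) ⊥) -
        Nat.card E₀ * LL B (etl B D a 1 ⊥)) / (ℓ : ℂ) ^ 2 ∈ RM M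

end Pool.Agent.PP.SE
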