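import Pool.Agent.ASE.StmtsX
import Pool.Agent.ASD.Stmts8
import Pool.Agent.ASD.Stmts6

/-!
# Squad ASE, statements 8: the inertial group, fixed characters, the final deduction

Sections 8 and 9 of `Pool/Agent/ASE/AWC_SOE.md`, the part without the comparison group (`Stmts9.lean`).
Complete proofs in the docstrings.  `TE B E'` is the preimage of `E' ≤ E₀` in the inertial group,
`Lam B E'` the number of its irreducible modular characters in `g`.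
-/

open scoped BigOperators

noncomputable section

namespace Pool.Agent.PP.SE

open Pool.Agent.Helper51_AWC Pool.Agent.Helper79_WRA Pool.Agent.PP Pool.Agent.PP.KF
open Pool.Agent.PP.K9 Pool.Agent.PP.K9.H97 Pool.Agent.PP.H75 Pool.Agent.PP.T3 Pool.Agent.PP.SO
open Pool.Agent.PP.SD

attribute [local instance] Ideal.Quotient.field

/-! ## 0. Definitions (`TE`, `Lam` are in `StmtsX.lean`) -/

section fix

variable {V₀ G : Type} [CommGroup V₀] [Group G] {M : Ideal (integralClosure ℤ ℂ)} [M.IsMaximal]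

/-- the number of the characters of the block `b W` which are fixed by `σ` -/
def FixC (B : Bk (FF M) V₀ G) (W : Subgroup V₀) (σ : MulAut V₀) : ℕ :=
  {χ | χ ∈ Ch B W ∧ ac B σ χ = χ}.ncard

end fix

/-! ## 1. The inertial group and the local blocks -/

/-- XWD: the block `b W` of the group `T_(E₁) C(W)`.

Proof.  As INA (`ASD/Stmts6.lean`), where `T_(E₁) C(W)` is the whole stabiliser of the subpair.  `E₁` maps `W` onto
itself, so `TE B E₁` normalises `C W` and fixes `b W` (CJD (1)); `X = TE B E₁ ⊔ C W = j(H)` consists of the products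
`t c`.  `e' = b W ∘ j`, `g' = g ∘ j`, `i'` with `j i' = i` (`i(V₀) ≤ C W`).  (1) `e'` is a block of `H`: `i'(W)` is a normal
`ℓ`-subgroup of `H` with centraliser `j⁻¹(C W)`, see INA (1).  (2) `Ld ℓ e' i'.range g'`: see INA (2).
(3) The inertial group of `(i'.range, g')` is `j⁻¹(T ∩ X)`, and `T ∩ X = TE B E₁`: if `t c ∈ T`, `t ∈ TE B E₁`, `c ∈ C W`,
then `c ∈ T ∩ C W = TE B (St E₀ W) ≤ TE B E₁`.  It induces exactly the `σ ∈ E₁`: SYD (`Fq ℓ V₀ E₁` since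
`|E₁|` divides `|E₀|`).  (4) `Pr W B B' j`: see INA (4).  (5) `Lam`: `j` maps `TE B' E''` onto `TE B E''`, and
`B'.g = B.g ∘ j`; transport `ln`. -/
def XwdStmt : Prop := ∀ (ℓ : ℕ) [Fact ℓ.Prime] (M : Ideal (integralClosure ℤ ℂ)) [M.IsMaximal],
  (ℓ : integralClosure ℤ ℂ) ∈ M → ℓ ≠ 2 → ∀ (V₀ G H : Type) [CommGroup V₀] [Finite V₀] [Group G]
  [Finite G] [Group H] [Finite H] (E₀ : Subgroup (MulAut V₀)), Fq ℓ V₀ E₀ →
  ∀ B : Bk (FF M) V₀ G, Sb ℓ M E₀ B → ∀ W : Subgroup V₀, W ≠ ⊥ → ∀ E₁ : Subgroup (MulAut V₀),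
  E₁ ≤ E₀ → St E₀ W ≤ E₁ → (∀ σ ∈ E₁, ∀ w ∈ W, σ w ∈ W) → ∀ j : H →* G, Function.Injective j →
  j.range = TE B E₁ ⊔ B.C W →
  Fq ℓ V₀ E₁ ∧ ∃ B' : Bk (FF M) V₀ H, Sd ℓ M E₁ B' ∧ Pr W B B' j ∧
    (∀ h, B'.e h = B.b W (j h)) ∧ (W.map B'.i).Normal ∧ (∀ h, j h ∈ TE B E₁ ↔ h ∈ TE B' E₁) ∧
    ∀ E₂ ≤ E₁, Lam B' E₂ = Lam B E₂

/-- LMB: the numbers of modular characters of the local blocks.

Proof.  `TE B E₀ = Tg B.i.range B.g` (`act`), so `Lam B E₀ = lT B` and (2), (3) are LNH, LNN.  (1): RDA gives the datum `B_W` of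
`C W` with `St E₀ W`; `i(W)` is central in `C W`, so LNH gives `ln (b W) = lT B_W`, and the inertial group of `B_W` is
`T ∩ C W = TE B (St E₀ W)` (an element of `T` acts on `V` by some `σ ∈ E₀`, it is in `C W` iff `σ ∈ St E₀ W`); transport `ln`.
(4): KLD; the term of `v = 1` is `|E₀| ln e` (`Es E₀ 1 = E₀`, `b ⊥ = e`: `C ⊥ = ⊤`, a block of `G` under `e`), the others are given
by (1) (`St E₀ ⟨v⟩ = Es E₀ v`).  (5): `K9.LbdStmt`; `g` restricted to `TE B E'` is an idempotent, not `0`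
(`TE B E' ≤ T` stabilises `g`, `C(V) ≤ TE B E'`). -/
def LmbStmt : Prop := ∀ (ℓ : ℕ) [Fact ℓ.Prime] (M : Ideal (integralClosure ℤ ℂ)) [M.IsMaximal],
  (ℓ : integralClosure ℤ ℂ) ∈ M → ℓ ≠ 2 → ∀ (V₀ G : Type) [CommGroup V₀] [Finite V₀] [Group G]
  [Finite G] (E₀ : Subgroup (MulAut V₀)), Fq ℓ V₀ E₀ → ∀ B : Bk (FF M) V₀ G, Sb ℓ M E₀ B →
  (∀ W, W ≠ ⊥ → ln (fun t : B.C W => B.b W t) = Lam B (St E₀ W)) ∧
  (∀ W : Subgroup V₀, W ≠ ⊥ → (W.map B.i).Normal → ln B.e = Lam B E₀) ∧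
  ln (fun t : Subgroup.normalizer (B.i.range : Set G) => br B.i.range B.e t) = Lam B E₀ ∧
  Nat.card E₀ * (IrrE M B.e).ncard = Nat.card E₀ * ln B.e +
    ∑ᶠ v ∈ {v : V₀ | v ≠ 1}, Nat.card (Es E₀ v) * Lam B (Es E₀ v) ∧
  ∀ E' ≤ E₀, 1 ≤ Lam B E'

/-! ## 2. Fixed characters -/

/-- F1S: the number of the characters of a group with a cyclic quotient.

Proof.  `b^` = the lift of `b` (`eh M b`, the same for `X` and for `N`, extended by zero), a class function of `X`.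
(1) `|X| k = ∑_(x, y ∈ X) b^([x, y])`, `k = |IrrE M b|`: `b^(z) = ∑_(χ ∈ b) (χ 1/|X|) χ(z⁻¹)`, `∑_(x, y) χ([x, y]) = |X|²/χ 1`.
(2) Let `X/N` be generated by the image of `t`, `m = |X/N|`, `S(i, j)` the sum over `x ∈ t^i N`, `y ∈ t^j N`.  The
substitutions `(x, y) ↦ (x y, y)` (`[x y, y] = [x, y]`) and `(x, y) ↦ (x, x y)` (`[x, x y] = x [x, y] x⁻¹`) show
`S(i, j) = S(i + j, j) = S(i, i + j)`, so by Euclid's algorithm `S(i, j) = S(d, 0)`, `d` = gcd of `i`, `j`, `m`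
(first make `i, j ≥ 0` and reduce; `S` depends on `i`, `j` modulo `m`).
(3) `S(i, 0) = |N| #{χ ∈ IrrE M (b|N) : χ fixed by t^i}`: let `τ(n) = t^i n t^(-i)`; with `x = t^i n`:
`∑_(n, y ∈ N) b^(τ(n y n⁻¹) y⁻¹)`, `b^ = ∑_χ (χ 1/|N|) χ(·⁻¹)`, and for every `χ ∈ IrrE M (b|N)`
`∑_(n, y) χ(y τ(n y⁻¹ n⁻¹)) = ∑_y |N| χ(y) χ(τ y⁻¹)/χ 1 = (|N|²/χ 1) [χ ∘ τ = χ]`.
(4) A character is fixed by `t^i` and `t^j` iff it is fixed by `t^d` (`N` acts trivially); so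
`|X| k = ∑_(i, j < m) |N| #Fix(t^i, t^j)`, and `∑_(x, y ∈ X) #Fix(x, y) = |N|² ∑_(i, j) #Fix(t^i, t^j)`. -/
def F1sStmt : Prop := ∀ (ℓ : ℕ) [Fact ℓ.Prime] (M : Ideal (integralClosure ℤ ℂ)) [M.IsMaximal],
  (ℓ : integralClosure ℤ ℂ) ∈ M → ∀ (X : Type) [Group X] [Finite X] (N : Subgroup X), N.Normal →
  (∃ t : X, ∀ x : X, ∃ i : ℕ, (t ^ i)⁻¹ * x ∈ N) → ∀ b : X → FF M, (∀ x, x ∉ N → b x = 0) →
  (∀ x y, b (x * y * x⁻¹) = b y) → IsIdem (fun t : N => b t) →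
  Nat.card X * Nat.card N * (IrrE M b).ncard = ∑ᶠ w : X × X,
    {χ : X → ℂ | (∀ x, x ∉ N → χ x = 0) ∧ (fun t : N => χ t) ∈ IrrE M (fun t : N => b t) ∧
      (∀ y, χ (w.1 * y * w.1⁻¹) = χ y) ∧ ∀ y, χ (w.2 * y * w.2⁻¹) = χ y}.ncard

/-- CHG: the characters of `g` which are fixed by two elements of the inertial group.

Proof.  NSD for `W = ⊤` (`Rw E₀ ⊤`, RWD; a datum with `Sd` and the same `e`, `g`, `i`: SYD, `b ⊤ = g`): `lam` is a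
bijection of `Ch B ⊤` onto `lin V₀`, `cv (fc B ⊤ x) χ = lam χ x` (`ux ⊤ = 1`), i.e. `χ(i x) = χ 1 · lam χ x`
(`fc B ⊤ x = i(x) g^`).  So `lam (t.χ) = lam χ ∘ σ⁻¹` if `t` induces `σ`, and `χ` is fixed by `t` iff `lam χ ∘ σ = lam χ`.
The `λ ∈ lin V₀` fixed by `σ` and `τ` are the ones which are trivial on the subgroup `Y` generated by
the `σ(v) v⁻¹`, `τ(v) v⁻¹`; their number is `|V₀ : Y|`, and `V₀ = Y × C(σ, τ)` since the group generated by `σ`, `τ` has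
order prime to `ℓ` (averages), so it is the number of the `v` fixed by `σ` and `τ`. -/
def ChgStmt : Prop := ∀ (ℓ : ℕ) [Fact ℓ.Prime] (M : Ideal (integralClosure ℤ ℂ)) [M.IsMaximal],
  (ℓ : integralClosure ℤ ℂ) ∈ M → ℓ ≠ 2 → ∀ (V₀ G : Type) [CommGroup V₀] [Finite V₀] [Group G]
  [Finite G] (E₀ : Subgroup (MulAut V₀)), Fq ℓ V₀ E₀ → ∀ B : Bk (FF M) V₀ G, Sb ℓ M E₀ B →
  ∀ σ ∈ E₀, ∀ τ ∈ E₀, ∀ t ∈ Tg B.i.range B.g, ∀ u ∈ Tg B.i.range B.g,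
  (∀ v, t * B.i v * t⁻¹ = B.i (σ v)) → (∀ v, u * B.i v * u⁻¹ = B.i (τ v)) →
  {χ | χ ∈ Ch B ⊤ ∧ (∀ y, χ (t * y * t⁻¹) = χ y) ∧ ∀ y, χ (u * y * u⁻¹) = χ y}.ncard =
    {v : V₀ | σ v = v ∧ τ v = v}.ncard

/-- LMC: `Lam` for cyclic groups.

Proof.  Induction on `|E'|`.  Let `X = TE B E'`, `N = C(V) = C ⊤` (normal in `X`, `X/N ≅ E'` cyclic).  XWD (`W = ⊤`, `E₁ = E'`,
`H = X`; `St E₀ ⊤` is trivial): a datum `B'` of `X` with `e' = g` (`b ⊤ = g`: `br_V(b ⊤) = b ⊤`), `Fq ℓ V₀ E'`.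
F1S for `X`, `N`, `b = g` and CHG: `|X| |N| k = ∑_(x, y ∈ X) #{v : v fixed by x, y} = |N|² ∑_(σ, τ ∈ E') #{v : σ v = v, τ v = v}`,
i.e. `|E'| k = ∑_v |Es E' v|²`, `k = |IrrE M (g|X)|`.  LMB (4), (2) for `B'`: `|E'| k = |E'| Lam B E' + ∑_(v ≠ 1) |Es E' v| Lam (Es E' v)`, i.e.
`∑_v |Es E' v| Lam (Es E' v) = ∑_v |Es E' v|²` (`Es E' 1 = E'`).  If `Es E' v ≠ E'` then `Lam = |Es E' v|` by induction.  The number
of the other `v` is not `0` (`v = 1`), so `Lam B E' = |E'|`. -/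
def LmcStmt : Prop := ∀ (ℓ : ℕ) [Fact ℓ.Prime] (M : Ideal (integralClosure ℤ ℂ)) [M.IsMaximal],
  (ℓ : integralClosure ℤ ℂ) ∈ M → ℓ ≠ 2 → ∀ (V₀ G : Type) [CommGroup V₀] [Finite V₀] [Group G]
  [Finite G] (E₀ : Subgroup (MulAut V₀)), Fq ℓ V₀ E₀ → ∀ B : Bk (FF M) V₀ G, Sb ℓ M E₀ B →
  ∀ ρ ∈ E₀, Lam B (Subgroup.zpowers ρ) = Nat.card (Subgroup.zpowers ρ)

/-- FXS: the sum of the numbers of fixed characters of `b W`.

Proof.  `X = TE B E₁ ⊔ C W`, `N = C W`, normal in `X` (`E₁` fixes `W`).  `X/N ≅ E₁/St E₀ W`, of order `|E₁|/n`, `n = nS E₀ W`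
(`T ∩ C W = TE B (St E₀ W)`, `|TE B E'| = |E'| |C ⊤|`), cyclic: it acts faithfully on the cyclic group `W` of prime
order.  XWD gives the datum `B'` of `X` with `e' = b W`, `E₁`; LMB (4), (2) for `B'` (`i(W)` is normal):
`|E₁| k = |E₁| Lam B E₁ + ∑_(v ≠ 1) .. = ∑_v |Es E₁ v| Lam B (Es E₁ v)`, `k = |IrrE M e'|`.  F1S for `X`, `N`, `b W`:
`|X| |N| k = ∑_(x, y ∈ X) #Fix(x, y)`; an element `x = t c` acts on `Ch B W` as `t` (`c ∈ C W`), and if `t` induces `σ` as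
`ac B σ` or its inverse (two elements of `T` which induce `σ` differ by an element of `C(V) ≤ C W`), so the sum is
`(|N|/n)² ∑_(σ, τ ∈ E₁) #Fix(σ, τ)` (every `x N` belongs to `n` elements `σ`).  `|X| = |N| |E₁|/n`.  So
`∑_(σ, τ ∈ E₁) #Fix(σ, τ) = n |E₁| k`. -/
def FxsStmt : Prop := ∀ (ℓ : ℕ) [Fact ℓ.Prime] (M : Ideal (integralClosure ℤ ℂ)) [M.IsMaximal],
  (ℓ : integralClosure ℤ ℂ) ∈ M → ℓ ≠ 2 → ∀ (V₀ G : Type) [CommGroup V₀] [Finite V₀] [Group G]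
  [Finite G] (E₀ : Subgroup (MulAut V₀)), Fq ℓ V₀ E₀ → ∀ B : Bk (FF M) V₀ G, Sb ℓ M E₀ B →
  ∀ W : Subgroup V₀, Nat.card W = ℓ → ∀ E₁ : Subgroup (MulAut V₀), E₁ ≤ E₀ → St E₀ W ≤ E₁ →
  (∀ σ ∈ E₁, ∀ w ∈ W, σ w ∈ W) →
  ∑ᶠ w : E₁ × E₁, {χ | χ ∈ Ch B W ∧ ac B w.1 χ = χ ∧ ac B w.2 χ = χ}.ncard =
    nS E₀ W * ∑ᶠ v : V₀, Nat.card (Es E₁ v) * Lam B (Es E₁ v)

/-- FXL: the numbers of fixed characters are determined by `Lam`.

Proof.  Let `N_W` be the group of the `σ ∈ E₀` with `σ W = W`; `N_W/St E₀ W` is cyclic.  Strong induction on the order of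
`E₁ = ⟨σ⟩ St E₀ W`.  The elements of `St E₀ W` act trivially on `Ch B W` (`T ∩ C W ≤ C W`; class functions), and
`ac B (σ τ) = ac B σ ∘ ac B τ` on `Ch B W` for `σ`, `τ ∈ N_W` (up to elements of `C(V)`).  So for `ρ`, `τ ∈ E₁` the number of the
characters fixed by `ρ` and `τ` is `FixC B W δ` for `δ` with `⟨δ⟩ St E₀ W = ⟨ρ, τ⟩ St E₀ W` (cyclic quotient).  FXS for `E₁`
and both data: the right sides are equal.  In the difference of the left sides the pairs `(ρ, τ)` which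
generate a proper subgroup modulo `St E₀ W` cancel by induction, the others (for example `(σ, σ)`) all give
`FixC B W σ - FixC B' W σ`; so it is `0`. -/
def FxlStmt : Prop := ∀ (ℓ : ℕ) [Fact ℓ.Prime] (M : Ideal (integralClosure ℤ ℂ)) [M.IsMaximal],
  (ℓ : integralClosure ℤ ℂ) ∈ M → ℓ ≠ 2 → ∀ (V₀ G G' : Type) [CommGroup V₀] [Finite V₀] [Group G]
  [Finite G] [Group G'] [Finite G'] (E₀ : Subgroup (MulAut V₀)), Fq ℓ V₀ E₀ →
  ∀ (B : Bk (FF M) V₀ G) (B' : Bk (FF M) V₀ G'), Sb ℓ M E₀ B → Sb ℓ M E₀ B' →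
  (∀ E' ≤ E₀, Lam B' E' = Lam B E') → ∀ W : Subgroup V₀, Nat.card W = ℓ → ∀ σ ∈ E₀,
  mp σ W = W → FixC B' W σ = FixC B W σ

/-! ## 3. The final deduction -/

/-- KCE: NOT NEEDED (replaced by `KaeStmt` of `StmtsX.lean`). -/
def KceStmt : Prop := ∀ (ℓ : ℕ) [Fact ℓ.Prime] (M : Ideal (integralClosure ℤ ℂ)) [M.IsMaximal],
  (ℓ : integralClosure ℤ ℂ) ∈ M → 5 ≤ ℓ → ∀ (V₀ G : Type) [CommGroup V₀] [Finite V₀] [Group G]
  [Finite G] (E₀ : Subgroup (MulAut V₀)), Fq ℓ V₀ E₀ → ∀ B : Bk (FF M) V₀ G, Sd ℓ M E₀ B →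
  ∃ (G' : Type) (_ : Group G') (_ : Finite G') (B' : Bk (FF M) V₀ G'), Sb ℓ M E₀ B' ∧
    (∀ E' ≤ E₀, Lam B' E' = Lam B E') ∧ ln B'.e = Lam B' E₀ ∧
    ((ℓ ^ 2 : ℕ) : ℤ) ∣ ((IrrE M B.e).ncard : ℤ) - (IrrE M B'.e).ncard

/-- YYE: the theorem for the datum of a block.

Proof (hypothesis `KaeStmt` of `StmtsX.lean`, which helper4 proves; `KceStmt` is not needed).  KAE: `ℓ ^ 2 ∣ ln e - lT B`.
`lT B = Lam B E₀ = ln (br V e | N(V))` (`TE B E₀ = Tg B.i.range B.g`; LMB (3), or LNN).  `1 ≤ ln ≤ k ≤ ℓ ^ 2` for both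
(`K9.LbdStmt`, `K9.KlStmt`; `br V e` is a block of `N(V)` with the defect group `V`, `T3.NvtStmt`), so the difference is
less than `ℓ ^ 2`: they are equal.  `K9.ChvStmt`. -/
def YyeStmt : Prop := ∀ (ℓ : ℕ) [Fact ℓ.Prime] (M : Ideal (integralClosure ℤ ℂ)) [M.IsMaximal],
  (ℓ : integralClosure ℤ ℂ) ∈ M → 5 ≤ ℓ → ∀ (V₀ G : Type) [CommGroup V₀] [Finite V₀] [Group G]
  [Finite G] (E₀ : Subgroup (MulAut V₀)), Fq ℓ V₀ E₀ → ∀ B : Bk (FF M) V₀ G, Sd ℓ M E₀ B →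
  YY ℓ ⊤ B.e = 0

/-- YYF: the theorem for block idempotents with defect groups of order `ℓ ^ 2`.

Proof.  `V` is commutative (order `ℓ ^ 2`).  There is a block `γ` of `C(V)` with `br_V(e) γ = γ` (`br_V(e) ≠ 0`), so `Ld`
(compare `T2.DzaStmt`, `K9`).  If all `v ∈ V` satisfy `v ^ ℓ = 1`: `S2fStmt` (`StmtsX.lean`; or `SD.EsdStmt`, `SD.SydStmt`, YYE).
Otherwise `V` is cyclic of order `ℓ ^ 2`: `T5.t5a_` (`Helper11_AT5/Asm5.lean`), see the end of `Helper43_ASO/FRD.lean`. -/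
def YyfStmt : Prop := ∀ (ℓ : ℕ) [Fact ℓ.Prime] (M : Ideal (integralClosure ℤ ℂ)) [M.IsMaximal],
  (ℓ : integralClosure ℤ ℂ) ∈ M → 5 ≤ ℓ → ∀ (G : Type) [Group G] [Finite G] (e : G → FF M),
  IsBlk e → ∀ V : Subgroup G, Tp ℓ e V → Nat.card V = ℓ ^ 2 → YY ℓ ⊤ e = 0

/-- FAE: the final theorem: all blocks whose defect group has order `ℓ ^ 2` modulo the central subgroup
`O_ℓ(G)`.

Proof.  The beginning of `Helper43_ASO/FRD.lean`: `e` the block of `χ`, `p : G → A = G/O_ℓ(G)`,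
`|G| altSum χ = |Z|² YY ℓ ⊤ (push p e)` (`H75.altSum_central`).  `Z = opCore ℓ G ≤ D`: see the proof of `T2.DzaStmt`
(`Helper24_AT2/DZA.lean`, `hZD`; it needs no hypothesis on `D`).  So `D/Z` has order `ℓ ^ 2`, it is commutative, and
the commutators of elements of `D` are in `Z`.  `T2.DzaStmt`: `push p e` is a block, `|D.map p| = ℓ ^ 2`, and
`Ld.tp`: `Tp ℓ (push p e) (D.map p)`.  YYF. -/
def FaeStmt : Prop := ∀ (ℓ : ℕ) [Fact ℓ.Prime] (M : Ideal (integralClosure ℤ ℂ)) [M.IsMaximal],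
  (ℓ : integralClosure ℤ ℂ) ∈ M → 5 ≤ ℓ → ∀ (G : Type) [Group G] [Finite G],
  opCore ℓ G ≤ Subgroup.center G → ∀ χ ∈ Irr G, ∀ D : Subgroup G, ML.IsDef ℓ M χ D →
  Nat.card D = ℓ ^ 2 * Nat.card (opCore ℓ G) → altSum ℓ M χ = 0

end Pool.Agent.PP.SE
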