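import Pool.Agent.ASE.Stmts8
import Pool.Agent.ASE.Stmts3
import Pool.Agent.ASO.Stmts7

/-!
# Squad ASE, statements 9: the comparison datum

Section 8.4, 8.5 of `Pool/Agent/ASE/AWC_SOE.md`.  `S` is a finite group acting on `V₀` (`φ`), `θ` an `S`-invariant
block of defect zero of `ker φ` with the character `κ` of degree `d`.  The comparison group is
`G = K ⋊ (V₀ ⋊ S)`, `K` of order prime to `ℓ` with `C_K(V₀) = 1`; `π : G → V₀ ⋊ S`, `j` the section.  The comparison datum is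
`BG φ θ d π j`: `e(x) = [(π x).left = 1] θ((π x).right)`.  Complete proofs in the docstrings.
-/

open scoped BigOperators

noncomputable section

namespace Pool.Agent.PP.SE

open Pool.Agent.Helper51_AWC Pool.Agent.Helper79_WRA Pool.Agent.PP Pool.Agent.PP.KF
open Pool.Agent.PP.K9 Pool.Agent.PP.K9.H97 Pool.Agent.PP.H75 Pool.Agent.PP.T3 Pool.Agent.PP.SO
open Pool.Agent.PP.SD

attribute [local instance] Ideal.Quotient.field

/-! ## 0. Definitions -/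

section defs

variable {F V₀ S G : Type} [CommGroup V₀] [Group S] [Group G]

/-- the subgroup `V₀ ⋊ S₁` -/
def RS (φ : S →* MulAut V₀) (S₁ : Subgroup S) : Subgroup (V₀ ⋊[φ] S) :=
  S₁.comap SemidirectProduct.rightHom

/-- the embedding of `V₀` -/
def iG {φ : S →* MulAut V₀} (j : V₀ ⋊[φ] S →* G) : V₀ →* G := j.comp SemidirectProduct.inl

/-- the centraliser of `i(W)` -/
def CG {φ : S →* MulAut V₀} (j : V₀ ⋊[φ] S →* G) (W : Subgroup V₀) : Subgroup G :=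
  Subgroup.centralizer ((W.map (iG j) : Subgroup G) : Set G)

/-- the order of `C_K(W)` -/
def KW {φ : S →* MulAut V₀} (π : G →* V₀ ⋊[φ] S) (j : V₀ ⋊[φ] S →* G) (W : Subgroup V₀) : ℕ :=
  Nat.card (π.ker ⊓ CG j W : Subgroup G)

open Classical in
/-- the function `1 × θ` on `V₀ ⋊ S` -/
def eR [Field F] (φ : S →* MulAut V₀) (θ : S → F) (y : V₀ ⋊[φ] S) : F :=
  if y.left = 1 then θ y.right else 0

open Classical in
/-- the comparison datum -/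
def BG [Field F] (φ : S →* MulAut V₀) (θ : S → F) (d : ℕ) (π : G →* V₀ ⋊[φ] S)
    (j : V₀ ⋊[φ] S →* G) : Bk F V₀ G where
  e x := eR φ θ (π x)
  g x := if x ∈ CG j ⊤ then eR φ θ (π x) else 0
  i := iG j
  b W x := if x ∈ CG j W then eR φ θ (π x) else 0
  D _ := d
  S _ := 1

/-- `G = K ⋊ (V₀ ⋊ S)`, the order of `K` is prime to `ℓ`, `C_K(V₀) = 1`. -/
structure Cg (ℓ : ℕ) (φ : S →* MulAut V₀) (π : G →* V₀ ⋊[φ] S) (j : V₀ ⋊[φ] S →* G) : Prop where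
  sec : ∀ y, π (j y) = y
  ck : ¬ ℓ ∣ Nat.card π.ker
  fix : ∀ k, π k = 1 → (∀ v, j (SemidirectProduct.inl v) * k = k * j (SemidirectProduct.inl v)) →
    k = 1

/-- the character of `V₀ ⋊ S₁` induced from the character `lam × κ` of `V₀ × ker φ` -/
def xiL (φ : S →* MulAut V₀) (κ : S → ℂ) (S₁ : Subgroup S) (lam : V₀ → ℂ) (y : V₀ ⋊[φ] S) : ℂ :=
  κ y.right * ∑ᶠ τ : S₁.map φ, lam ((τ : MulAut V₀) y.left)

open Classical in
/-- the characters `xc` of the comparison datum -/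
def xcG {φ : S →* MulAut V₀} (ℓ : ℕ) (κ : S → ℂ) (π : G →* V₀ ⋊[φ] S) (j : V₀ ⋊[φ] S →* G)
    (W : Subgroup V₀) (x : G) : ℂ :=
  if x ∈ CG j W then κ (π x).right * (if (π x).left ∈ W then (ℓ : ℂ) - 1 else -1) else 0

/-- `q : T → S` is surjective with the kernel `i(V₀)`, `φ` is the action on `V₀`. -/
structure Sx (B : Bk F V₀ G) (q : Tg B.i.range B.g →* S) (φ : S →* MulAut V₀) : Prop where
  sur : Function.Surjective q
  ker : ∀ t, q t = 1 ↔ (t : G) ∈ B.i.range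
  act : ∀ (t : Tg B.i.range B.g) (v : V₀), (t : G) * B.i v * (t : G)⁻¹ = B.i (φ (q t) v)

end defs

section th

variable {V₀ S : Type} [CommGroup V₀] [Group S]

/-- `θ` is an `S`-invariant block of defect zero of `ker φ`, `κ` its character, of degree `d`. -/
structure Th (ℓ : ℕ) (M : Ideal (integralClosure ℤ ℂ)) [M.IsMaximal] (φ : S →* MulAut V₀)
    (θ : S → FF M) (κ : S → ℂ) (d : ℕ) : Prop where
  bx : Bx φ.ker θ
  cl : IsCl θ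
  tp : Tp ℓ (fun t : φ.ker => θ t) ⊥
  kz : ∀ x, x ∉ φ.ker → κ x = 0
  ki : IrrE M (fun t : φ.ker => θ t) = {fun t : φ.ker => κ t}
  kc : ∀ x y, κ (y * x * y⁻¹) = κ x
  kd : κ 1 = d
  dp : 0 < d

end th

/-! ## 1. The group `T/V` and the block `θ` -/

/-- SXA: the group `S = T/V`.

Proof.  `V = i(V₀)` is normal in `T = Tg V g` (`Tg ≤ normalizer`), `S = T ⧸ V.subgroupOf T`, `q` the projection.  For `t ∈ T` the `σ` with
`t i(v) t⁻¹ = i(σ v)` (`act`) is unique (`inj`), so it is a homomorphism `T → MulAut V₀`, with the image `E₀` (`act`, `sur`); `V` is in the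
kernel (`ld.ab`), so it factors over `q` (`QuotientGroup.lift`). -/
def SxaStmt : Prop := ∀ (ℓ : ℕ) [Fact ℓ.Prime] (M : Ideal (integralClosure ℤ ℂ)) [M.IsMaximal],
  (ℓ : integralClosure ℤ ℂ) ∈ M → ∀ (V₀ G : Type) [CommGroup V₀] [Finite V₀] [Group G]
  [Finite G] (E₀ : Subgroup (MulAut V₀)), Fq ℓ V₀ E₀ → ∀ B : Bk (FF M) V₀ G, Sb ℓ M E₀ B →
  ∃ (S : Type) (_ : Group S) (_ : Finite S) (q : Tg B.i.range B.g →* S) (φ : S →* MulAut V₀),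
    Sx B q φ ∧ φ.range = E₀

/-- SXL: the numbers `Lam`, the exponent.

Proof.  `θ = push q (g|T)`.  Let `E₁ ≤ E₀`, `X = TE B E₁ ≤ T`.  `q` maps `X` onto `E₁.comap φ` (`Sx.act`, `i` injective: `t` induces `φ (q t)`), with
the kernel `V`, an `ℓ`-group (`Fq.ex`).  `H75.cnt_push` (`Helper75_PP/Quo.lean`, `H20.nls`; `ln = cnt` by definition, see `Helper18_AT5/LNB.lean`):
`ln (g|X) = ln (push (g|X))`, and the push of `g|X` is `θ` restricted to `E₁.comap φ` (all `t` with `q t ∈ E₁.comap φ` are in `X`).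
`E₁ = E₀` gives `TE B E₀ = T`.  Exponent: let `s = q t` be an `ℓ`-element; with `m` from `PE ℓ (ℓ ^ r) m G`: `t ^ m` is the `ℓ`-part of `t`
(write `t = t₁ t₂`, `t₁` an `ℓ`-element, `t₂` regular, commuting powers of `t`), `q t₂` is a regular element and a power of the `ℓ`-element `s`, so
`q t₂ = 1`, `s = q t₁`, `t₁ ^ (ℓ ^ r) = 1`. -/
def SxlStmt : Prop := ∀ (ℓ : ℕ) [Fact ℓ.Prime] (M : Ideal (integralClosure ℤ ℂ)) [M.IsMaximal],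
  (ℓ : integralClosure ℤ ℂ) ∈ M → ∀ (V₀ G S : Type) [CommGroup V₀] [Finite V₀] [Group G]
  [Finite G] [Group S] [Finite S] (E₀ : Subgroup (MulAut V₀)), Fq ℓ V₀ E₀ →
  ∀ B : Bk (FF M) V₀ G, Sb ℓ M E₀ B → ∀ (q : Tg B.i.range B.g →* S) (φ : S →* MulAut V₀),
  Sx B q φ → φ.range = E₀ →
  (∀ E₁ ≤ E₀, Lam B E₁ = ln (fun t : E₁.comap φ => push q (fun t => B.g t) t)) ∧
  ∀ r, 0 < r → (∃ m, PE ℓ (ℓ ^ r) m G) → ∀ s : S, El ℓ s → s ^ ℓ ^ r = 1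

/-- SXB: the block `θ`.

Proof.  `θ = push q (g|T)`.  `ker φ = q(C(V))`: `C(V) ≤ T` (`g` is a class function of `C(V)`; HAT, last claim), and `t ∈ T` with `φ (q t) = 1`
centralises `V`.  `g` vanishes outside of `C(V)`, so `θ` vanishes outside of `ker φ`; `push_isCl`.  `θ` restricted to `ker φ` is the push of
`g|C(V)` along `C(V) → ker φ`, whose kernel `V` is a central `ℓ`-subgroup: `bx` by `psg` (see `Helper18_AT5/LNB.lean`).  `tp`: `g` has the defect group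
`V` (LBD of squad ASO for `W = ⊤`, `b ⊤ = g`), `pug` (see LNB.lean): a subgroup `Q` of `ker φ`, `θ` not zero on `C(Q)`, is `Q'/V`, `g` not zero on `C(Q')`, so
`|Q'| ≤ |V|`, `Q = 1`.  `κ`: `K9.PsiStmt`: the characters of `θ|ker φ` are the `κ` such that `κ ∘ q` is a character of `g`; these are the characters
`χ` of `g` which are trivial on `V`.  By NSD for `W = ⊤` (`lam` is a bijection of `Ch B ⊤` onto `lin V₀`, and `χ(i x) = χ 1 lam χ x`, see CHG)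
there is exactly one, and its degree is `B.D ⊤` (`Sd.dg`, `Rw E₀ ⊤`).  `kc`: the conjugates of `κ` under `S` are characters of `θ` (`cl`), so equal to
`κ`. -/
def SxbStmt : Prop := ∀ (ℓ : ℕ) [Fact ℓ.Prime] (M : Ideal (integralClosure ℤ ℂ)) [M.IsMaximal],
  (ℓ : integralClosure ℤ ℂ) ∈ M → ℓ ≠ 2 → ∀ (V₀ G S : Type) [CommGroup V₀] [Finite V₀] [Group G]
  [Finite G] [Group S] [Finite S] (E₀ : Subgroup (MulAut V₀)), Fq ℓ V₀ E₀ →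
  ∀ B : Bk (FF M) V₀ G, Sd ℓ M E₀ B → ∀ (q : Tg B.i.range B.g →* S) (φ : S →* MulAut V₀),
  Sx B q φ → φ.range = E₀ → ∃ κ : S → ℂ, Th ℓ M φ (push q (fun t => B.g t)) κ (B.D ⊤)

/-! ## 2. The comparison group -/

/-- CGS: the comparison group.

Proof.  `E₀ = φ.range`.  `SD.H43.cgx` (`Helper43_ASD/CGX.lean`; a theorem, with `P = fun _ => False`) gives `Γ`, `π₀ : Γ → V₀ ⋊ E₀`, `j₀`.  Let `G` be the subgroup of
the `(x, s) ∈ Γ × S` with `(π₀ x).right = φ s`, `π (x, s) = ⟨(π₀ x).left, s⟩`, `j ⟨v, s⟩ = (j₀ ⟨v, φ s⟩, s)`.  `π` is a homomorphism (`(π₀ x).right` acts on `V₀`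
as `φ s`), `π (j y) = y`.  The kernel of `π` is `{(x, 1) : π₀ x = 1}`, isomorphic to the kernel of `π₀`, and `i(v) = (j₀ (inl v), 1)`; so `ck`, and
`KW π j W` is the number of `cgx`.  `fix`: `(x, 1)` with `π₀ x = 1` which centralises `V` is in `i(V₀)` (third claim of `cgx`), and `π₀ x = 1`: `x = 1`. -/
def CgsStmt : Prop := ∀ (ℓ : ℕ) [Fact ℓ.Prime], ℓ ≠ 2 → ∀ (V₀ S : Type) [CommGroup V₀] [Finite V₀]
  [Group S] [Finite S] (φ : S →* MulAut V₀), Fq ℓ V₀ φ.range → ∀ (k : ℕ) (U : Subgroup V₀ → ℤ),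
  (∀ W, (ℓ : ℤ) ∣ U W - 1) → (∀ (W : Subgroup V₀) (s : S), U (mp (φ s) W) = U W) →
  ∃ (G : Type) (_ : Group G) (_ : Finite G) (π : G →* V₀ ⋊[φ] S) (j : V₀ ⋊[φ] S →* G),
    Cg ℓ φ π j ∧ ∀ W, W ≠ ⊥ → W ≠ ⊤ → ((ℓ ^ k : ℕ) : ℤ) ∣ (KW π j W : ℤ) - U W

/-- CEN: the centralisers in the comparison group.

Proof.  `y (inl v) y⁻¹ = inl (φ y.right v)` in `V₀ ⋊ S` (`V₀` is commutative), so `j y` centralises `i(W)` iff `φ y.right` fixes `W` pointwise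
(`j` is injective).  If `x ∈ C(W)` then `π x` centralises `inl(W)` and `j (π x) ∈ C(W)`, `x (j (π x))⁻¹ ∈ K ∩ C(W)`.  So `C(W)` has the order
`|RS φ (comap φ (St W))| KW W`, `|RS φ S₁| = ℓ ^ 2 |S₁|`.  `|comap φ E₁| = |ker φ| |E₁|` for `E₁ ≤ φ.range`.  The `ℓ`-group `V₀` acts by conjugation on
`K ∩ C(W)` (`K` is normal, `i(V₀)` centralises `i(W)`) and `1` is the only fixed point (`fix`), so `KW W = 1` modulo `ℓ`
(`CM.card_one` in `Helper76_ASO/CMI.lean`, or `IsPGroup.card_modEq_card_fixedPoints`); `q` is an integer divided by ... `KW W - 1 = ℓ q`. -/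
def CenStmt : Prop := ∀ (ℓ : ℕ) [Fact ℓ.Prime] (V₀ S G : Type) [CommGroup V₀] [Finite V₀]
  [Group S] [Finite S] [Group G] [Finite G] (φ : S →* MulAut V₀) (π : G →* V₀ ⋊[φ] S)
  (j : V₀ ⋊[φ] S →* G), Fq ℓ V₀ φ.range → Cg ℓ φ π j →
  Function.Injective (iG j) ∧ KW π j ⊤ = 1 ∧
  (∀ y v, j y * iG j v * (j y)⁻¹ = iG j (φ y.right v)) ∧ ∀ W : Subgroup V₀,
    (∀ y, j y ∈ CG j W ↔ φ y.right ∈ St φ.range W) ∧
    (∀ x ∈ CG j W, j (π x) ∈ CG j W ∧ x * (j (π x))⁻¹ ∈ (π.ker ⊓ CG j W : Subgroup G)) ∧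
    (CG j W).map π = RS φ ((St φ.range W).comap φ) ∧ (iG j).range ≤ CG j W ∧
    Nat.card (CG j W) = ℓ ^ 2 * Nat.card ((St φ.range W).comap φ) * KW π j W ∧
    Nat.card ((St φ.range W).comap φ) = Nat.card φ.ker * nS φ.range W ∧
    φ.ker ≤ (St φ.range W).comap φ ∧ (St φ.range (⊤ : Subgroup V₀)).comap φ = φ.ker ∧
    (W = ⊥ → (St φ.range W).comap φ = ⊤) ∧
    ∃ q ∈ SOR.Rl ℓ, (KW π j W : ℚ) = 1 + ℓ * q

/-- PEG: the exponent of the comparison group.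

Proof.  Let `x` be an `ℓ`-element, `π x = ⟨v, s⟩`.  `φ s` has `ℓ`-power order in `φ.range`, whose order is prime to `ℓ`: `φ s = 1`.  So
`⟨v, s⟩ ^ n = ⟨v ^ n, s ^ n⟩`; `s` is an `ℓ`-element, so `s ^ (ℓ ^ r) = 1`, `v ^ ℓ = 1`: `π (x ^ (ℓ ^ r)) = 1`, and `x ^ (ℓ ^ r)` is an `ℓ`-element of the kernel,
whose order is prime to `ℓ`, so it is `1`.  `m` by the Chinese remainder theorem (`1` modulo `ℓ ^ r`, `0` modulo the prime to `ℓ` part of `|G|`), as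
`SD.H43.pe_of` in `Helper43_ASD/CBG.lean` (there with `ℓ` instead of `ℓ ^ r`). -/
def PegStmt : Prop := ∀ (ℓ : ℕ) [Fact ℓ.Prime] (V₀ S G : Type) [CommGroup V₀] [Finite V₀]
  [Group S] [Finite S] [Group G] [Finite G] (φ : S →* MulAut V₀) (π : G →* V₀ ⋊[φ] S)
  (j : V₀ ⋊[φ] S →* G), Fq ℓ V₀ φ.range → Cg ℓ φ π j → ∀ r, 0 < r →
  (∀ s : S, El ℓ s → s ^ ℓ ^ r = 1) → ∃ m, PE ℓ (ℓ ^ r) m G

/-! ## 3. Blocks -/

/-- BRE: the block of `V₀ ⋊ S₁`.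

Proof.  (1) For `s ∈ ker φ` and `y = ⟨u, t⟩`: `y ⟨v, s⟩ y⁻¹ = ⟨φ t v, t s t⁻¹⟩` (`φ (t s t⁻¹) = 1`); `θ` is a class function and vanishes outside of `ker φ`:
`IsCl (eR φ θ)`.  `(eR * eR)(y)`: only `⟨1, t⟩` contribute, `= [y.left = 1] (θ * θ)(y.right)` and `θ * θ = θ` (`Bx.mul`).  In the same way for the restriction to
`R₁ = RS φ S₁`.  It is not zero (`θ ≠ 0`, `ker φ ≤ S₁`).
(2) Let `f` be an idempotent of `F R₁` (`IsIdem`), `f' = eR f`, an idempotent with `eR f' = f'`.  `P = inl(V₀)` is a normal `ℓ`-subgroup of `R₁`, so `f'`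
vanishes outside of `C(P) = V₀ × ker φ` (`T2.H32.supp_cent` in `Helper32_AT2/FST.lean`), and outside of the regular elements (`K9.H25.eh_sing`; see ONB, SO.Stmts7,
and its proof).  `⟨v, s⟩` with `s ∈ ker φ` is regular only if `v = 1`.  So `f' = [y.left = 1] h(y.right)`, `h(s) = f' ⟨1, s⟩`, and `h` restricted to `ker φ` is an
idempotent (class function of `ker φ`, `h * h = h` as in (1)) with `θ h = h`.  `θ|ker φ` is a block: `h = 0` or `h = θ` on `ker φ`, so `f' = 0` or `f' = eR`. -/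
def BreStmt : Prop := ∀ (ℓ : ℕ) [Fact ℓ.Prime] (M : Ideal (integralClosure ℤ ℂ)) [M.IsMaximal],
  (ℓ : integralClosure ℤ ℂ) ∈ M → ∀ (V₀ S : Type) [CommGroup V₀] [Finite V₀] [Group S]
  [Finite S] (φ : S →* MulAut V₀) (θ : S → FF M) (κ : S → ℂ) (d : ℕ), Fq ℓ V₀ φ.range →
  Th ℓ M φ θ κ d → IsCl (eR φ θ) ∧ IsBlk (eR φ θ) ∧
  ∀ S₁ : Subgroup S, φ.ker ≤ S₁ → IsBlk (fun y : RS φ S₁ => eR φ θ y)

/-- BLG: the blocks of the comparison group (hypotheses BRE, `SO.InfStmt`).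

Proof.  Let `C` be a subgroup of `G` with `i(V₀) ≤ C`, `π(C) = RS φ S₁`.  The kernel of `C → RS φ S₁` is `K ∩ C`, its number of elements is `1` in `FF M`
(`i(V₀)` acts on it, only `1` is fixed: `CM.card_one` in `Helper76_ASO/CMI.lean`).  So `infl (eR|RS φ S₁) = eR ∘ π|C`, and InfStmt (blocks, characters) and
BRE give the claims.  A function on `RS φ S₁` is extended by zero.  The first claims are the case `C = ⊤` (use InfStmt for `π` itself, `π` is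
surjective by `sec`).  Equal numbers: `ψ ↦ ψ ∘ π` is injective (`C → RS φ S₁` is surjective). -/
def BlgStmt : Prop := ∀ (ℓ : ℕ) [Fact ℓ.Prime] (M : Ideal (integralClosure ℤ ℂ)) [M.IsMaximal],
  (ℓ : integralClosure ℤ ℂ) ∈ M → ∀ (V₀ S G : Type) [CommGroup V₀] [Finite V₀] [Group S]
  [Finite S] [Group G] [Finite G] (φ : S →* MulAut V₀) (θ : S → FF M) (κ : S → ℂ) (d : ℕ)
  (π : G →* V₀ ⋊[φ] S) (j : V₀ ⋊[φ] S →* G), Fq ℓ V₀ φ.range → Th ℓ M φ θ κ d → Cg ℓ φ π j →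
  IsBlk (fun x : G => eR φ θ (π x)) ∧
  (IrrE M (fun x : G => eR φ θ (π x))).ncard = (IrrE M (eR φ θ)).ncard ∧
  ∀ C : Subgroup G, (iG j).range ≤ C → ∀ S₁ : Subgroup S, φ.ker ≤ S₁ → C.map π = RS φ S₁ →
    IsBlk (fun t : C => eR φ θ (π t)) ∧
    (∀ ψ : V₀ ⋊[φ] S → ℂ, (fun y : RS φ S₁ => ψ y) ∈ IrrE M (fun y : RS φ S₁ => eR φ θ y) →
      (fun t : C => ψ (π t)) ∈ IrrE M (fun t : C => eR φ θ (π t))) ∧
    ∀ χ ∈ IrrE M (fun t : C => eR φ θ (π t)), ∃ ψ : V₀ ⋊[φ] S → ℂ, (∀ y, y ∉ RS φ S₁ → ψ y = 0) ∧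
      (fun y : RS φ S₁ => ψ y) ∈ IrrE M (fun y : RS φ S₁ => eR φ θ y) ∧ χ = fun t : C => ψ (π t)

/-- TPG: the defect group of the comparison block.

Proof.  `pg`: `i(V₀)` is an `ℓ`-group.  `gd`: `θ s ≠ 0` for some `s ∈ ker φ` (`bx.blk`), `x = j (inr s)` centralises `i(V₀)` and `e x = θ s`.  `mx`: let `Q` be an
`ℓ`-subgroup, `x ∈ C(Q)`, `e x ≠ 0`.  Let `Q'` be the image of `Q` in `S` (`z ↦ (π z).right`), an `ℓ`-group.  `φ(Q')` is an `ℓ`-subgroup of `φ.range`, whose order is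
prime to `ℓ`: `Q' ≤ ker φ`.  `s = (π x).right`: `θ s = e x ≠ 0`, so `s ∈ ker φ`, and `s` centralises `Q'`.  So `θ|ker φ` is good for `Q'` and
`|Q'| ≤ 1` (`Th.tp`).  So `(π z).right = 1` for `z ∈ Q`, and `z ↦ (π z).left` is an injective homomorphism `Q → V₀` (`Q ∩ ker π = 1`: orders), `|Q| ≤ ℓ ^ 2 = |i(V₀)|`. -/
def TpgStmt : Prop := ∀ (ℓ : ℕ) [Fact ℓ.Prime] (M : Ideal (integralClosure ℤ ℂ)) [M.IsMaximal],
  (ℓ : integralClosure ℤ ℂ) ∈ M → ∀ (V₀ S G : Type) [CommGroup V₀] [Finite V₀] [Group S]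
  [Finite S] [Group G] [Finite G] (φ : S →* MulAut V₀) (θ : S → FF M) (κ : S → ℂ) (d : ℕ)
  (π : G →* V₀ ⋊[φ] S) (j : V₀ ⋊[φ] S →* G), Fq ℓ V₀ φ.range → Th ℓ M φ θ κ d → Cg ℓ φ π j →
  Tp ℓ (fun x : G => eR φ θ (π x)) (iG j).range

/-- SBG: the comparison datum, basic conditions (hypotheses CEN, BLG, TPG).

Proof.  As `cmx` in `Helper43_ASD/CBG.lean`.  `inj`: CEN.  `ld`: `blk` BLG; `tp` TPG; `ab` clear; `gam`: BLG for `C = CG j ⊤ = C(i(V₀))`, `S₁ = ker φ` (CEN; `(⊤ : Subgroup V₀).map i = i.range`);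
`und`: `br V e = g`, and `g * g = g` (`Bx.mul`).  `act`: let `t ∈ N(V)`, `t i(v) t⁻¹ = i(v')`; apply `π`: `inl v' = (π t) (inl v) (π t)⁻¹ = inl (φ (π t).right v)`.
`sur`: `σ = φ s`: `t = j (inr s)` (CEN (3)) normalises `V`, and `g (t x t⁻¹) = g x` (`e` is a class function, BRE or `blk`).
`lb`: `blk` BLG for `C = CG j W`, `S₁ = comap φ (St φ.range W)` (CEN); `und`: `e = b W` on `C W`, an idempotent; `gam`: `br V (b W) = g` (`C(V) ≤ C W`). -/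
def SbgStmt : Prop := ∀ (ℓ : ℕ) [Fact ℓ.Prime] (M : Ideal (integralClosure ℤ ℂ)) [M.IsMaximal],
  (ℓ : integralClosure ℤ ℂ) ∈ M → ∀ (V₀ S G : Type) [CommGroup V₀] [Finite V₀] [Group S]
  [Finite S] [Group G] [Finite G] (φ : S →* MulAut V₀) (θ : S → FF M) (κ : S → ℂ) (d : ℕ)
  (π : G →* V₀ ⋊[φ] S) (j : V₀ ⋊[φ] S →* G), Fq ℓ V₀ φ.range → Th ℓ M φ θ κ d → Cg ℓ φ π j →
  Sb ℓ M φ.range (BG φ θ d π j)

/-- TGG: the inertial group of the comparison datum (hypothesis CEN).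

Proof.  (1) Let `x ∈ N(V)`; `k = x (j (π x))⁻¹ ∈ ker π`, and `j (π x) ∈ N(V)` (CEN (3)), so `k i(v) k⁻¹ ∈ V`, and its image under `π` is `inl v`: `k` centralises `V`,
`k = 1` (`fix`).  Conversely `j y` normalises `V` and stabilises `g` (`eR φ θ` is a class function: BRE, or directly from `Th.cl`, `Th.bx`).
(2) `j y` acts on `V` as `φ y.right` (`i` is injective).  (3) `j` is an isomorphism of `RS φ (comap φ E₁)` onto `TE B E₁`, and `g (j y) = eR φ θ y`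
(`θ` vanishes outside of `ker φ`; if `y.right ∈ ker φ` then `j y ∈ CG j ⊤`).  So `Lam B E₁ = ln (eR|RS φ (comap φ E₁))` (transport), and the push of
`eR|RS φ S₁` along `RS φ S₁ → S₁` (surjective, its kernel is the `ℓ`-group `inl(V₀)`) is `θ|S₁`: `H75.cnt_push`. -/
def TggStmt : Prop := ∀ (ℓ : ℕ) [Fact ℓ.Prime] (M : Ideal (integralClosure ℤ ℂ)) [M.IsMaximal],
  (ℓ : integralClosure ℤ ℂ) ∈ M → ∀ (V₀ S G : Type) [CommGroup V₀] [Finite V₀] [Group S]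
  [Finite S] [Group G] [Finite G] (φ : S →* MulAut V₀) (θ : S → FF M) (κ : S → ℂ) (d : ℕ)
  (π : G →* V₀ ⋊[φ] S) (j : V₀ ⋊[φ] S →* G), Fq ℓ V₀ φ.range → Th ℓ M φ θ κ d → Cg ℓ φ π j →
  (∀ x, x ∈ Tg (BG φ θ d π j).i.range (BG φ θ d π j).g ↔ ∃ y, j y = x) ∧
  ∀ E₁ ≤ φ.range, (∀ x, x ∈ TE (BG φ θ d π j) E₁ ↔ ∃ y, j y = x ∧ φ y.right ∈ E₁) ∧
    Lam (BG φ θ d π j) E₁ = ln (fun t : E₁.comap φ => θ t)

/-! ## 4. Characters -/

/-- IND: induced characters.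

Proof.  `R₁ = RS φ S₁`, `N = RS φ (ker φ)`, normal in `R₁`.  `ψ ⟨v, s⟩ = lam v · κ s` is an irreducible character of `N`: `⟨v, s⟩ ↦ s` and `⟨v, s⟩ ↦ v` are
homomorphisms on `N`, `κ|ker φ` is irreducible (`ki`), `lam` is linear.  The induced function is `(1/|N|) ∑_(x ∈ R₁) ψ(x⁻¹ y x)`; for `x = ⟨u, t⟩`, `y = ⟨v, s⟩`, `s ∈ ker φ`:
`x⁻¹ y x = ⟨φ t⁻¹ v, t⁻¹ s t⟩`, `κ (t⁻¹ s t) = κ s` (`kc`), so it is `xiL` (every `τ ∈ φ(S₁)` is `φ t⁻¹` for `|ker φ|` elements `t ∈ S₁`); it vanishes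
outside of `N`.  Its inner product with every irreducible character `η` of `R₁` is the one of `ψ` and `η|N`, a natural number.  Its norm is
`|R₁|⁻¹ ∑_(s ∈ ker φ) |κ s|² ∑_v |∑_τ lam (τ v)|² = |R₁|⁻¹ |ker φ| |V₀| #{(τ, τ') : lam ∘ τ = lam ∘ τ'} = 1`, since `lam ∘ τ = lam ∘ τ'` only for
`τ = τ'` (hypothesis).  A class function with inner products in `ℕ` and norm `1` is an irreducible character.  The block: `res M (eR) xiL = 1`: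
`∑_y eR(y) xiL(y)/xiL(1) = ∑_(s ∈ ker φ) θ(s) κ(s)/κ(1)` (lifts; compare with `res M θ κ = 1`, `xiL ⟨1, s⟩ = |S₁.map φ| κ s`; `|S₁.map φ|` is prime to `ℓ`). -/
def IndStmt : Prop := ∀ (ℓ : ℕ) [Fact ℓ.Prime] (M : Ideal (integralClosure ℤ ℂ)) [M.IsMaximal],
  (ℓ : integralClosure ℤ ℂ) ∈ M → ∀ (V₀ S : Type) [CommGroup V₀] [Finite V₀] [Group S]
  [Finite S] (φ : S →* MulAut V₀) (θ : S → FF M) (κ : S → ℂ) (d : ℕ), Fq ℓ V₀ φ.range →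
  Th ℓ M φ θ κ d → ∀ S₁ : Subgroup S, φ.ker ≤ S₁ → ∀ lam ∈ lin V₀,
  (∀ s ∈ S₁, (∀ v, lam (φ s v) = lam v) → φ s = 1) →
  (fun y : RS φ S₁ => xiL φ κ S₁ lam y) ∈ IrrE M (fun y : RS φ S₁ => eR φ θ y)

/-- CHZ: the characters of `V₀ × ker φ`, the facts for `κ`.

Proof.  (1) `κ|ker φ` is irreducible (`ki`): orthogonality; `κ(s⁻¹)` is the complex conjugate.  (2) `inl v` is central in `N = RS φ (ker φ)`, so
`ψ (inl v * y) = lam v * ψ y`, `lam ∈ lin V₀`.  `η(s) = ψ (inr s)`, `s ∈ ker φ`, is a character of `ker φ`, and `∑_(y ∈ N) |ψ y|² = |V₀| ∑_s |η s|²`, so its norm is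
`1`: irreducible.  `res M θ η = res M eR ψ = 1`, so `η = κ`.  (3) distinct `lam` give distinct `ψ` (`κ 1 ≠ 0`), and all of them occur (`inl(V₀) × ker φ`:
product of a linear and an irreducible character; the block as in (2)). -/
def ChzStmt : Prop := ∀ (ℓ : ℕ) [Fact ℓ.Prime] (M : Ideal (integralClosure ℤ ℂ)) [M.IsMaximal],
  (ℓ : integralClosure ℤ ℂ) ∈ M → ∀ (V₀ S : Type) [CommGroup V₀] [Finite V₀] [Group S]
  [Finite S] (φ : S →* MulAut V₀) (θ : S → FF M) (κ : S → ℂ) (d : ℕ), Fq ℓ V₀ φ.range →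
  Th ℓ M φ θ κ d → ∑ᶠ s : φ.ker, κ (s : S)⁻¹ * κ s = Nat.card φ.ker ∧
  IrrE M (fun y : RS φ φ.ker => eR φ θ y) =
    {ψ | ∃ lam ∈ lin V₀, ψ = fun y : RS φ φ.ker => lam (y : V₀ ⋊[φ] S).left * κ (y : V₀ ⋊[φ] S).right}

/-- SDG: the comparison datum (hypotheses SBG, CEN, BLG, CHZ).

Proof.  `Rw φ.range W`: `St φ.range W = ⊥`, `comap φ (St W) = ker φ`.  `dg`: BLG for `C = CG j W` and CHZ: all characters are `ψ ∘ π`, `ψ 1 = lam 1 · κ 1 = d`.  `sg` clear.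
`U W = |C W| d/(|C ⊤| d) = KW W` (CEN for `W`, `⊤`, `KW ⊤ = 1`), `un`: CEN. -/
def SdgStmt : Prop := ∀ (ℓ : ℕ) [Fact ℓ.Prime] (M : Ideal (integralClosure ℤ ℂ)) [M.IsMaximal],
  (ℓ : integralClosure ℤ ℂ) ∈ M → ∀ (V₀ S G : Type) [CommGroup V₀] [Finite V₀] [Group S]
  [Finite S] [Group G] [Finite G] (φ : S →* MulAut V₀) (θ : S → FF M) (κ : S → ℂ) (d : ℕ)
  (π : G →* V₀ ⋊[φ] S) (j : V₀ ⋊[φ] S →* G), Fq ℓ V₀ φ.range → Th ℓ M φ θ κ d → Cg ℓ φ π j →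
  Sd ℓ M φ.range (BG φ θ d π j) ∧ ∀ W, Rw φ.range W → (BG φ θ d π j).U W = KW π j W

/-- LNG: the number of modular characters of the comparison block (hypotheses SBG, BLG, TGG, LMB).

Proof.  `B = BG φ θ d π j` and `B' = BG φ θ d id id` for the group `V₀ ⋊ S` (`Cg ℓ φ id id`).  TGG: `Lam B = Lam B'` on the `E₁ ≤ φ.range`.  BLG: `k(B) = k(B')`
(the second claim for both).  LMB (4) for both: `|E₀| ln B.e = |E₀| ln B'.e`.  `inl(V₀)` is normal in `V₀ ⋊ S`: LMB (2), `ln B'.e = Lam B' E₀`.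
`Lam B E₀ = lT B` (`TE B E₀ = Tg`, see TGG (1), (2)). -/
def LngStmt : Prop := ∀ (ℓ : ℕ) [Fact ℓ.Prime] (M : Ideal (integralClosure ℤ ℂ)) [M.IsMaximal],
  (ℓ : integralClosure ℤ ℂ) ∈ M → ℓ ≠ 2 → ∀ (V₀ S G : Type) [CommGroup V₀] [Finite V₀] [Group S]
  [Finite S] [Group G] [Finite G] (φ : S →* MulAut V₀) (θ : S → FF M) (κ : S → ℂ) (d : ℕ)
  (π : G →* V₀ ⋊[φ] S) (j : V₀ ⋊[φ] S →* G), Fq ℓ V₀ φ.range → Th ℓ M φ θ κ d → Cg ℓ φ π j →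
  ln (BG φ θ d π j).e = lT (BG φ θ d π j)

/-- VNU: the numbers `Vx`, `nu` (hypotheses CEN, BLG, CHZ).

Proof.  `B = BG φ θ d π j`.  `C ⊤ = {j ⟨v, s⟩ : s ∈ ker φ}` (CEN: `x ∈ C ⊤`, `x (j (π x))⁻¹ ∈ K ∩ C ⊤`, `KW ⊤ = 1`).  By BLG for `C ⊤`, `S₁ = ker φ`, and CHZ the characters
of `b ⊤|C ⊤` are `j ⟨v, s⟩ ↦ lam v · κ s`, so `bh B ⊤ (j ⟨v, s⟩) = |C ⊤|⁻¹ ∑_lam d lam(v⁻¹) κ(s⁻¹)` (definitions of `bh`, `eh`), `= [v = 1] d |ker φ|⁻¹ κ(s⁻¹)`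
(`|lin V₀| = ℓ ^ 2 = |V₀|`, orthogonality; `|C ⊤| = ℓ ^ 2 |ker φ|`), and `bh B ⊤` is zero outside of `C ⊤`.  So
`Vx B χ x = d⁻¹ ∑_(s ∈ ker φ) d |ker φ|⁻¹ κ(s⁻¹) χ(i x · j ⟨1, s⟩) = |ker φ|⁻¹ ∑_s κ(s⁻¹) κ(s) f x = f x` (CHZ).  `nu B χ w = κ(1) f w/(κ(1) f 1)`. -/
def VnuStmt : Prop := ∀ (ℓ : ℕ) [Fact ℓ.Prime] (M : Ideal (integralClosure ℤ ℂ)) [M.IsMaximal],
  (ℓ : integralClosure ℤ ℂ) ∈ M → ∀ (V₀ S G : Type) [CommGroup V₀] [Finite V₀] [Group S]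
  [Finite S] [Group G] [Finite G] (φ : S →* MulAut V₀) (θ : S → FF M) (κ : S → ℂ) (d : ℕ)
  (π : G →* V₀ ⋊[φ] S) (j : V₀ ⋊[φ] S →* G), Fq ℓ V₀ φ.range → Th ℓ M φ θ κ d → Cg ℓ φ π j →
  ∀ (χ : G → ℂ) (f : V₀ → ℂ), (∀ v s, φ s = 1 → χ (j ⟨v, s⟩) = κ s * f v) →
  (∀ x, Vx (BG φ θ d π j) χ x = f x) ∧
  (f 1 ≠ 0 → ∀ w, nu (BG φ θ d π j) χ w = f w / f 1)

/-- LLW: linear characters of `V₀` which are trivial on a line `W ∈ R` (hypothesis PRB of `Stmts3.lean`).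

Proof.  `n = nS E₀ W`, `A` = the kernel of `pr ℓ E₀ W`.  `pr` maps `V₀` onto `W` (PRB (1), (5)), so `|A| = ℓ`, `A ∩ W = 1`, `V₀ = W × A`; `St E₀ W` maps `A` to itself (PRB (3))
and a `τ ∈ St E₀ W` which fixes an `a ∈ A`, `a ≠ 1`, is `1` (PRB (9)).  (1) There is `lam ∈ lin V₀`, trivial on `W`, with `lam x ≠ 1` for some `x`
(characters of `V₀/W`, or `lam' ∘ (v ↦ v (pr v)⁻¹)`).  (2) `lam x = lam (x (pr x)⁻¹)`, so `lam` is not trivial on `A`, of prime order: `lam a ≠ 1` for `a ∈ A`, `a ≠ 1`.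
(3) If `lam (τ v) = lam v` for all `v`: `τ a a⁻¹ ∈ A`, `lam (τ a a⁻¹) = 1`, so `τ a = a`, `τ = 1`.  (4) `n = ℓ - 1`: for `v ∈ W` all terms are `1`.  `v = w a`, `a ≠ 1`:
`lam (τ v) = lam (τ a)`, `τ ↦ τ a` is injective, so a bijection of `St E₀ W` onto `A - 1`, and `∑_(a' ∈ A - 1) lam a' = -1`.
(5) `n ≠ ℓ - 1`: let `f x = ∑_τ lam (τ x)`.  If `f` were a constant `c` on `A - 1`: `0 = ∑_(a ∈ A) f a = n + (ℓ - 1) c` (`∑_a lam (τ a) = 0`), and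
`∑_(a ∈ A) |f a|² = n² + (ℓ - 1) |c|² = ℓ n` (the `lam ∘ τ` are distinct on `A` by (3), orthogonality).  So `n² + n²/(ℓ - 1) = ℓ n`, `n = ℓ - 1`.  The elements of `A - 1` are
not in `W`. -/
def LlwStmt : Prop := ∀ (ℓ : ℕ) [Fact ℓ.Prime] (V₀ : Type) [CommGroup V₀] [Finite V₀]
  (E₀ : Subgroup (MulAut V₀)), Fq ℓ V₀ E₀ → ∀ W ∈ RL ℓ E₀,
  (∃ lam ∈ lin V₀, (∀ w ∈ W, lam w = 1) ∧ ∃ x, lam x ≠ 1) ∧
  ∀ lam ∈ lin V₀, (∀ w ∈ W, lam w = 1) → (∃ x, lam x ≠ 1) →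
    (∀ x, pr ℓ E₀ W x = 1 → x ≠ 1 → lam x ≠ 1) ∧
    (∀ τ ∈ St E₀ W, (∀ v, lam (τ v) = lam v) → τ = 1) ∧
    (nS E₀ W = ℓ - 1 → ((∀ v ∈ W, ∑ᶠ τ : St E₀ W, lam ((τ : MulAut V₀) v) = (ℓ : ℂ) - 1) ∧
      ∀ v, v ∉ W → ∑ᶠ τ : St E₀ W, lam ((τ : MulAut V₀) v) = -1)) ∧
    (nS E₀ W ≠ ℓ - 1 → ∃ x y, x ∉ W ∧ y ∉ W ∧ pr ℓ E₀ W x = 1 ∧ pr ℓ E₀ W y = 1 ∧
      ∑ᶠ τ : St E₀ W, lam ((τ : MulAut V₀) x) ≠ ∑ᶠ τ : St E₀ W, lam ((τ : MulAut V₀) y))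

/-- XCG: the characters `xc` of the comparison datum (hypotheses CEN, BLG, TGG, IND, VNU, LLW).

Proof.  `E₀ = φ.range`, `S₁ = comap φ (St E₀ W)`, `S₁.map φ = St E₀ W`.  (m) Let `lam` be as in LLW.  By LLW (4) `xcG W x = xiL φ κ S₁ lam (π x)` for `x ∈ C W` (if
`(π x).right ∉ ker φ` both are `0`).  IND (its hypothesis is LLW (3)), BLG: `xcG W ∈ Ch B W`.  VNU with `f v = ∑_τ lam (τ v)`: `nu = f w/f 1 = 1` for
`w ∈ W`.  (e) Let `t ∈ Tg`, `t = j ⟨u, s⟩` (TGG), `φ s = σ` (CEN (3), `i` injective).  `x ∈ C(σ W)` iff `t⁻¹ x t ∈ C(W)`.  `π (t⁻¹ x t) = ⟨u, s⟩⁻¹ (π x) ⟨u, s⟩`, its right component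
is conjugate to the one of `π x` (`kc`); if that is in `ker φ` the left component is `φ s⁻¹ ((π x).left)`, which is in `W` iff `(π x).left ∈ σ W`; otherwise
`κ` vanishes.  Degree: `xcG W 1 = κ 1 (ℓ - 1)`. -/
def XcgStmt : Prop := ∀ (ℓ : ℕ) [Fact ℓ.Prime] (M : Ideal (integralClosure ℤ ℂ)) [M.IsMaximal],
  (ℓ : integralClosure ℤ ℂ) ∈ M → ∀ (V₀ S G : Type) [CommGroup V₀] [Finite V₀] [Group S]
  [Finite S] [Group G] [Finite G] (φ : S →* MulAut V₀) (θ : S → FF M) (κ : S → ℂ) (d : ℕ)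
  (π : G →* V₀ ⋊[φ] S) (j : V₀ ⋊[φ] S →* G), Fq ℓ V₀ φ.range → Th ℓ M φ θ κ d → Cg ℓ φ π j →
  Xc ℓ φ.range (BG φ θ d π j) (xcG ℓ κ π j) ∧ ∀ W, xcG ℓ κ π j W 1 = ((ℓ : ℂ) - 1) * d

/-- EXG: exceptional characters of the comparison datum (hypotheses CEN, BLG, IND, VNU, LLW, XCG).

Proof.  `n = nS φ.range W`.  If `n = ℓ - 1`: `χ = xcG W` (XCG: `m`, degree).  Otherwise let `lam` be as in LLW, `χ x = xiL φ κ S₁ lam (π x)` for `x ∈ C W` and `0` elsewhere,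
`S₁ = comap φ (St W)`.  IND, BLG: `χ ∈ Ch B W`.  VNU with `f v = ∑_(τ ∈ St W) lam (τ v)` (`j ⟨v, s⟩ ∈ C W` for `s ∈ ker φ`): `Vx B χ x = f x`, and LLW (5).  Degree:
`κ 1 · |St W| · lam 1 = n d`. -/
def ExgStmt : Prop := ∀ (ℓ : ℕ) [Fact ℓ.Prime] (M : Ideal (integralClosure ℤ ℂ)) [M.IsMaximal],
  (ℓ : integralClosure ℤ ℂ) ∈ M → ∀ (V₀ S G : Type) [CommGroup V₀] [Finite V₀] [Group S]
  [Finite S] [Group G] [Finite G] (φ : S →* MulAut V₀) (θ : S → FF M) (κ : S → ℂ) (d : ℕ)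
  (π : G →* V₀ ⋊[φ] S) (j : V₀ ⋊[φ] S →* G), Fq ℓ V₀ φ.range → Th ℓ M φ θ κ d → Cg ℓ φ π j →
  ∀ W ∈ RL ℓ φ.range, ∃ χ, Exc ℓ φ.range (BG φ θ d π j) (xcG ℓ κ π j) W χ ∧
    χ 1 = (nS φ.range W : ℂ) * d

/-! ## 5. The outputs -/

/-- CGE (`CgeStmt` of `StmtsX.lean`): from SXA, SXL, SXB, CGS, CEN, PEG, SDG, TGG, LNG, XCG, EXG.

Proof.  SXA, SXB: `S`, `q`, `φ`, `θ`, `κ`, `d = B.D ⊤`, `φ.range = E₀`.  `U` is replaced by integers as in the proof of `cbg` (`Helper43_ASD/CBG.lean`, `SO.H15.nn`), `k = K + 1`.  CGS.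
`B' = BG φ θ d π j`, `κ W = KW π j W`.  `PE`: SXL, PEG.  `Lam`: SXL, TGG.  `ln`: LNG.  The number: `|C W| d/(|C ⊤| n d) = KW W` (CEN).  `KW ⊤ = 1 = U ⊤`. -/
def CgfStmt : Prop := CgeStmt

/-- FXC: a fixed character with trivial central character (hypotheses `CgeStmt`, `FxeStmt`).

Proof.  `N = {σ ∈ E₀ : mp σ W = W}` maps to the automorphism group of the cyclic group `W` of order `ℓ`, with the kernel `St E₀ W`; so `N = ⟨g⟩ St E₀ W`.  An element of `T` which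
induces `τ ∈ St E₀ W` is in `C W`, so it fixes all `χ ∈ Ch B W` (class functions of `C W`, zero elsewhere; `t` normalises `C W`).  So a `χ` fixed by `g` (by one `t` inducing `g`,
or by all of them: two of them differ by an element of `C(V)`) is fixed by all `σ ∈ N`.
(1) `g` acts trivially on `W`, `N = St E₀ W`: it remains to find a `χ ∈ Ch B W` with `nu = 1`: `i(W)` is a central `ℓ`-subgroup of `C W`, `p : C W → C W/i(W)`;
`push p (b W)` is an idempotent (`push_isIdem`), not zero (`psg`: a block), so it has a character `η`, and `η ∘ p` is a character of `b W` (`K9.PsiStmt`), trivial on `i(W)`.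
(2) Otherwise `CgeStmt` with `K = 0`, `U = 1`: `B'`, `xc'`.  `xc' W` is fixed by `g` (`Xc.e`, `t = tt B' g`), `FxeStmt`: the number of the `χ ∈ Ch B W` with
`ac B g χ = χ` is not `0`.  `nu B (ac B g χ) w = nu B χ (g⁻¹ w)` (`t⁻¹ i(w) t = i(g⁻¹ w)`), so `nu B χ (g⁻¹ w) = nu B χ w`; `nu B χ` is multiplicative on `W` (`i(W)` is central in `C W`), so it
is `1` on the elements `g⁻¹ w w⁻¹`, which generate `W` (`g` acts non trivially, `|W| = ℓ`). -/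
def FxcStmt : Prop := ∀ (ℓ : ℕ) [Fact ℓ.Prime] (M : Ideal (integralClosure ℤ ℂ)) [M.IsMaximal],
  (ℓ : integralClosure ℤ ℂ) ∈ M → ℓ ≠ 2 → ∀ (V₀ G : Type) [CommGroup V₀] [Finite V₀] [Group G]
  [Finite G] (E₀ : Subgroup (MulAut V₀)), Fq ℓ V₀ E₀ → ∀ B : Bk (FF M) V₀ G, Sd ℓ M E₀ B →
  ∀ W ∈ RL ℓ E₀, nS E₀ W = ℓ - 1 → ∃ χ ∈ Ch B W, (∀ w ∈ W, nu B χ w = 1) ∧
    ∀ σ ∈ E₀, mp σ W = W → ∀ t ∈ Tg B.i.range B.g, (∀ v, t * B.i v * t⁻¹ = B.i (σ v)) →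
      (fun g => χ (t⁻¹ * g * t)) = χ

/-- XCH: `XceStmt` of `StmtsX.lean` (hypothesis FXC, and MPB of `Stmts3.lean`, CJD).

Proof.  For the `W ∈ RL ℓ E₀` with `nS E₀ W = ℓ - 1` (a set invariant under `E₀`, PRB (4)) choose a representative `r(W)` of the orbit of `W` (`r (mp σ W) = r W`), `s(W) ∈ E₀` with
`mp (s W) (r W) = W` and `t(W) ∈ Tg` inducing `s(W)` (`sur`), `χ_r` for `r = r(W)` by FXC, and `xc W = fun g => χ_r (t(W)⁻¹ g t(W))`.  (m) `t` maps `Ch B r` onto `Ch B (mp s r)` (CJD: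
`b (mp s r) = t b r t⁻¹`; see ACB in `Stmts3.lean`), `nu B (xc W) w = nu B χ_r (s⁻¹ w) = 1` for `w ∈ W = mp s r`.  (e) `t' = t(mp σ W)` and `t t(W)` both map `r` to `mp σ W`; `u = t'⁻¹ t t(W) ∈ Tg`
induces an element of `E₀` which maps `r` to `r`, so `χ_r (u⁻¹ y u) = χ_r y`; with `y = t'⁻¹ g t'`: `xc W (t⁻¹ g t) = χ_r ((t t(W))⁻¹ g (t t(W))) = χ_r (u⁻¹ y u) = xc (mp σ W) g`. -/
def XchStmt : Prop := XceStmt

end Pool.Agent.PP.SE
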